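import Mathlib

/-!
Functionals given by truncated weights: absorption of the large coordinates, greedy moves, and the same for the dual
functional.
-/

set_option autoImplicit false

namespace Q80.DG

open Finset

/-- The parameters: level weights `θ n`, a class `V` of nonnegative weights, a small factor `c` and a threshold `κ`. -/
structure Par (θ : ℕ → ℝ) (V : Set (ℕ → ℝ)) (c κ : ℝ) : Prop where
  θpos : ∀ n, 0 < θ n
  θanti : Antitone θ
  θone : θ 1 = 1
  c0 : 0 < c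
  c1 : c ≤ 1
  κ0 : 0 < κ
  κ1 : κ < 1
  vne : V.Nonempty
  vnn : ∀ v ∈ V, ∀ j, 0 ≤ v j
  key : ∀ (n : ℕ), ∀ v ∈ V, ∀ D : Finset ℕ, (∀ j ∈ D, θ (n + 1) < v j) →
    (θ n - θ (n + 1)) * (n + c * D.card) ≤ κ * (θ (n + 1) - c * θ n)

/-- the weight of a configuration -/
noncomputable def W (θ : ℕ → ℝ) (c : ℝ) (B S : Finset ℕ) (v : ℕ → ℝ) (j : ℕ) : ℝ :=
  if j ∈ B then θ B.card else if j ∈ S then c * min (v j) (θ B.card) else 0

/-- the value of a configuration -/
noncomputable def Val (θ : ℕ → ℝ) (c : ℝ) (B S : Finset ℕ) (v u : ℕ → ℝ) : ℝ :=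
  θ B.card * ∑ j ∈ B, u j + ∑ j ∈ S \ B, c * min (v j) (θ B.card) * u j

variable {θ : ℕ → ℝ} {V : Set (ℕ → ℝ)} {c κ : ℝ}

lemma Val_eq (B S F : Finset ℕ) (v u : ℕ → ℝ) (hF : B ∪ S ⊆ F) :
    Val θ c B S v u = ∑ j ∈ F, W θ c B S v j * u j := by
  classical
  have h1 : ∑ j ∈ F, W θ c B S v j * u j = ∑ j ∈ B ∪ (S \ B), W θ c B S v j * u j := by
    rw [Finset.union_sdiff_self_eq_union]
    symm
    apply Finset.sum_subset hF
    intro j _ hj
    rw [Finset.mem_union, not_or] at hj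
    unfold W
    rw [if_neg hj.1, if_neg hj.2, zero_mul]
  rw [h1, Finset.sum_union Finset.disjoint_sdiff]
  unfold Val
  rw [Finset.mul_sum]
  congr 1
  · refine Finset.sum_congr rfl fun j hj => ?_
    unfold W
    rw [if_pos hj]
  · refine Finset.sum_congr rfl fun j hj => ?_
    obtain ⟨h2, h3⟩ := Finset.mem_sdiff.mp hj
    unfold W
    rw [if_neg h3, if_pos h2]

lemma Par.cmin_nonneg (H : Par θ V c κ) {v : ℕ → ℝ} (hv : v ∈ V) (n j : ℕ) : 0 ≤ c * min (v j) (θ n) :=
  mul_nonneg H.c0.le (le_min (H.vnn v hv j) (H.θpos n).le)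

lemma Par.W_nonneg (H : Par θ V c κ) {v : ℕ → ℝ} (hv : v ∈ V) (B S : Finset ℕ) (j : ℕ) : 0 ≤ W θ c B S v j := by
  unfold W
  split_ifs
  · exact (H.θpos _).le
  · exact H.cmin_nonneg hv _ _
  · exact le_rfl

lemma Par.W_le (H : Par θ V c κ) {v : ℕ → ℝ} (hv : v ∈ V) (B S : Finset ℕ) (j : ℕ) : W θ c B S v j ≤ θ B.card := by
  unfold W
  have h1 := (H.θpos B.card).le
  split_ifs
  · exact le_rfl
  · calc c * min (v j) (θ B.card) ≤ 1 * θ B.card :=
        mul_le_mul H.c1 (min_le_right _ _) (le_min (H.vnn v hv j) h1) zero_le_one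
      _ = θ B.card := one_mul _
  · exact h1

lemma Par.Val_nonneg (H : Par θ V c κ) {v : ℕ → ℝ} (hv : v ∈ V) (B S : Finset ℕ) {u : ℕ → ℝ} (hu : ∀ j, 0 ≤ u j) :
    0 ≤ Val θ c B S v u := by
  unfold Val
  apply add_nonneg
  · exact mul_nonneg (H.θpos _).le (Finset.sum_nonneg fun j _ => hu j)
  · exact Finset.sum_nonneg fun j _ => mul_nonneg (H.cmin_nonneg hv _ _) (hu j)

lemma Par.Val_mono (H : Par θ V c κ) {v : ℕ → ℝ} (hv : v ∈ V) (B S : Finset ℕ) {u u' : ℕ → ℝ} (h : ∀ j, u' j ≤ u j) :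
    Val θ c B S v u' ≤ Val θ c B S v u := by
  unfold Val
  apply add_le_add
  · exact mul_le_mul_of_nonneg_left (Finset.sum_le_sum fun j _ => h j) (H.θpos _).le
  · exact Finset.sum_le_sum fun j _ => mul_le_mul_of_nonneg_left (h j) (H.cmin_nonneg hv _ _)

/-- a large coordinate can be added to the top set of a configuration -/
lemma Par.absorb1 (H : Par θ V c κ) {v : ℕ → ℝ} (hv : v ∈ V) {u : ℕ → ℝ} {t : ℝ} (h0 : ∀ j, 0 ≤ u j)
    (ht : ∀ j, u j ≤ t) {i : ℕ} (hi : κ * t ≤ u i) (B S : Finset ℕ) (hB : i ∉ B) :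
    Val θ c B S v u ≤ Val θ c (insert i B) S v u := by
  classical
  obtain ⟨n, hn⟩ : ∃ n, n = B.card := ⟨_, rfl⟩
  have hcard : (insert i B).card = n + 1 := by rw [Finset.card_insert_of_notMem hB, hn]
  unfold Val
  rw [hcard, ← hn, Finset.sum_insert hB]
  obtain ⟨R, hR⟩ : ∃ R, R = S \ insert i B := ⟨_, rfl⟩
  obtain ⟨D, hD⟩ : ∃ D, D = R.filter (fun j => θ (n + 1) < v j) := ⟨_, rfl⟩
  have ht0 : 0 ≤ t := (h0 0).trans (ht 0)
  have hδ : 0 ≤ θ n - θ (n + 1) := sub_nonneg.mpr (H.θanti (Nat.le_succ n))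
  have h1 : ∑ j ∈ S \ B, c * min (v j) (θ n) * u j ≤ c * θ n * u i + ∑ j ∈ R, c * min (v j) (θ n) * u j := by
    have hi' : i ∉ R := by
      rw [hR, Finset.mem_sdiff]
      intro h
      exact h.2 (Finset.mem_insert_self _ _)
    have h2 : ∑ j ∈ S \ B, c * min (v j) (θ n) * u j ≤ ∑ j ∈ insert i R, c * min (v j) (θ n) * u j := by
      apply Finset.sum_le_sum_of_subset_of_nonneg
      · intro j hj
        obtain ⟨h3, h4⟩ := Finset.mem_sdiff.mp hj
        rw [Finset.mem_insert, hR, Finset.mem_sdiff, Finset.mem_insert]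
        by_cases h5 : j = i
        · exact Or.inl h5
        · exact Or.inr ⟨h3, fun h6 => h6.elim h5 h4⟩
      · intro j _ _
        exact mul_nonneg (H.cmin_nonneg hv _ _) (h0 j)
    rw [Finset.sum_insert hi'] at h2
    have h3 : c * min (v i) (θ n) * u i ≤ c * θ n * u i :=
      mul_le_mul_of_nonneg_right (mul_le_mul_of_nonneg_left (min_le_right _ _) H.c0.le) (h0 i)
    linarith
  have h2 : ∑ j ∈ R, c * min (v j) (θ n) * u j ≤ ∑ j ∈ R, c * min (v j) (θ (n + 1)) * u j +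
      D.card * (c * (θ n - θ (n + 1)) * t) := by
    have h3 : (D.card : ℝ) * (c * (θ n - θ (n + 1)) * t) =
        ∑ j ∈ R, if θ (n + 1) < v j then c * (θ n - θ (n + 1)) * t else 0 := by
      rw [← Finset.sum_filter, Finset.sum_const, nsmul_eq_mul, hD]
    rw [h3, ← Finset.sum_add_distrib]
    refine Finset.sum_le_sum fun j _ => ?_
    have hu := h0 j
    have hut := ht j
    split_ifs with h4
    · have h5 : min (v j) (θ n) ≤ θ n := min_le_right _ _
      have h6 : min (v j) (θ (n + 1)) = θ (n + 1) := min_eq_right h4.le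
      rw [h6]
      have h7 : c * min (v j) (θ n) * u j ≤ c * θ n * u j :=
        mul_le_mul_of_nonneg_right (mul_le_mul_of_nonneg_left h5 H.c0.le) hu
      have h8 : c * (θ n - θ (n + 1)) * u j ≤ c * (θ n - θ (n + 1)) * t :=
        mul_le_mul_of_nonneg_left hut (mul_nonneg H.c0.le hδ)
      linarith
    · rw [not_lt] at h4
      have h5 : min (v j) (θ (n + 1)) = v j := min_eq_left h4
      have h6 : min (v j) (θ n) ≤ v j := min_le_left _ _
      rw [h5, add_zero]
      exact mul_le_mul_of_nonneg_right (mul_le_mul_of_nonneg_left h6 H.c0.le) hu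
  have h3 : ∑ j ∈ B, u j ≤ n * t := by
    calc ∑ j ∈ B, u j ≤ ∑ _j ∈ B, t := Finset.sum_le_sum fun j _ => ht j
      _ = n * t := by rw [Finset.sum_const, nsmul_eq_mul, hn]
  have hkey := H.key n v hv D (by
    intro j hj
    rw [hD, Finset.mem_filter] at hj
    exact hj.2)
  have hkey0 := H.key n v hv ∅ (by simp)
  have hpos : 0 ≤ θ (n + 1) - c * θ n := by
    rw [Finset.card_empty, Nat.cast_zero, mul_zero, add_zero] at hkey0
    have h4 : 0 ≤ κ * (θ (n + 1) - c * θ n) := le_trans (mul_nonneg hδ (Nat.cast_nonneg n)) hkey0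
    exact nonneg_of_mul_nonneg_right h4 H.κ0
  have h4 : (θ n - θ (n + 1)) * ∑ j ∈ B, u j ≤ (θ n - θ (n + 1)) * (n * t) := mul_le_mul_of_nonneg_left h3 hδ
  have h5 : t * ((θ n - θ (n + 1)) * (n + c * D.card)) ≤ t * (κ * (θ (n + 1) - c * θ n)) :=
    mul_le_mul_of_nonneg_left hkey ht0
  have h6 : (θ (n + 1) - c * θ n) * (κ * t) ≤ (θ (n + 1) - c * θ n) * u i := mul_le_mul_of_nonneg_left hi hpos
  rw [← hR]
  nlinarith [h1, h2, h4, h5, h6]

lemma Par.absorb (H : Par θ V c κ) {v : ℕ → ℝ} (hv : v ∈ V) {u : ℕ → ℝ} {t : ℝ} (h0 : ∀ j, 0 ≤ u j)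
    (ht : ∀ j, u j ≤ t) (T : Finset ℕ) (hT : ∀ j ∈ T, κ * t ≤ u j) (B S : Finset ℕ) :
    Val θ c B S v u ≤ Val θ c (B ∪ T) S v u := by
  classical
  induction T using Finset.induction_on with
  | empty => rw [Finset.union_empty]
  | insert i T hi ih =>
    have h1 := ih fun j hj => hT j (Finset.mem_insert_of_mem hj)
    refine h1.trans ?_
    rw [Finset.union_insert]
    by_cases h2 : i ∈ B ∪ T
    · rw [Finset.insert_eq_of_mem h2]
    · exact H.absorb1 hv h0 ht (hT i (Finset.mem_insert_self _ _)) _ S h2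

/-- domination -/
def Dom (θ : ℕ → ℝ) (V : Set (ℕ → ℝ)) (c : ℝ) (u' u : ℕ → ℝ) : Prop :=
  ∀ B S : Finset ℕ, ∀ v ∈ V, ∃ B' S' : Finset ℕ, ∃ v' ∈ V, Val θ c B S v u' ≤ Val θ c B' S' v' u

lemma Dom.trans {u'' u' u : ℕ → ℝ} (h : Dom θ V c u'' u') (h' : Dom θ V c u' u) : Dom θ V c u'' u := by
  intro B S v hv
  obtain ⟨B', S', v', hv', h1⟩ := h B S v hv
  obtain ⟨B'', S'', v'', hv'', h2⟩ := h' B' S' v' hv'
  exact ⟨B'', S'', v'', hv'', h1.trans h2⟩

lemma Par.dom_mono (H : Par θ V c κ) {u' u : ℕ → ℝ} (h : ∀ j, u' j ≤ u j) : Dom θ V c u' u :=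
  fun B S v hv => ⟨B, S, v, hv, H.Val_mono hv B S h⟩

/-- The form of a move: the relation compares `t` on `B` and `0` on `A` with `t` on `A` and `0` on `B`. -/
def Moves (R : (ℕ → ℝ) → (ℕ → ℝ) → Prop) : Prop :=
  ∀ (t : ℝ) (A B : Finset ℕ) (r : ℕ → ℝ), 0 < t → B.card ≤ A.card → Disjoint A B → (∀ j, 0 ≤ r j) → (∀ j, r j ≤ t) →
    R (fun j => if j ∈ B then t else if j ∈ A then 0 else r j) (fun j => if j ∈ A then t else if j ∈ B then 0 else r j)

lemma Par.moves (H : Par θ V c κ) : Moves (Dom θ V c) := by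
  classical
  intro t A B r ht hcard hdisj hr0 hrt C S v hv
  obtain ⟨u', hu'⟩ : ∃ u' : ℕ → ℝ, u' = fun j => if j ∈ B then t else if j ∈ A then 0 else r j := ⟨_, rfl⟩
  obtain ⟨u, hu⟩ : ∃ u : ℕ → ℝ, u = fun j => if j ∈ A then t else if j ∈ B then 0 else r j := ⟨_, rfl⟩
  rw [← hu', ← hu]
  have hu'0 : ∀ j, 0 ≤ u' j := by
    intro j
    rw [hu']
    dsimp only
    split_ifs
    exacts [ht.le, le_rfl, hr0 j]
  have hu't : ∀ j, u' j ≤ t := by
    intro j
    rw [hu']
    dsimp only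
    split_ifs
    exacts [le_rfl, ht.le, hrt j]
  have hu0 : ∀ j, 0 ≤ u j := by
    intro j
    rw [hu]
    dsimp only
    split_ifs
    exacts [ht.le, le_rfl, hr0 j]
  have h1 := H.absorb hv hu'0 hu't B (by
    intro j hj
    rw [hu']
    dsimp only
    rw [if_pos hj]
    have := H.κ1
    nlinarith) C S
  obtain ⟨A1, hA1, hA1c⟩ := Finset.exists_subset_card_eq hcard
  obtain ⟨E, hE⟩ : ∃ E, E = C \ B := ⟨_, rfl⟩
  have hCB : C ∪ B = E ∪ B := by rw [hE, Finset.sdiff_union_self_eq_union]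
  have hEB : Disjoint E B := by rw [hE]; exact Finset.sdiff_disjoint
  refine ⟨E ∪ A1, S, v, hv, h1.trans ?_⟩
  rw [hCB]
  have hc1 : (E ∪ A1).card ≤ (E ∪ B).card := by
    rw [Finset.card_union_of_disjoint hEB, ← hA1c]
    exact Finset.card_union_le _ _
  have hθ : θ (E ∪ B).card ≤ θ (E ∪ A1).card := H.θanti hc1
  have hsum1 : ∑ j ∈ E ∪ B, u' j ≤ ∑ j ∈ E ∪ A1, u j := by
    rw [Finset.sum_union hEB, ← Finset.sum_sdiff (Finset.subset_union_right : A1 ⊆ E ∪ A1)]
    apply add_le_add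
    · have h2 : ∑ j ∈ E, u' j = ∑ j ∈ E \ A, u' j := by
        symm
        apply Finset.sum_subset Finset.sdiff_subset
        intro j hj hj'
        have hjA : j ∈ A := by
          by_contra h3
          exact hj' (Finset.mem_sdiff.mpr ⟨hj, h3⟩)
        rw [hu']
        dsimp only
        rw [if_neg (Finset.disjoint_left.mp hEB hj), if_pos hjA]
      rw [h2]
      have h3 : ∑ j ∈ E \ A, u' j = ∑ j ∈ E \ A, u j := by
        refine Finset.sum_congr rfl fun j hj => ?_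
        obtain ⟨h4, h5⟩ := Finset.mem_sdiff.mp hj
        have h6 := Finset.disjoint_left.mp hEB h4
        rw [hu', hu]
        dsimp only
        rw [if_neg h6, if_neg h5, if_neg h5, if_neg h6]
      rw [h3]
      apply Finset.sum_le_sum_of_subset_of_nonneg
      · intro j hj
        obtain ⟨h4, h5⟩ := Finset.mem_sdiff.mp hj
        exact Finset.mem_sdiff.mpr ⟨Finset.mem_union_left _ h4, fun h6 => h5 (hA1 h6)⟩
      · intro j _ _
        exact hu0 j
    · have h2 : ∑ j ∈ B, u' j = B.card * t := by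
        rw [← nsmul_eq_mul, ← Finset.sum_const]
        refine Finset.sum_congr rfl fun j hj => ?_
        rw [hu']
        dsimp only
        rw [if_pos hj]
      have h3 : ∑ j ∈ A1, u j = A1.card * t := by
        rw [← nsmul_eq_mul, ← Finset.sum_const]
        refine Finset.sum_congr rfl fun j hj => ?_
        rw [hu]
        dsimp only
        rw [if_pos (hA1 hj)]
      rw [h2, h3, hA1c]
  unfold Val
  apply add_le_add
  · have h2 : 0 ≤ ∑ j ∈ E ∪ A1, u j := Finset.sum_nonneg fun j _ => hu0 j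
    calc θ (E ∪ B).card * ∑ j ∈ E ∪ B, u' j ≤ θ (E ∪ B).card * ∑ j ∈ E ∪ A1, u j :=
          mul_le_mul_of_nonneg_left hsum1 (H.θpos _).le
      _ ≤ θ (E ∪ A1).card * ∑ j ∈ E ∪ A1, u j := mul_le_mul_of_nonneg_right hθ h2
  · have h2 : ∑ j ∈ S \ (E ∪ B), c * min (v j) (θ (E ∪ B).card) * u' j =
        ∑ j ∈ (S \ (E ∪ B)) \ A, c * min (v j) (θ (E ∪ B).card) * u' j := by
      symm
      apply Finset.sum_subset Finset.sdiff_subset
      intro j hj hj'
      have hjA : j ∈ A := by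
        by_contra h3
        exact hj' (Finset.mem_sdiff.mpr ⟨hj, h3⟩)
      have hjB : j ∉ B := fun h3 => (Finset.mem_sdiff.mp hj).2 (Finset.mem_union_right _ h3)
      rw [hu']
      dsimp only
      rw [if_neg hjB, if_pos hjA, mul_zero]
    rw [h2]
    have h3 : ∑ j ∈ (S \ (E ∪ B)) \ A, c * min (v j) (θ (E ∪ B).card) * u' j ≤
        ∑ j ∈ (S \ (E ∪ B)) \ A, c * min (v j) (θ (E ∪ A1).card) * u j := by
      refine Finset.sum_le_sum fun j hj => ?_
      obtain ⟨h4, h5⟩ := Finset.mem_sdiff.mp hj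
      have hjB : j ∉ B := fun h6 => (Finset.mem_sdiff.mp h4).2 (Finset.mem_union_right _ h6)
      have e1 : u' j = u j := by
        rw [hu', hu]
        dsimp only
        rw [if_neg hjB, if_neg h5, if_neg h5, if_neg hjB]
      rw [e1]
      exact mul_le_mul_of_nonneg_right (mul_le_mul_of_nonneg_left (min_le_min_left _ hθ) H.c0.le) (hu0 j)
    refine h3.trans ?_
    apply Finset.sum_le_sum_of_subset_of_nonneg
    · intro j hj
      obtain ⟨h4, h5⟩ := Finset.mem_sdiff.mp hj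
      obtain ⟨h6, h7⟩ := Finset.mem_sdiff.mp h4
      rw [Finset.mem_union, not_or] at h7
      refine Finset.mem_sdiff.mpr ⟨h6, ?_⟩
      rw [Finset.mem_union, not_or]
      exact ⟨h7.1, fun h8 => h5 (hA1 h8)⟩
    · intro j _ _
      exact mul_nonneg (H.cmin_nonneg hv _ _) (hu0 j)

/-- the greedy comparison for a transitive relation which contains the pointwise order and the moves -/
lemma greedy_chain {R : (ℕ → ℝ) → (ℕ → ℝ) → Prop} (htr : ∀ u'' u' u, R u'' u' → R u' u → R u'' u)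
    (hmono : ∀ u' u : ℕ → ℝ, (∀ j, 0 ≤ u' j) → (∀ j, u' j ≤ u j) → R u' u) (hmove : Moves R)
    {x y : ℕ → ℝ} (hx : ∀ j, 0 ≤ x j) (hy : ∀ j, 0 ≤ y j) {A B : Finset ℕ}
    (hcard : B.card ≤ A.card) {t : ℝ} (ht : 0 < t) (hA : ∀ j ∈ A, t ≤ x j)
    (hA' : ∀ j, j ∉ A → x j ≤ t) (hxy : ∀ j, j ∉ B → y j = x j) :
    R (fun j => if j ∈ A then 0 else x j) y := by
  classical
  obtain ⟨r, hr⟩ : ∃ r : ℕ → ℝ, r = fun j => if j ∈ A ∪ B then 0 else x j := ⟨_, rfl⟩
  have hr0 : ∀ j, 0 ≤ r j := by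
    intro j
    rw [hr]
    dsimp only
    split_ifs
    exacts [le_rfl, hx j]
  have hrt : ∀ j, r j ≤ t := by
    intro j
    rw [hr]
    dsimp only
    split_ifs with h
    · exact ht.le
    · rw [Finset.mem_union, not_or] at h
      exact hA' j h.1
  have hcard' : (B \ A).card ≤ (A \ B).card := by
    have h1 := Finset.card_sdiff_add_card_inter A B
    have h2 := Finset.card_sdiff_add_card_inter B A
    rw [Finset.inter_comm B A] at h2
    omega
  have hdisj : Disjoint (A \ B) (B \ A) := by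
    rw [Finset.disjoint_left]
    intro j h1 h2
    exact (Finset.mem_sdiff.mp h1).2 (Finset.mem_sdiff.mp h2).1
  have h32 := hmove t (A \ B) (B \ A) r ht hcard' hdisj hr0 hrt
  refine htr _ _ _ (hmono _ _ ?_ ?_) (htr _ _ _ h32 (hmono _ _ ?_ ?_))
  · intro j
    try dsimp only
    split_ifs
    exacts [le_rfl, hx j]
  · intro j
    try dsimp only
    rw [hr]
    dsimp only
    simp only [Finset.mem_sdiff, Finset.mem_union]
    by_cases hjA : j ∈ A <;> by_cases hjB : j ∈ B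
    · simp [hjA, hjB]
    · simp [hjA, hjB]
    · simp [hjA, hjB, hA' j hjA]
    · simp [hjA, hjB]
  · intro j
    try dsimp only
    split_ifs
    exacts [ht.le, le_rfl, hr0 j]
  · intro j
    try dsimp only
    split_ifs with h1 h2
    · obtain ⟨h4, h5⟩ := Finset.mem_sdiff.mp h1
      rw [hxy j h5]
      exact hA j h4
    · exact hy j
    · rw [hr]
      dsimp only
      split_ifs with h3
      · exact hy j
      · rw [Finset.mem_union, not_or] at h3
        rw [hxy j h3.2]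

end Q80.DG
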