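import Pool.Agent.Q80.DG.Core

/-!
A variant of the functionals with general lower weights.
-/

set_option autoImplicit false

namespace Q80.DG

open Finset

/-- The parameters: level weights `θ n`, lower weights `Ψ n v` and a class `V` of nonnegative weights. -/
structure Par2 (θ : ℕ → ℝ) (Ψ : ℕ → ℝ → ℝ) (V : Set (ℕ → ℝ)) : Prop where
  θpos : ∀ n, 0 < θ n
  θanti : Antitone θ
  vne : V.Nonempty
  Ψnn : ∀ n, ∀ v ∈ V, ∀ j, 0 ≤ Ψ n (v j)
  Ψanti : ∀ m n, m ≤ n → ∀ v ∈ V, ∀ j, Ψ n (v j) ≤ Ψ m (v j)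
  key : ∀ n : ℕ, ∀ v ∈ V, ∀ (i : ℕ) (D : Finset ℕ),
    n * (θ n - θ (n + 1)) + Ψ n (v i) + ∑ j ∈ D, (Ψ n (v j) - Ψ (n + 1) (v j)) ≤ θ (n + 1)

/-- the value of a configuration -/
noncomputable def Val2 (θ : ℕ → ℝ) (Ψ : ℕ → ℝ → ℝ) (B S : Finset ℕ) (v u : ℕ → ℝ) : ℝ :=
  θ B.card * ∑ j ∈ B, u j + ∑ j ∈ S \ B, Ψ B.card (v j) * u j

variable {θ : ℕ → ℝ} {Ψ : ℕ → ℝ → ℝ} {V : Set (ℕ → ℝ)}

lemma Par2.Val_nonneg (H : Par2 θ Ψ V) {v : ℕ → ℝ} (hv : v ∈ V) (B S : Finset ℕ) {u : ℕ → ℝ} (hu : ∀ j, 0 ≤ u j) :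
    0 ≤ Val2 θ Ψ B S v u := by
  unfold Val2
  apply add_nonneg
  · exact mul_nonneg (H.θpos _).le (Finset.sum_nonneg fun j _ => hu j)
  · exact Finset.sum_nonneg fun j _ => mul_nonneg (H.Ψnn _ v hv j) (hu j)

lemma Par2.Val_mono (H : Par2 θ Ψ V) {v : ℕ → ℝ} (hv : v ∈ V) (B S : Finset ℕ) {u u' : ℕ → ℝ} (h : ∀ j, u' j ≤ u j) :
    Val2 θ Ψ B S v u' ≤ Val2 θ Ψ B S v u := by
  unfold Val2
  apply add_le_add
  · exact mul_le_mul_of_nonneg_left (Finset.sum_le_sum fun j _ => h j) (H.θpos _).le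
  · exact Finset.sum_le_sum fun j _ => mul_le_mul_of_nonneg_left (h j) (H.Ψnn _ v hv j)

/-- a largest coordinate can be added to the top set of a configuration -/
lemma Par2.absorb1 (H : Par2 θ Ψ V) {v : ℕ → ℝ} (hv : v ∈ V) {u : ℕ → ℝ} {t : ℝ} (h0 : ∀ j, 0 ≤ u j)
    (ht : ∀ j, u j ≤ t) {i : ℕ} (hi : u i = t) (B S : Finset ℕ) (hB : i ∉ B) :
    Val2 θ Ψ B S v u ≤ Val2 θ Ψ (insert i B) S v u := by
  classical
  obtain ⟨n, hn⟩ : ∃ n, n = B.card := ⟨_, rfl⟩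
  have hcard : (insert i B).card = n + 1 := by rw [Finset.card_insert_of_notMem hB, hn]
  unfold Val2
  rw [hcard, ← hn, Finset.sum_insert hB]
  obtain ⟨R, hR⟩ : ∃ R, R = S \ insert i B := ⟨_, rfl⟩
  have ht0 : 0 ≤ t := (h0 0).trans (ht 0)
  have hδ : 0 ≤ θ n - θ (n + 1) := sub_nonneg.mpr (H.θanti (Nat.le_succ n))
  have h1 : ∑ j ∈ S \ B, Ψ n (v j) * u j ≤ Ψ n (v i) * t + ∑ j ∈ R, Ψ n (v j) * u j := by
    have hi' : i ∉ R := by
      rw [hR, Finset.mem_sdiff]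
      intro h
      exact h.2 (Finset.mem_insert_self _ _)
    have h2 : ∑ j ∈ S \ B, Ψ n (v j) * u j ≤ ∑ j ∈ insert i R, Ψ n (v j) * u j := by
      apply Finset.sum_le_sum_of_subset_of_nonneg
      · intro j hj
        obtain ⟨h3, h4⟩ := Finset.mem_sdiff.mp hj
        rw [Finset.mem_insert, hR, Finset.mem_sdiff, Finset.mem_insert]
        by_cases h5 : j = i
        · exact Or.inl h5
        · exact Or.inr ⟨h3, fun h6 => h6.elim h5 h4⟩
      · intro j _ _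
        exact mul_nonneg (H.Ψnn _ v hv j) (h0 j)
    rw [Finset.sum_insert hi', hi] at h2
    exact h2
  have h2 : ∑ j ∈ R, Ψ n (v j) * u j ≤ ∑ j ∈ R, Ψ (n + 1) (v j) * u j + t * ∑ j ∈ R, (Ψ n (v j) - Ψ (n + 1) (v j)) := by
    rw [Finset.mul_sum, ← Finset.sum_add_distrib]
    refine Finset.sum_le_sum fun j _ => ?_
    have h3 := H.Ψanti n (n + 1) (Nat.le_succ n) v hv j
    have h4 : (Ψ n (v j) - Ψ (n + 1) (v j)) * u j ≤ (Ψ n (v j) - Ψ (n + 1) (v j)) * t :=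
      mul_le_mul_of_nonneg_left (ht j) (by linarith)
    linarith
  have h3 : ∑ j ∈ B, u j ≤ n * t := by
    calc ∑ j ∈ B, u j ≤ ∑ _j ∈ B, t := Finset.sum_le_sum fun j _ => ht j
      _ = n * t := by rw [Finset.sum_const, nsmul_eq_mul, hn]
  have hkey := H.key n v hv i R
  have h4 : (θ n - θ (n + 1)) * ∑ j ∈ B, u j ≤ (θ n - θ (n + 1)) * (n * t) := mul_le_mul_of_nonneg_left h3 hδ
  have h5 := mul_le_mul_of_nonneg_left hkey ht0
  rw [← hR, hi]
  linarith [h1, h2, h4, h5]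

lemma Par2.absorb (H : Par2 θ Ψ V) {v : ℕ → ℝ} (hv : v ∈ V) {u : ℕ → ℝ} {t : ℝ} (h0 : ∀ j, 0 ≤ u j)
    (ht : ∀ j, u j ≤ t) (T : Finset ℕ) (hT : ∀ j ∈ T, u j = t) (B S : Finset ℕ) :
    Val2 θ Ψ B S v u ≤ Val2 θ Ψ (B ∪ T) S v u := by
  classical
  induction T using Finset.induction_on with
  | empty => rw [Finset.union_empty]
  | insert i T hi ih =>
    have h1 := ih fun j hj => hT j (Finset.mem_insert_of_mem hj)
    refine h1.trans ?_
    rw [Finset.union_insert]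
    by_cases h2 : i ∈ B ∪ T
    · rw [Finset.insert_eq_of_mem h2]
    · exact H.absorb1 hv h0 ht (hT i (Finset.mem_insert_self _ _)) _ S h2

/-- domination -/
def Dom2 (θ : ℕ → ℝ) (Ψ : ℕ → ℝ → ℝ) (V : Set (ℕ → ℝ)) (u' u : ℕ → ℝ) : Prop :=
  ∀ B S : Finset ℕ, ∀ v ∈ V, ∃ B' S' : Finset ℕ, ∃ v' ∈ V, Val2 θ Ψ B S v u' ≤ Val2 θ Ψ B' S' v' u

lemma Dom2.trans {u'' u' u : ℕ → ℝ} (h : Dom2 θ Ψ V u'' u') (h' : Dom2 θ Ψ V u' u) : Dom2 θ Ψ V u'' u := by
  intro B S v hv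
  obtain ⟨B', S', v', hv', h1⟩ := h B S v hv
  obtain ⟨B'', S'', v'', hv'', h2⟩ := h' B' S' v' hv'
  exact ⟨B'', S'', v'', hv'', h1.trans h2⟩

lemma Par2.dom_mono (H : Par2 θ Ψ V) {u' u : ℕ → ℝ} (h : ∀ j, u' j ≤ u j) : Dom2 θ Ψ V u' u :=
  fun B S v hv => ⟨B, S, v, hv, H.Val_mono hv B S h⟩

lemma Par2.moves (H : Par2 θ Ψ V) : Moves (Dom2 θ Ψ V) := by
  classical
  intro t A B r ht hcard hdisj hr0 hrt C S v hv
  obtain ⟨u', hu'⟩ : ∃ u' : ℕ → ℝ, u' = fun j => if j ∈ B then t else if j ∈ A then 0 else r j := ⟨_, rfl⟩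
  obtain ⟨u, hu⟩ : ∃ u : ℕ → ℝ, u = fun j => if j ∈ A then t else if j ∈ B then 0 else r j := ⟨_, rfl⟩
  rw [← hu', ← hu]
  have hu'0 : ∀ j, 0 ≤ u' j := by
    intro j
    rw [hu']
    dsimp only
    split_ifs
    exacts [ht.le, le_rfl, hr0 j]
  have hu't : ∀ j, u' j ≤ t := by
    intro j
    rw [hu']
    dsimp only
    split_ifs
    exacts [le_rfl, ht.le, hrt j]
  have hu0 : ∀ j, 0 ≤ u j := by
    intro j
    rw [hu]
    dsimp only
    split_ifs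
    exacts [ht.le, le_rfl, hr0 j]
  have h1 := H.absorb hv hu'0 hu't B (by
    intro j hj
    rw [hu']
    dsimp only
    rw [if_pos hj]) C S
  obtain ⟨A1, hA1, hA1c⟩ := Finset.exists_subset_card_eq hcard
  obtain ⟨E, hE⟩ : ∃ E, E = C \ B := ⟨_, rfl⟩
  have hCB : C ∪ B = E ∪ B := by rw [hE, Finset.sdiff_union_self_eq_union]
  have hEB : Disjoint E B := by rw [hE]; exact Finset.sdiff_disjoint
  refine ⟨E ∪ A1, S, v, hv, h1.trans ?_⟩
  rw [hCB]
  have hc1 : (E ∪ A1).card ≤ (E ∪ B).card := by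
    rw [Finset.card_union_of_disjoint hEB, ← hA1c]
    exact Finset.card_union_le _ _
  have hθ : θ (E ∪ B).card ≤ θ (E ∪ A1).card := H.θanti hc1
  have hsum1 : ∑ j ∈ E ∪ B, u' j ≤ ∑ j ∈ E ∪ A1, u j := by
    rw [Finset.sum_union hEB, ← Finset.sum_sdiff (Finset.subset_union_right : A1 ⊆ E ∪ A1)]
    apply add_le_add
    · have h2 : ∑ j ∈ E, u' j = ∑ j ∈ E \ A, u' j := by
        symm
        apply Finset.sum_subset Finset.sdiff_subset
        intro j hj hj'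
        have hjA : j ∈ A := by
          by_contra h3
          exact hj' (Finset.mem_sdiff.mpr ⟨hj, h3⟩)
        rw [hu']
        dsimp only
        rw [if_neg (Finset.disjoint_left.mp hEB hj), if_pos hjA]
      rw [h2]
      have h3 : ∑ j ∈ E \ A, u' j = ∑ j ∈ E \ A, u j := by
        refine Finset.sum_congr rfl fun j hj => ?_
        obtain ⟨h4, h5⟩ := Finset.mem_sdiff.mp hj
        have h6 := Finset.disjoint_left.mp hEB h4
        rw [hu', hu]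
        dsimp only
        rw [if_neg h6, if_neg h5, if_neg h5, if_neg h6]
      rw [h3]
      apply Finset.sum_le_sum_of_subset_of_nonneg
      · intro j hj
        obtain ⟨h4, h5⟩ := Finset.mem_sdiff.mp hj
        exact Finset.mem_sdiff.mpr ⟨Finset.mem_union_left _ h4, fun h6 => h5 (hA1 h6)⟩
      · intro j _ _
        exact hu0 j
    · have h2 : ∑ j ∈ B, u' j = B.card * t := by
        rw [← nsmul_eq_mul, ← Finset.sum_const]
        refine Finset.sum_congr rfl fun j hj => ?_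
        rw [hu']
        dsimp only
        rw [if_pos hj]
      have h3 : ∑ j ∈ A1, u j = A1.card * t := by
        rw [← nsmul_eq_mul, ← Finset.sum_const]
        refine Finset.sum_congr rfl fun j hj => ?_
        rw [hu]
        dsimp only
        rw [if_pos (hA1 hj)]
      rw [h2, h3, hA1c]
  unfold Val2
  apply add_le_add
  · have h2 : 0 ≤ ∑ j ∈ E ∪ A1, u j := Finset.sum_nonneg fun j _ => hu0 j
    calc θ (E ∪ B).card * ∑ j ∈ E ∪ B, u' j ≤ θ (E ∪ B).card * ∑ j ∈ E ∪ A1, u j :=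
          mul_le_mul_of_nonneg_left hsum1 (H.θpos _).le
      _ ≤ θ (E ∪ A1).card * ∑ j ∈ E ∪ A1, u j := mul_le_mul_of_nonneg_right hθ h2
  · have h2 : ∑ j ∈ S \ (E ∪ B), Ψ (E ∪ B).card (v j) * u' j =
        ∑ j ∈ (S \ (E ∪ B)) \ A, Ψ (E ∪ B).card (v j) * u' j := by
      symm
      apply Finset.sum_subset Finset.sdiff_subset
      intro j hj hj'
      have hjA : j ∈ A := by
        by_contra h3
        exact hj' (Finset.mem_sdiff.mpr ⟨hj, h3⟩)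
      have hjB : j ∉ B := fun h3 => (Finset.mem_sdiff.mp hj).2 (Finset.mem_union_right _ h3)
      rw [hu']
      dsimp only
      rw [if_neg hjB, if_pos hjA, mul_zero]
    rw [h2]
    have h3 : ∑ j ∈ (S \ (E ∪ B)) \ A, Ψ (E ∪ B).card (v j) * u' j ≤
        ∑ j ∈ (S \ (E ∪ B)) \ A, Ψ (E ∪ A1).card (v j) * u j := by
      refine Finset.sum_le_sum fun j hj => ?_
      obtain ⟨h4, h5⟩ := Finset.mem_sdiff.mp hj
      have hjB : j ∉ B := fun h6 => (Finset.mem_sdiff.mp h4).2 (Finset.mem_union_right _ h6)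
      have e1 : u' j = u j := by
        rw [hu', hu]
        dsimp only
        rw [if_neg hjB, if_neg h5, if_neg h5, if_neg hjB]
      rw [e1]
      exact mul_le_mul_of_nonneg_right (H.Ψanti _ _ hc1 v hv j) (hu0 j)
    refine h3.trans ?_
    apply Finset.sum_le_sum_of_subset_of_nonneg
    · intro j hj
      obtain ⟨h4, h5⟩ := Finset.mem_sdiff.mp hj
      obtain ⟨h6, h7⟩ := Finset.mem_sdiff.mp h4
      rw [Finset.mem_union, not_or] at h7
      refine Finset.mem_sdiff.mpr ⟨h6, ?_⟩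
      rw [Finset.mem_union, not_or]
      exact ⟨h7.1, fun h8 => h5 (hA1 h8)⟩
    · intro j _ _
      exact mul_nonneg (H.Ψnn _ v hv j) (hu0 j)

end Q80.DG
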