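import Pool.Agent.Q80.DG.Core

/-!
The dual functional: flattening of the norming vectors, and moves.
-/

set_option autoImplicit false

namespace Q80.DG

open Finset

variable {θ : ℕ → ℝ} {V : Set (ℕ → ℝ)} {c κ : ℝ}

/-- the vectors with all values at most `1` -/
def Feas (θ : ℕ → ℝ) (V : Set (ℕ → ℝ)) (c : ℝ) (x : ℕ → ℝ) : Prop :=
  ∀ B S : Finset ℕ, ∀ v ∈ V, Val θ c B S v x ≤ 1

lemma Dom.feas {x y : ℕ → ℝ} (h : Dom θ V c x y) (hy : Feas θ V c y) : Feas θ V c x := by
  intro B S v hv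
  obtain ⟨B', S', v', hv', h1⟩ := h B S v hv
  exact h1.trans (hy B' S' v' hv')

lemma Par.feas_le_one (H : Par θ V c κ) {x : ℕ → ℝ} (hx : Feas θ V c x) (j : ℕ) : x j ≤ 1 := by
  obtain ⟨v, hv⟩ := H.vne
  have h1 := hx {j} ∅ v hv
  unfold Val at h1
  rw [Finset.card_singleton, H.θone, Finset.sum_singleton, Finset.empty_sdiff, Finset.sum_empty, one_mul,
    add_zero] at h1
  exact h1

/-- the transfer of a bit of mass from a top coordinate `j` to a lower coordinate `i` keeps the vector feasible -/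
lemma Par.feas_transfer (H : Par θ V c κ) {y : ℕ → ℝ} (hy0 : ∀ k, 0 ≤ y k) (hy : Feas θ V c y) {i j : ℕ}
    (hj : ∀ k, y k ≤ y j) {ε : ℝ} (hε : 0 < ε) (hε1 : y i + ε ≤ y j - ε) (hε2 : κ * y j ≤ y j - ε) :
    Feas θ V c (fun k => y k + ε * ((if k = i then 1 else 0) - (if k = j then 1 else 0))) := by
  classical
  obtain ⟨z, hz⟩ : ∃ z : ℕ → ℝ, z = fun k => y k + ε * ((if k = i then 1 else 0) - (if k = j then 1 else 0)) :=
    ⟨_, rfl⟩
  rw [← hz]
  have hij : i ≠ j := by
    rintro rfl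
    linarith
  have hzi : z i = y i + ε := by
    rw [hz]
    dsimp only
    rw [if_pos rfl, if_neg hij]
    ring
  have hzj : z j = y j - ε := by
    rw [hz]
    dsimp only
    rw [if_neg hij.symm, if_pos rfl]
    ring
  have hzk : ∀ k, k ≠ i → k ≠ j → z k = y k := by
    intro k h1 h2
    rw [hz]
    dsimp only
    rw [if_neg h1, if_neg h2]
    ring
  have hz0 : ∀ k, 0 ≤ z k := by
    intro k
    by_cases h1 : k = i
    · rw [h1, hzi]
      have := hy0 i
      linarith
    · by_cases h2 : k = j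
      · rw [h2, hzj]
        have := hy0 i
        linarith
      · rw [hzk k h1 h2]
        exact hy0 k
  have hzt : ∀ k, z k ≤ y j := by
    intro k
    by_cases h1 : k = i
    · rw [h1, hzi]
      linarith
    · by_cases h2 : k = j
      · rw [h2, hzj]
        linarith
      · rw [hzk k h1 h2]
        exact hj k
  intro B S v hv
  have h1 := H.absorb hv hz0 hzt {j} (by
    intro k hk
    rw [Finset.mem_singleton] at hk
    rw [hk, hzj]
    exact hε2) B S
  refine h1.trans (le_trans ?_ (hy (B ∪ {j}) S v hv))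
  obtain ⟨F, hF⟩ : ∃ F : Finset ℕ, F = (B ∪ {j}) ∪ S ∪ {i, j} := ⟨_, rfl⟩
  have hFs : (B ∪ {j}) ∪ S ⊆ F := by rw [hF]; exact Finset.subset_union_left
  have hiF : i ∈ F := by rw [hF]; simp
  have hjF : j ∈ F := by rw [hF]; simp
  rw [Val_eq _ _ F v z hFs, Val_eq _ _ F v y hFs]
  obtain ⟨w, hw⟩ : ∃ w : ℕ → ℝ, w = W θ c (B ∪ {j}) S v := ⟨_, rfl⟩
  rw [← hw]
  have e1 : ∑ k ∈ F, w k * z k = ∑ k ∈ F, w k * y k + ε * (w i - w j) := by
    have e2 : ∀ k ∈ F, w k * z k = w k * y k + (ε * (if k = i then w k else 0) - ε * (if k = j then w k else 0)) := by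
      intro k _
      rw [hz]
      dsimp only
      split_ifs <;> ring
    rw [Finset.sum_congr rfl e2, Finset.sum_add_distrib, Finset.sum_sub_distrib, ← Finset.mul_sum, ← Finset.mul_sum,
      Finset.sum_ite_eq', Finset.sum_ite_eq', if_pos hiF, if_pos hjF]
    ring
  rw [e1]
  have h2 : w i ≤ w j := by
    have h3 := H.W_le hv (B ∪ {j}) S i
    have h4 : w j = θ (B ∪ {j}).card := by
      rw [hw]
      unfold W
      rw [if_pos (by simp)]
    rw [h4, hw]
    exact h3
  have h3 : ε * (w i - w j) ≤ 0 := mul_nonpos_of_nonneg_of_nonpos hε.le (by linarith)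
  linarith

/-- **Flattening.** Among the feasible vectors on `S` which are as good for `w` as `x`, there is one whose largest
coordinates include all of `A`, provided `w` is largest on `A`. -/
lemma Par.flatten (H : Par θ V c κ) {w : ℕ → ℝ} {S A : Finset ℕ} (hA : A ⊆ S) (hw : ∀ i ∈ A, ∀ j ∈ S, w j ≤ w i)
    {x : ℕ → ℝ} (hx0 : ∀ j, 0 ≤ x j) (hxS : ∀ j, j ∉ S → x j = 0) (hx : Feas θ V c x) :
    ∃ y : ℕ → ℝ, (∀ j, 0 ≤ y j) ∧ (∀ j, j ∉ S → y j = 0) ∧ Feas θ V c y ∧ ∑ j ∈ S, w j * x j ≤ ∑ j ∈ S, w j * y j ∧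
      ∀ i ∈ A, ∀ j, y j ≤ y i := by
  classical
  obtain ⟨M, hM⟩ : ∃ M, M = ∑ j ∈ S, w j * x j := ⟨_, rfl⟩
  obtain ⟨K, hK⟩ : ∃ K : Set (ℕ → ℝ), K = Set.pi Set.univ (fun j => Set.Icc (0:ℝ) (if j ∈ S then 1 else 0)) := ⟨_, rfl⟩
  have hKc : IsCompact K := by
    rw [hK]
    exact isCompact_univ_pi fun j => isCompact_Icc
  obtain ⟨G, hG⟩ : ∃ G : Set (ℕ → ℝ), G = K ∩ ({y | Feas θ V c y} ∩ {y | M ≤ ∑ j ∈ S, w j * y j}) := ⟨_, rfl⟩
  have hcl1 : IsClosed {y : ℕ → ℝ | Feas θ V c y} := by
    have h1 : {y : ℕ → ℝ | Feas θ V c y} = ⋂ (B : Finset ℕ) (S : Finset ℕ) (v : ℕ → ℝ) (_ : v ∈ V),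
        {y | Val θ c B S v y ≤ 1} := by
      ext y
      simp only [Set.mem_iInter]
      rfl
    rw [h1]
    refine isClosed_iInter fun B => isClosed_iInter fun S => isClosed_iInter fun v => isClosed_iInter fun _ => ?_
    apply isClosed_le _ continuous_const
    unfold Val
    apply Continuous.add
    · exact continuous_const.mul (continuous_finsetSum _ fun j _ => continuous_apply j)
    · exact continuous_finsetSum _ fun j _ => continuous_const.mul (continuous_apply j)
  have hcl2 : IsClosed {y : ℕ → ℝ | M ≤ ∑ j ∈ S, w j * y j} :=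
    isClosed_le continuous_const (continuous_finsetSum _ fun j _ => continuous_const.mul (continuous_apply j))
  have hGc : IsCompact G := by
    rw [hG]
    exact hKc.inter_right (hcl1.inter hcl2)
  have hmemK : ∀ y : ℕ → ℝ, (∀ j, 0 ≤ y j) → (∀ j, j ∉ S → y j = 0) → Feas θ V c y → y ∈ K := by
    intro y h1 h2 h3
    rw [hK, Set.mem_univ_pi]
    intro j
    refine ⟨h1 j, ?_⟩
    split_ifs with h4
    · exact H.feas_le_one h3 j
    · exact (h2 j h4).le
  have hxG : x ∈ G := by
    rw [hG]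
    exact ⟨hmemK x hx0 hxS hx, hx, le_of_eq hM⟩
  have hcont : ContinuousOn (fun y : ℕ → ℝ => ∑ j ∈ S, y j ^ 2) G :=
    (continuous_finsetSum _ fun j _ => (continuous_apply j).pow 2).continuousOn
  obtain ⟨y, hyG, hmin⟩ := hGc.exists_isMinOn ⟨x, hxG⟩ hcont
  rw [hG] at hyG
  obtain ⟨hyK, hyF, hyM⟩ := hyG
  have hy0 : ∀ j, 0 ≤ y j := by
    intro j
    rw [hK, Set.mem_univ_pi] at hyK
    exact (hyK j).1
  have hyS : ∀ j, j ∉ S → y j = 0 := by
    intro j hj
    rw [hK, Set.mem_univ_pi] at hyK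
    have h1 := (hyK j).2
    rw [if_neg hj] at h1
    exact le_antisymm h1 (hy0 j)
  refine ⟨y, hy0, hyS, hyF, ?_, ?_⟩
  · rw [← hM]
    exact hyM
  · by_contra hcon
    simp only [not_forall, not_le, exists_prop] at hcon
    obtain ⟨i, hi, j1, hj1⟩ := hcon
    have hiS : i ∈ S := hA hi
    obtain ⟨j, hjS, hjmax⟩ := S.exists_max_image y ⟨i, hiS⟩
    have hmax : ∀ k, y k ≤ y j := by
      intro k
      by_cases h : k ∈ S
      · exact hjmax k h
      · rw [hyS k h]
        exact hy0 j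
    have hlt : y i < y j := hj1.trans_le (hmax j1)
    have hyj : 0 < y j := (hy0 i).trans_lt hlt
    have hij : i ≠ j := by
      rintro rfl
      exact lt_irrefl _ hlt
    obtain ⟨ε, hε⟩ : ∃ ε, ε = min ((1 - κ) * y j) ((y j - y i) / 2) := ⟨_, rfl⟩
    have hκ := H.κ1
    have hε0 : 0 < ε := by
      rw [hε]
      apply lt_min
      · exact mul_pos (by linarith) hyj
      · linarith
    have hε1 : ε ≤ (1 - κ) * y j := by rw [hε]; exact min_le_left _ _
    have hε2 : ε ≤ (y j - y i) / 2 := by rw [hε]; exact min_le_right _ _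
    have hfe := H.feas_transfer hy0 hyF (i := i) hmax hε0 (by linarith) (by linarith)
    obtain ⟨z, hz⟩ : ∃ z : ℕ → ℝ, z = fun k => y k + ε * ((if k = i then 1 else 0) - (if k = j then 1 else 0)) :=
      ⟨_, rfl⟩
    rw [← hz] at hfe
    have hz0 : ∀ k, 0 ≤ z k := by
      intro k
      rw [hz]
      dsimp only
      have := hy0 k
      by_cases h2 : k = j
      · rw [if_pos h2, if_neg (fun h3 => hij (h3.symm.trans h2)), h2]
        have := hy0 i
        linarith
      · rw [if_neg h2]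
        have h3 : (0:ℝ) ≤ (if k = i then 1 else 0) := by split_ifs <;> norm_num
        have := mul_nonneg hε0.le h3
        linarith
    have hzS : ∀ k, k ∉ S → z k = 0 := by
      intro k hk
      rw [hz]
      dsimp only
      rw [hyS k hk, if_neg (fun h => hk (by rw [h]; exact hiS)), if_neg (fun h => hk (by rw [h]; exact hjS))]
      ring
    have hzM : M ≤ ∑ k ∈ S, w k * z k := by
      have e1 : ∑ k ∈ S, w k * z k = ∑ k ∈ S, w k * y k + ε * (w i - w j) := by
        have e2 : ∀ k ∈ S, w k * z k =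
            w k * y k + (ε * (if k = i then w k else 0) - ε * (if k = j then w k else 0)) := by
          intro k _
          rw [hz]
          dsimp only
          split_ifs <;> ring
        rw [Finset.sum_congr rfl e2, Finset.sum_add_distrib, Finset.sum_sub_distrib, ← Finset.mul_sum,
          ← Finset.mul_sum, Finset.sum_ite_eq', Finset.sum_ite_eq', if_pos hiS, if_pos hjS]
        ring
      rw [e1]
      have h1 := hw i hi j hjS
      have h2 : 0 ≤ ε * (w i - w j) := mul_nonneg hε0.le (by linarith)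
      have h3 : M ≤ ∑ k ∈ S, w k * y k := hyM
      linarith
    have hzG : z ∈ G := by
      rw [hG]
      exact ⟨hmemK z hz0 hzS hfe, hfe, hzM⟩
    have h1 : ∑ k ∈ S, y k ^ 2 ≤ ∑ k ∈ S, z k ^ 2 := hmin hzG
    have e1 : ∑ k ∈ S, z k ^ 2 = ∑ k ∈ S, y k ^ 2 + (2 * ε * y i + ε ^ 2 - 2 * ε * y j + ε ^ 2) := by
      have e2 : ∀ k ∈ S, z k ^ 2 = y k ^ 2 + ((if k = i then 2 * ε * y k + ε ^ 2 else 0) +
          (if k = j then - 2 * ε * y k + ε ^ 2 else 0)) := by
        intro k _
        rw [hz]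
        dsimp only
        by_cases h2 : k = i
        · have h3 : k ≠ j := fun h4 => hij (h2.symm.trans h4)
          rw [if_pos h2, if_neg h3, if_pos h2, if_neg h3]
          ring
        · by_cases h3 : k = j
          · rw [if_neg h2, if_pos h3, if_neg h2, if_pos h3]
            ring
          · rw [if_neg h2, if_neg h3, if_neg h2, if_neg h3]
            ring
      rw [Finset.sum_congr rfl e2, Finset.sum_add_distrib, Finset.sum_add_distrib, Finset.sum_ite_eq',
        Finset.sum_ite_eq', if_pos hiS, if_pos hjS]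
      ring
    rw [e1] at h1
    have h2 : ε * (y i + ε - y j) < 0 := mul_neg_of_pos_of_neg hε0 (by linarith)
    nlinarith

/-- domination for the dual functional -/
def DDom (θ : ℕ → ℝ) (V : Set (ℕ → ℝ)) (c : ℝ) (w' w : ℕ → ℝ) : Prop :=
  ∀ (S : Finset ℕ) (x : ℕ → ℝ), (∀ j, 0 ≤ x j) → (∀ j, j ∉ S → x j = 0) → Feas θ V c x →
    ∃ (S' : Finset ℕ) (y : ℕ → ℝ), (∀ j, 0 ≤ y j) ∧ (∀ j, j ∉ S' → y j = 0) ∧ Feas θ V c y ∧
      ∑ j ∈ S, w' j * x j ≤ ∑ j ∈ S', w j * y j

lemma DDom.trans {w'' w' w : ℕ → ℝ} (h : DDom θ V c w'' w') (h' : DDom θ V c w' w) : DDom θ V c w'' w := by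
  intro S x h1 h2 h3
  obtain ⟨S', y, g1, g2, g3, g4⟩ := h S x h1 h2 h3
  obtain ⟨S'', z, k1, k2, k3, k4⟩ := h' S' y g1 g2 g3
  exact ⟨S'', z, k1, k2, k3, g4.trans k4⟩

lemma ddom_mono {w' w : ℕ → ℝ} (h : ∀ j, w' j ≤ w j) : DDom θ V c w' w :=
  fun S x h1 h2 h3 => ⟨S, x, h1, h2, h3, Finset.sum_le_sum fun j _ => mul_le_mul_of_nonneg_right (h j) (h1 j)⟩

lemma Par.dmoves (H : Par θ V c κ) : Moves (DDom θ V c) := by
  classical
  intro t A B r ht hcard hdisj hr0 hrt S0 x hx0 hxS hx
  obtain ⟨w', hw'⟩ : ∃ w' : ℕ → ℝ, w' = fun j => if j ∈ B then t else if j ∈ A then 0 else r j := ⟨_, rfl⟩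
  obtain ⟨w, hw⟩ : ∃ w : ℕ → ℝ, w = fun j => if j ∈ A then t else if j ∈ B then 0 else r j := ⟨_, rfl⟩
  rw [← hw', ← hw]
  obtain ⟨S, hS⟩ : ∃ S : Finset ℕ, S = (S0 ∪ B) \ A := ⟨_, rfl⟩
  have hBS : B ⊆ S := by
    intro j hj
    rw [hS, Finset.mem_sdiff]
    exact ⟨Finset.mem_union_right _ hj, Finset.disjoint_right.mp hdisj hj⟩
  have hSA : ∀ j ∈ S, j ∉ A := by
    intro j hj
    rw [hS, Finset.mem_sdiff] at hj
    exact hj.2
  obtain ⟨x1, hx1⟩ : ∃ x1 : ℕ → ℝ, x1 = fun j => if j ∈ A then 0 else x j := ⟨_, rfl⟩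
  have hx10 : ∀ j, 0 ≤ x1 j := by
    intro j
    rw [hx1]
    dsimp only
    split_ifs
    exacts [le_rfl, hx0 j]
  have hx1x : ∀ j, x1 j ≤ x j := by
    intro j
    rw [hx1]
    dsimp only
    split_ifs
    exacts [hx0 j, le_rfl]
  have hx1F : Feas θ V c x1 := (H.dom_mono hx1x).feas hx
  have hx1S : ∀ j, j ∉ S → x1 j = 0 := by
    intro j hj
    rw [hS, Finset.mem_sdiff, not_and_or, not_not, Finset.mem_union, not_or] at hj
    rw [hx1]
    dsimp only
    rcases hj with h | h
    · split_ifs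
      · rfl
      · exact hxS j h.1
    · rw [if_pos h]
  have hsum0 : ∑ j ∈ S0, w' j * x j ≤ ∑ j ∈ S, w' j * x1 j := by
    have h1 : ∑ j ∈ S0, w' j * x j = ∑ j ∈ S0 ∪ B ∪ A, w' j * x1 j := by
      have h2 : ∑ j ∈ S0, w' j * x j = ∑ j ∈ S0 ∪ B ∪ A, w' j * x j := by
        apply Finset.sum_subset
        · rw [Finset.union_assoc]
          exact Finset.subset_union_left
        · intro j _ hj
          rw [hxS j hj, mul_zero]
      rw [h2]
      refine Finset.sum_congr rfl fun j _ => ?_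
      by_cases hA : j ∈ A
      · have h3 : w' j = 0 := by
          rw [hw']
          dsimp only
          rw [if_neg (Finset.disjoint_left.mp hdisj hA), if_pos hA]
        rw [h3, zero_mul, zero_mul]
      · rw [hx1]
        dsimp only
        rw [if_neg hA]
    rw [h1]
    apply le_of_eq
    symm
    apply Finset.sum_subset
    · rw [hS]
      exact Finset.sdiff_subset.trans Finset.subset_union_left
    · intro j _ hj
      rw [hx1S j hj, mul_zero]
  have hww : ∀ i ∈ B, ∀ j ∈ S, w' j ≤ w' i := by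
    intro i hi j _
    rw [hw']
    dsimp only
    rw [if_pos hi]
    split_ifs
    exacts [le_rfl, ht.le, hrt j]
  obtain ⟨y, hy0, hyS, hyF, hyx, hytop⟩ := H.flatten hBS hww hx10 hx1S hx1F
  rcases Finset.eq_empty_or_nonempty B with hB | ⟨i0, hi0⟩
  · refine ⟨S, y, hy0, hyS, hyF, (hsum0.trans hyx).trans (Finset.sum_le_sum fun j hj => ?_)⟩
    apply mul_le_mul_of_nonneg_right _ (hy0 j)
    have h1 := hSA j hj
    rw [hw', hw]
    dsimp only
    rw [hB, if_neg (Finset.notMem_empty j), if_neg h1, if_neg h1, if_neg (Finset.notMem_empty j)]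
  · obtain ⟨t1, ht1⟩ : ∃ t1, t1 = y i0 := ⟨_, rfl⟩
    have hyB : ∀ j ∈ B, y j = t1 := by
      intro j hj
      rw [ht1]
      exact le_antisymm (hytop i0 hi0 j) (hytop j hj i0)
    have hyt : ∀ j, y j ≤ t1 := by
      intro j
      rw [ht1]
      exact hytop i0 hi0 j
    have ht10 : 0 ≤ t1 := by rw [ht1]; exact hy0 i0
    obtain ⟨A1, hA1, hA1c⟩ := Finset.exists_subset_card_eq hcard
    have hA1B : Disjoint A1 B := Finset.disjoint_of_subset_left hA1 hdisj
    have hyA : ∀ j ∈ A, y j = 0 := fun j hj => hyS j fun h => hSA j h hj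
    obtain ⟨z, hz⟩ : ∃ z : ℕ → ℝ, z = fun j => if j ∈ A1 then t1 else if j ∈ B then 0 else y j := ⟨_, rfl⟩
    have hz0 : ∀ j, 0 ≤ z j := by
      intro j
      rw [hz]
      dsimp only
      split_ifs
      exacts [ht10, le_rfl, hy0 j]
    have hzF : Feas θ V c z := by
      rcases eq_or_lt_of_le ht10 with h0 | h0
      · refine (H.dom_mono (u' := z) (u := y) ?_).feas hyF
        intro j
        rw [hz]
        dsimp only
        split_ifs with h1 h2
        · rw [← h0]
          exact hy0 j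
        · exact hy0 j
        · exact le_rfl
      · have h1 := H.moves t1 B A1 y h0 hA1c.le hA1B.symm hy0 hyt
        have h2 : (fun j => if j ∈ B then t1 else if j ∈ A1 then 0 else y j) = y := by
          funext j
          split_ifs with h3 h4
          · exact (hyB j h3).symm
          · exact (hyA j (hA1 h4)).symm
          · rfl
        rw [h2, ← hz] at h1
        exact h1.feas hyF
    refine ⟨S ∪ A1, z, hz0, ?_, hzF, (hsum0.trans hyx).trans (le_of_eq ?_)⟩
    · intro j hj
      rw [Finset.mem_union, not_or] at hj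
      rw [hz]
      dsimp only
      rw [if_neg hj.2]
      split_ifs
      · rfl
      · exact hyS j hj.1
    · have hSA1 : Disjoint S A1 := by
        rw [Finset.disjoint_left]
        intro j hj hj'
        exact hSA j hj (hA1 hj')
      rw [Finset.sum_union hSA1, ← Finset.sum_sdiff hBS, ← Finset.sum_sdiff (f := fun j => w j * z j) hBS]
      have e1 : ∑ j ∈ B, w' j * y j = B.card * (t * t1) := by
        rw [← nsmul_eq_mul, ← Finset.sum_const]
        refine Finset.sum_congr rfl fun j hj => ?_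
        rw [hyB j hj, hw']
        dsimp only
        rw [if_pos hj]
      have e2 : ∑ j ∈ A1, w j * z j = A1.card * (t * t1) := by
        rw [← nsmul_eq_mul, ← Finset.sum_const]
        refine Finset.sum_congr rfl fun j hj => ?_
        rw [hw, hz]
        dsimp only
        rw [if_pos (hA1 hj), if_pos hj]
      have e3 : ∑ j ∈ B, w j * z j = 0 := by
        apply Finset.sum_eq_zero
        intro j hj
        rw [hz]
        dsimp only
        rw [if_neg (Finset.disjoint_right.mp hA1B hj), if_pos hj, mul_zero]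
      have e4 : ∑ j ∈ S \ B, w' j * y j = ∑ j ∈ S \ B, w j * z j := by
        refine Finset.sum_congr rfl fun j hj => ?_
        obtain ⟨h1, h2⟩ := Finset.mem_sdiff.mp hj
        have h3 := hSA j h1
        have q1 : w' j = r j := by
          rw [hw']
          dsimp only
          rw [if_neg h2, if_neg h3]
        have q2 : w j = r j := by
          rw [hw]
          dsimp only
          rw [if_neg h3, if_neg h2]
        have q3 : z j = y j := by
          rw [hz]
          dsimp only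
          rw [if_neg (fun h4 => h3 (hA1 h4)), if_neg h2]
        rw [q1, q2, q3]
      rw [e1, e2, e3, e4, hA1c, add_zero]

end Q80.DG
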