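import Pool.Agent.Q80.DG.Num
import Pool.Agent.Q80.DG.Dual

/-!
The norm of a space with an unconditional basis which has power type democracy, and the dual norm.
-/

set_option autoImplicit false

namespace Q80.DG

open Finset Filter Topology

variable {𝕜 : Type*} [RCLike 𝕜] {X : Type*} [NormedAddCommGroup X] [NormedSpace 𝕜 X]

/-- basis data -/
structure GB (e : ℕ → X) (c : ℕ → X →L[𝕜] 𝕜) (s K C : ℝ) : Prop where
  s0 : 0 < s
  s1 : s < 1
  bi : ∀ i j, c i (e j) = if i = j then 1 else 0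
  exp : ∀ x, HasSum (fun j => c j x • e j) x
  K1 : 1 ≤ K
  C1 : 1 ≤ C
  unc : ∀ (x : X) (S : Finset ℕ) (b : ℕ → 𝕜), (∀ j ∈ S, ‖b j‖ ≤ ‖c j x‖) → ‖∑ j ∈ S, b j • e j‖ ≤ K * ‖x‖
  up : ∀ (B : Finset ℕ) (b : ℕ → 𝕜), (∀ j ∈ B, ‖b j‖ ≤ 1) → ‖∑ j ∈ B, b j • e j‖ ≤ C * (B.card : ℝ) ^ (1 - s)
  lo : ∀ A : Finset ℕ, (A.card : ℝ) ^ (1 - s) ≤ C * ‖∑ j ∈ A, e j‖

/-- absolute values of the coefficients -/
noncomputable def cf (c : ℕ → X →L[𝕜] 𝕜) (x : X) : ℕ → ℝ := fun j => ‖c j x‖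

/-- the class of weights -/
def VV (c : ℕ → X →L[𝕜] 𝕜) : Set (ℕ → ℝ) :=
  {v | (∀ j, 0 ≤ v j) ∧ ∀ (x : X) (S : Finset ℕ), ∑ j ∈ S, v j * ‖c j x‖ ≤ ‖x‖}

/-- the values -/
def VS (θ : ℕ → ℝ) (V : Set (ℕ → ℝ)) (c : ℝ) (u : ℕ → ℝ) : Set ℝ :=
  {r | ∃ B S : Finset ℕ, ∃ v ∈ V, r = Val θ c B S v u}

/-- the functional -/
noncomputable def NU (θ : ℕ → ℝ) (V : Set (ℕ → ℝ)) (c : ℝ) (u : ℕ → ℝ) : ℝ := sSup (VS θ V c u)

variable {e : ℕ → X} {c : ℕ → X →L[𝕜] 𝕜} {s K C : ℝ}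

lemma cf_nonneg (x : X) (j : ℕ) : 0 ≤ cf c x j := norm_nonneg _

lemma VV_zero : (fun _ => 0 : ℕ → ℝ) ∈ VV c := by
  refine ⟨fun _ => le_rfl, fun x S => ?_⟩
  simp

lemma GB.coef (H : GB e c s K C) (S : Finset ℕ) (a : ℕ → 𝕜) (i : ℕ) :
    c i (∑ j ∈ S, a j • e j) = if i ∈ S then a i else 0 := by
  rw [map_sum]
  simp only [map_smul, H.bi, smul_eq_mul, mul_ite, mul_one, mul_zero]
  rw [Finset.sum_ite_eq]

lemma GB.card_le (H : GB e c s K C) {v : ℕ → ℝ} (hv : v ∈ VV c) (n : ℕ) (D : Finset ℕ)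
    (hD : ∀ j ∈ D, th s (n + 1) < v j) : (D.card : ℝ) ≤ C ^ (1 / s) * (n + 1) := by
  have hs := H.s0
  have hC : 0 ≤ C := zero_le_one.trans H.C1
  rcases Nat.eq_zero_or_pos D.card with h0 | h0
  · rw [h0, Nat.cast_zero]
    positivity
  · have hd : (0:ℝ) < D.card := by exact_mod_cast h0
    have h1 := hv.2 (∑ j ∈ D, (1 : 𝕜) • e j) D
    have h2 := H.up D (fun _ => 1) (fun j _ => by simp)
    have h3 : ∑ j ∈ D, v j * ‖c j (∑ j ∈ D, (1 : 𝕜) • e j)‖ = ∑ j ∈ D, v j := by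
      refine Finset.sum_congr rfl fun j hj => ?_
      rw [H.coef D (fun _ => 1) j, if_pos hj, norm_one, mul_one]
    rw [h3] at h1
    have h4 : D.card * th s (n + 1) ≤ ∑ j ∈ D, v j := by
      rw [← nsmul_eq_mul, ← Finset.sum_const]
      exact Finset.sum_le_sum fun j hj => (hD j hj).le
    have h5 : (D.card : ℝ) * th s (n + 1) ≤ C * (D.card : ℝ) ^ (1 - s) := h4.trans (h1.trans h2)
    have hn : (0:ℝ) < (n:ℝ) + 1 := by positivity
    have h6 : th s (n + 1) = (((n:ℝ) + 1) ^ s)⁻¹ := by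
      rw [th_eq s (by omega), Real.rpow_neg (Nat.cast_nonneg _)]
      push_cast
      rfl
    have h7 : (D.card : ℝ) = (D.card : ℝ) ^ s * (D.card : ℝ) ^ (1 - s) := by
      rw [← Real.rpow_add hd]
      have : s + (1 - s) = 1 := by ring
      rw [this, Real.rpow_one]
    have hp1 : 0 < (D.card : ℝ) ^ (1 - s) := Real.rpow_pos_of_pos hd _
    have hp2 : 0 < ((n:ℝ) + 1) ^ s := by positivity
    have h8 : (D.card : ℝ) ^ s ≤ C * ((n:ℝ) + 1) ^ s := by
      have h9 : (D.card : ℝ) ^ s * (D.card : ℝ) ^ (1 - s) * (((n:ℝ) + 1) ^ s)⁻¹ ≤ C * (D.card : ℝ) ^ (1 - s) := by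
        rw [← h7, ← h6]
        exact h5
      have h10 : (D.card : ℝ) ^ s * (((n:ℝ) + 1) ^ s)⁻¹ ≤ C := by
        have h11 : ((D.card : ℝ) ^ s * (((n:ℝ) + 1) ^ s)⁻¹) * (D.card : ℝ) ^ (1 - s) ≤ C * (D.card : ℝ) ^ (1 - s) := by
          rw [mul_right_comm]
          exact h9
        exact le_of_mul_le_mul_right h11 hp1
      rw [← div_eq_mul_inv, div_le_iff₀ hp2] at h10
      exact h10
    have h9 : ((D.card : ℝ) ^ s) ^ (1 / s) ≤ (C * ((n:ℝ) + 1) ^ s) ^ (1 / s) :=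
      Real.rpow_le_rpow (Real.rpow_nonneg hd.le _) h8 (one_div_nonneg.mpr hs.le)
    rw [Real.mul_rpow hC hp2.le, ← Real.rpow_mul hd.le, ← Real.rpow_mul hn.le, mul_one_div_cancel hs.ne',
      Real.rpow_one, Real.rpow_one] at h9
    exact h9

/-- the factor -/
noncomputable def fc (s C : ℝ) : ℝ := cc s (C ^ (1 / s))

theorem GB.par (H : GB e c s K C) : Par (th s) (VV c) (fc s C) ((1 + s) / 2) :=
  par_of H.s0 H.s1 (Real.rpow_nonneg (zero_le_one.trans H.C1) _) ⟨_, VV_zero⟩ (fun _ hv => hv.1)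
    (fun _ hv => H.card_le hv)

lemma GB.weak (H : GB e c s K C) (x : X) (A : Finset ℕ) {t : ℝ} (ht : 0 < t) (hA : ∀ j ∈ A, t ≤ cf c x j) :
    t * (A.card : ℝ) ^ (1 - s) ≤ C * K * ‖x‖ := by
  have hC : 0 ≤ C := zero_le_one.trans H.C1
  have h1 := H.unc x A (fun _ => (t : 𝕜)) (fun j hj => by
    rw [RCLike.norm_ofReal, abs_of_pos ht]
    exact hA j hj)
  have h2 : ‖∑ j ∈ A, (t : 𝕜) • e j‖ = t * ‖∑ j ∈ A, e j‖ := by
    rw [← Finset.smul_sum, norm_smul, RCLike.norm_ofReal, abs_of_pos ht]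
  rw [h2] at h1
  calc t * (A.card : ℝ) ^ (1 - s) ≤ t * (C * ‖∑ j ∈ A, e j‖) := mul_le_mul_of_nonneg_left (H.lo A) ht.le
    _ = C * (t * ‖∑ j ∈ A, e j‖) := by ring
    _ ≤ C * (K * ‖x‖) := mul_le_mul_of_nonneg_left h1 hC
    _ = C * K * ‖x‖ := by ring

lemma GB.l1 (H : GB e c s K C) (x : X) (B : Finset ℕ) :
    th s B.card * ∑ j ∈ B, cf c x j ≤ C * K * ‖x‖ / s := by
  have hC : 0 ≤ C := zero_le_one.trans H.C1
  have hK : 0 ≤ K := zero_le_one.trans H.K1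
  have hs := H.s0
  have hM : 0 ≤ C * K * ‖x‖ := by positivity
  have h1 := sum_weak H.s0 H.s1 hM (cf c x) (cf_nonneg x)
    (fun A t ht hA => H.weak x A ht hA) B.card B rfl
  rcases Nat.eq_zero_or_pos B.card with h0 | h0
  · rw [Finset.card_eq_zero.mp h0, Finset.sum_empty, mul_zero]
    positivity
  · have hb : (0:ℝ) < B.card := by exact_mod_cast h0
    rw [th_eq s h0, Real.rpow_neg hb.le, inv_mul_eq_div, div_le_iff₀ (by positivity)]
    exact h1

lemma GB.val_le (H : GB e c s K C) (x : X) (B S : Finset ℕ) {v : ℕ → ℝ} (hv : v ∈ VV c) :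
    Val (th s) (fc s C) B S v (cf c x) ≤ (C * K / s + 1) * ‖x‖ := by
  unfold Val
  have h1 := H.l1 x B
  have h2 : ∑ j ∈ S \ B, fc s C * min (v j) (th s B.card) * cf c x j ≤ ‖x‖ := by
    refine le_trans (Finset.sum_le_sum fun j _ => ?_) (hv.2 x (S \ B))
    apply mul_le_mul_of_nonneg_right _ (cf_nonneg x j)
    calc fc s C * min (v j) (th s B.card) ≤ 1 * v j :=
          mul_le_mul H.par.c1 (min_le_left _ _) (le_min (hv.1 j) (th_pos s _).le) zero_le_one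
      _ = v j := one_mul _
  calc _ ≤ C * K * ‖x‖ / s + ‖x‖ := add_le_add h1 h2
    _ = (C * K / s + 1) * ‖x‖ := by ring

/-- the norm -/
noncomputable def NN (c : ℕ → X →L[𝕜] 𝕜) (s C : ℝ) (x : X) : ℝ := NU (th s) (VV c) (fc s C) (cf c x)

lemma VS_nonempty (u : ℕ → ℝ) : (VS (th s) (VV c) (fc s C) u).Nonempty := ⟨_, ∅, ∅, _, VV_zero, rfl⟩

lemma GB.bdd (H : GB e c s K C) (x : X) : BddAbove (VS (th s) (VV c) (fc s C) (cf c x)) := by
  refine ⟨(C * K / s + 1) * ‖x‖, ?_⟩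
  rintro r ⟨B, S, v, hv, rfl⟩
  exact H.val_le x B S hv

lemma GB.NN_le (H : GB e c s K C) (x : X) : NN c s C x ≤ (C * K / s + 1) * ‖x‖ := by
  apply csSup_le (VS_nonempty _)
  rintro r ⟨B, S, v, hv, rfl⟩
  exact H.val_le x B S hv

lemma GB.le_NN (H : GB e c s K C) (x : X) (B S : Finset ℕ) {v : ℕ → ℝ} (hv : v ∈ VV c) :
    Val (th s) (fc s C) B S v (cf c x) ≤ NN c s C x := le_csSup (H.bdd x) ⟨B, S, v, hv, rfl⟩

lemma GB.NN_nonneg (H : GB e c s K C) (x : X) : 0 ≤ NN c s C x :=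
  le_trans (H.par.Val_nonneg VV_zero ∅ ∅ (cf_nonneg x)) (H.le_NN x ∅ ∅ VV_zero)

lemma GB.NN_add (H : GB e c s K C) (x y : X) : NN c s C (x + y) ≤ NN c s C x + NN c s C y := by
  apply csSup_le (VS_nonempty _)
  rintro r ⟨B, S, v, hv, rfl⟩
  have h1 : Val (th s) (fc s C) B S v (cf c (x + y)) ≤ Val (th s) (fc s C) B S v (fun j => cf c x j + cf c y j) := by
    apply H.par.Val_mono hv
    intro j
    unfold cf
    rw [map_add]
    exact norm_add_le _ _
  have h2 : Val (th s) (fc s C) B S v (fun j => cf c x j + cf c y j) =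
      Val (th s) (fc s C) B S v (cf c x) + Val (th s) (fc s C) B S v (cf c y) := by
    unfold Val
    have e1 : ∀ j ∈ S \ B, fc s C * min (v j) (th s B.card) * (cf c x j + cf c y j) =
        fc s C * min (v j) (th s B.card) * cf c x j + fc s C * min (v j) (th s B.card) * cf c y j := fun j _ => by ring
    rw [Finset.sum_add_distrib, Finset.sum_congr rfl e1, Finset.sum_add_distrib]
    ring
  rw [h2] at h1
  exact h1.trans (add_le_add (H.le_NN x B S hv) (H.le_NN y B S hv))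

lemma GB.NN_smul (H : GB e c s K C) (l : 𝕜) (x : X) : NN c s C (l • x) = ‖l‖ * NN c s C x := by
  have hcf : ∀ (l : 𝕜) (x : X) B S v, Val (th s) (fc s C) B S v (cf c (l • x)) =
      ‖l‖ * Val (th s) (fc s C) B S v (cf c x) := by
    intro l x B S v
    unfold Val
    have e1 : ∀ j, cf c (l • x) j = ‖l‖ * cf c x j := by
      intro j
      unfold cf
      rw [map_smul, smul_eq_mul, norm_mul]
    simp only [e1]
    have e2 : ∑ j ∈ B, ‖l‖ * cf c x j = ‖l‖ * ∑ j ∈ B, cf c x j := (Finset.mul_sum _ _ _).symm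
    have e3 : ∑ j ∈ S \ B, fc s C * min (v j) (th s B.card) * (‖l‖ * cf c x j) =
        ‖l‖ * ∑ j ∈ S \ B, fc s C * min (v j) (th s B.card) * cf c x j := by
      rw [Finset.mul_sum]
      exact Finset.sum_congr rfl fun j _ => by ring
    rw [e2, e3]
    ring
  have hle : ∀ (l : 𝕜) (x : X), NN c s C (l • x) ≤ ‖l‖ * NN c s C x := by
    intro l x
    apply csSup_le (VS_nonempty _)
    rintro r ⟨B, S, v, hv, rfl⟩
    rw [hcf]
    exact mul_le_mul_of_nonneg_left (H.le_NN x B S hv) (norm_nonneg _)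
  apply le_antisymm (hle l x)
  rcases eq_or_ne l 0 with rfl | hl
  · rw [norm_zero, zero_mul]
    exact H.NN_nonneg _
  · have h1 := hle l⁻¹ (l • x)
    rw [smul_smul, inv_mul_cancel₀ hl, one_smul, norm_inv] at h1
    have hl0 : 0 < ‖l‖ := norm_pos_iff.mpr hl
    rw [inv_mul_eq_div, le_div_iff₀ hl0] at h1
    linarith

/-- a unimodular factor -/
lemma exists_unim (a : 𝕜) (r : ℝ) (hr : 0 ≤ r) : ∃ b : 𝕜, ‖b‖ ≤ r ∧ a * b = ((‖a‖ * r : ℝ) : 𝕜) := by
  rcases eq_or_ne a 0 with h | h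
  · refine ⟨0, ?_, ?_⟩
    · rw [norm_zero]
      exact hr
    · rw [h, norm_zero, zero_mul, zero_mul]
      simp
  · have ha : (‖a‖ : 𝕜) ≠ 0 := by
      rw [Ne, RCLike.ofReal_eq_zero, norm_eq_zero]
      exact h
    refine ⟨(starRingEnd 𝕜) a * (r : 𝕜) / (‖a‖ : 𝕜), ?_, ?_⟩
    · rw [norm_div, norm_mul, RCLike.norm_conj, RCLike.norm_ofReal, RCLike.norm_ofReal, abs_of_nonneg hr,
        abs_of_nonneg (norm_nonneg a), mul_div_assoc, mul_div_cancel₀]
      exact norm_ne_zero_iff.mpr h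
    · have h1 : a * (starRingEnd 𝕜) a = (‖a‖ : 𝕜) ^ 2 := RCLike.mul_conj a
      calc a * ((starRingEnd 𝕜) a * (r : 𝕜) / (‖a‖ : 𝕜)) = (a * (starRingEnd 𝕜) a) * (r : 𝕜) / (‖a‖ : 𝕜) := by ring
        _ = ((‖a‖ * r : ℝ) : 𝕜) := by
          rw [h1]
          push_cast
          field_simp

lemma GB.norm_le (H : GB e c s K C) (x : X) : fc s C / (K * C) * ‖x‖ ≤ NN c s C x := by
  have hK := H.K1
  have hC := H.C1
  have hKC : 0 < K * C := by positivity
  have hf := H.par.c0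
  obtain ⟨g, hg1, hgx⟩ := exists_dual_vector'' 𝕜 x
  obtain ⟨v, hv⟩ : ∃ v : ℕ → ℝ, v = fun j => ‖g (e j)‖ / (K * C) := ⟨_, rfl⟩
  have hvV : v ∈ VV c := by
    refine ⟨fun j => ?_, fun y S => ?_⟩
    · rw [hv]
      positivity
    · have h1 : ∀ j, ∃ b : 𝕜, ‖b‖ ≤ ‖c j y‖ ∧ g (e j) * b = ((‖g (e j)‖ * ‖c j y‖ : ℝ) : 𝕜) :=
        fun j => exists_unim (g (e j)) ‖c j y‖ (norm_nonneg _)
      choose b hb1 hb2 using h1
      have h2 := H.unc y S b (fun j _ => hb1 j)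
      have h3 : g (∑ j ∈ S, b j • e j) = ((∑ j ∈ S, ‖g (e j)‖ * ‖c j y‖ : ℝ) : 𝕜) := by
        rw [map_sum]
        push_cast
        refine Finset.sum_congr rfl fun j _ => ?_
        rw [map_smul, smul_eq_mul, mul_comm, hb2]
        push_cast
        rfl
      have h4 : ∑ j ∈ S, ‖g (e j)‖ * ‖c j y‖ ≤ K * ‖y‖ := by
        have h5 : ‖g (∑ j ∈ S, b j • e j)‖ ≤ ‖∑ j ∈ S, b j • e j‖ := by
          refine (g.le_opNorm _).trans ?_
          calc ‖g‖ * ‖∑ j ∈ S, b j • e j‖ ≤ 1 * ‖∑ j ∈ S, b j • e j‖ :=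
                mul_le_mul_of_nonneg_right hg1 (norm_nonneg _)
            _ = _ := one_mul _
        rw [h3, RCLike.norm_ofReal, abs_of_nonneg (Finset.sum_nonneg fun j _ => by positivity)] at h5
        exact h5.trans h2
      have h5 : ∑ j ∈ S, v j * ‖c j y‖ = (∑ j ∈ S, ‖g (e j)‖ * ‖c j y‖) / (K * C) := by
        rw [Finset.sum_div]
        refine Finset.sum_congr rfl fun j _ => ?_
        rw [hv]
        dsimp only
        ring
      rw [h5, div_le_iff₀ hKC]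
      have hy := norm_nonneg y
      have h6 : K * ‖y‖ ≤ K * C * ‖y‖ := by
        have := mul_le_mul_of_nonneg_right hC (mul_nonneg (by linarith : (0:ℝ) ≤ K) hy)
        linarith
      linarith
  have hv1 : ∀ j, v j ≤ 1 := by
    intro j
    rw [hv]
    dsimp only
    rw [div_le_one hKC]
    have h1 := H.up {j} (fun _ => 1) (fun _ _ => by simp)
    rw [Finset.sum_singleton, one_smul, Finset.card_singleton, Nat.cast_one, Real.one_rpow, mul_one] at h1
    have h2 : ‖g (e j)‖ ≤ ‖e j‖ := by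
      refine (g.le_opNorm _).trans ?_
      calc ‖g‖ * ‖e j‖ ≤ 1 * ‖e j‖ := mul_le_mul_of_nonneg_right hg1 (norm_nonneg _)
        _ = _ := one_mul _
    nlinarith
  have h1 : Tendsto (fun S : Finset ℕ => ‖g (∑ j ∈ S, c j x • e j)‖) atTop (𝓝 ‖g x‖) :=
    ((g.continuous.tendsto x).comp (H.exp x)).norm
  have h2 : ∀ S : Finset ℕ, fc s C / (K * C) * ‖g (∑ j ∈ S, c j x • e j)‖ ≤ NN c s C x := by
    intro S
    refine le_trans ?_ (H.le_NN x ∅ S hvV)
    unfold Val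
    rw [Finset.card_empty, th_zero, Finset.sum_empty, mul_zero, zero_add, Finset.sdiff_empty]
    have h3 : ‖g (∑ j ∈ S, c j x • e j)‖ ≤ ∑ j ∈ S, ‖g (e j)‖ * cf c x j := by
      rw [map_sum]
      refine (norm_sum_le _ _).trans (Finset.sum_le_sum fun j _ => ?_)
      rw [map_smul, smul_eq_mul, norm_mul, mul_comm]
      rfl
    calc fc s C / (K * C) * ‖g (∑ j ∈ S, c j x • e j)‖ ≤ fc s C / (K * C) * ∑ j ∈ S, ‖g (e j)‖ * cf c x j :=
          mul_le_mul_of_nonneg_left h3 (by positivity)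
      _ = ∑ j ∈ S, fc s C * min (v j) 1 * cf c x j := by
          rw [Finset.mul_sum]
          refine Finset.sum_congr rfl fun j _ => ?_
          rw [min_eq_left (hv1 j), hv]
          dsimp only
          ring
  have h3 := le_of_tendsto (h1.const_mul (fc s C / (K * C))) (Eventually.of_forall h2)
  rw [hgx, RCLike.norm_ofReal, abs_of_nonneg (norm_nonneg x)] at h3
  exact h3

lemma GB.NN_zero_iff (H : GB e c s K C) (x : X) : NN c s C x = 0 ↔ x = 0 := by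
  have hK := H.K1
  have hC := H.C1
  have hf := H.par.c0
  constructor
  · intro h
    have h1 := H.norm_le x
    rw [h] at h1
    have h2 : 0 < fc s C / (K * C) := by positivity
    have h3 : ‖x‖ ≤ 0 := by
      by_contra h4
      rw [not_le] at h4
      have := mul_pos h2 h4
      linarith
    exact norm_le_zero_iff.mp h3
  · rintro rfl
    apply le_antisymm _ (H.NN_nonneg _)
    have := H.NN_le 0
    rwa [norm_zero, mul_zero] at this

lemma GB.NN_dom (H : GB e c s K C) (x y : X) (h : Dom (th s) (VV c) (fc s C) (cf c x) (cf c y)) :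
    NN c s C x ≤ NN c s C y := by
  apply csSup_le (VS_nonempty _)
  rintro r ⟨B, S, v, hv, rfl⟩
  obtain ⟨B', S', v', hv', h1⟩ := h B S v hv
  exact h1.trans (H.le_NN y B' S' hv')

lemma GB.feas (H : GB e c s K C) (x : X) (h : NN c s C x ≤ 1) : Feas (th s) (VV c) (fc s C) (cf c x) :=
  fun B S v hv => (H.le_NN x B S hv).trans h

lemma GB.NN_le_one (x : X) (h : Feas (th s) (VV c) (fc s C) (cf c x)) : NN c s C x ≤ 1 := by
  apply csSup_le (VS_nonempty _)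
  rintro r ⟨B, S, v, hv, rfl⟩
  exact h B S v hv

/-- greedy comparison of coefficient sequences -/
lemma greedy_rel {R : (ℕ → ℝ) → (ℕ → ℝ) → Prop} (htr : ∀ u'' u' u, R u'' u' → R u' u → R u'' u)
    (hmono : ∀ u' u : ℕ → ℝ, (∀ j, 0 ≤ u' j) → (∀ j, u' j ≤ u j) → R u' u) (hmove : Moves R)
    {x x' y : ℕ → ℝ} (hx : ∀ j, 0 ≤ x j) (hy : ∀ j, 0 ≤ y j) {A B : Finset ℕ}
    (hcard : B.card ≤ A.card) (hgr : ∀ i ∈ A, ∀ j, j ∉ A → x j ≤ x i) (hxy : ∀ j, j ∉ B → y j = x j)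
    (hx' : ∀ j, x' j = if j ∈ A then 0 else x j) : R x' y := by
  classical
  rcases Finset.eq_empty_or_nonempty A with hA | hA
  · have hB : B = ∅ := by
      rw [hA, Finset.card_empty] at hcard
      exact Finset.card_eq_zero.mp (by omega)
    apply hmono
    · intro j
      rw [hx', hA, if_neg (Finset.notMem_empty j)]
      exact hx j
    · intro j
      rw [hx', hA, if_neg (Finset.notMem_empty j), hxy j (by rw [hB]; exact Finset.notMem_empty j)]
  · obtain ⟨i0, hi0, hmin⟩ := A.exists_min_image x hA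
    have h0' : ∀ j, 0 ≤ x' j := by
      intro j
      rw [hx']
      split_ifs
      exacts [le_rfl, hx j]
    rcases eq_or_lt_of_le (hx i0) with h0 | h0
    · apply hmono _ _ h0'
      intro j
      rw [hx']
      split_ifs with hj
      · exact hy j
      · exact ((hgr i0 hi0 j hj).trans (le_of_eq h0.symm)).trans (hy j)
    · have h1 := greedy_chain htr hmono hmove hx hy hcard h0 hmin (fun j hj => hgr i0 hi0 j hj) hxy
      have h2 : (fun j => if j ∈ A then 0 else x j) = x' := by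
        funext j
        rw [hx']
      rw [h2] at h1
      exact h1

/-- the greedy inequality for the norm -/
theorem GB.greedy (H : GB e c s K C) (x : X) (A B : Finset ℕ) (hcard : B.card ≤ A.card)
    (hgr : ∀ i ∈ A, ∀ j, j ∉ A → ‖c j x‖ ≤ ‖c i x‖) (b : ℕ → 𝕜) :
    NN c s C (x - ∑ j ∈ A, c j x • e j) ≤ NN c s C (x - ∑ j ∈ B, b j • e j) := by
  apply H.NN_dom
  refine greedy_rel (x := cf c x) (fun _ _ _ h h' => h.trans h') (fun u' u _ h => H.par.dom_mono h) H.par.moves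
    (cf_nonneg x) (cf_nonneg _) hcard hgr ?_ ?_
  · intro j hj
    unfold cf
    rw [map_sub, H.coef, if_neg hj, sub_zero]
  · intro j
    unfold cf
    rw [map_sub, H.coef]
    split_ifs
    · rw [sub_self, norm_zero]
    · rw [sub_zero]

/-- the dual norm of a functional -/
noncomputable def DN (c : ℕ → X →L[𝕜] 𝕜) (s C : ℝ) (φ : X →L[𝕜] 𝕜) : ℝ := sSup {r | ∃ f, NN c s C f ≤ 1 ∧ r = ‖φ f‖}

lemma GB.DN_bdd (H : GB e c s K C) (φ : X →L[𝕜] 𝕜) : BddAbove {r | ∃ f, NN c s C f ≤ 1 ∧ r = ‖φ f‖} := by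
  have hK := H.K1
  have hC := H.C1
  have hf := H.par.c0
  refine ⟨‖φ‖ * (K * C / fc s C), ?_⟩
  rintro r ⟨f, hf1, rfl⟩
  refine (φ.le_opNorm f).trans (mul_le_mul_of_nonneg_left ?_ (norm_nonneg _))
  have h1 := (H.norm_le f).trans hf1
  rw [div_mul_eq_mul_div, div_le_one (by positivity)] at h1
  rw [le_div_iff₀ hf]
  linarith

lemma GB.DN_dom (H : GB e c s K C) (φ ψ : X →L[𝕜] 𝕜)
    (h : DDom (th s) (VV c) (fc s C) (fun j => ‖φ (e j)‖) (fun j => ‖ψ (e j)‖)) : DN c s C φ ≤ DN c s C ψ := by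
  have hne : {r | ∃ f, NN c s C f ≤ 1 ∧ r = ‖φ f‖}.Nonempty :=
    ⟨‖φ 0‖, 0, by rw [(H.NN_zero_iff 0).mpr rfl]; exact zero_le_one, rfl⟩
  apply csSup_le hne
  rintro r ⟨f, hf, rfl⟩
  have h1 : Tendsto (fun S : Finset ℕ => ‖φ (∑ j ∈ S, c j f • e j)‖) atTop (𝓝 ‖φ f‖) :=
    ((φ.continuous.tendsto f).comp (H.exp f)).norm
  refine le_of_tendsto h1 (Eventually.of_forall fun S => ?_)
  obtain ⟨x, hx⟩ : ∃ x : ℕ → ℝ, x = fun j => if j ∈ S then cf c f j else 0 := ⟨_, rfl⟩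
  have hx0 : ∀ j, 0 ≤ x j := by
    intro j
    rw [hx]
    dsimp only
    split_ifs
    exacts [cf_nonneg f j, le_rfl]
  have hxf : ∀ j, x j ≤ cf c f j := by
    intro j
    rw [hx]
    dsimp only
    split_ifs
    exacts [le_rfl, cf_nonneg f j]
  have hxF : Feas (th s) (VV c) (fc s C) x := (H.par.dom_mono hxf).feas (H.feas f hf)
  obtain ⟨S', y, hy0, hyS, hyF, hle⟩ := h S x hx0 (fun j hj => by rw [hx]; dsimp only; rw [if_neg hj]) hxF
  have h2 : ∀ j, ∃ b : 𝕜, ‖b‖ ≤ y j ∧ ψ (e j) * b = ((‖ψ (e j)‖ * y j : ℝ) : 𝕜) :=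
    fun j => exists_unim (ψ (e j)) (y j) (hy0 j)
  choose b hb1 hb2 using h2
  have h3 : ψ (∑ j ∈ S', b j • e j) = ((∑ j ∈ S', ‖ψ (e j)‖ * y j : ℝ) : 𝕜) := by
    rw [map_sum]
    push_cast
    refine Finset.sum_congr rfl fun j _ => ?_
    rw [map_smul, smul_eq_mul, mul_comm, hb2]
    push_cast
    rfl
  have h4 : NN c s C (∑ j ∈ S', b j • e j) ≤ 1 := by
    apply GB.NN_le_one
    refine (H.par.dom_mono (u := y) ?_).feas hyF
    intro j
    unfold cf
    rw [H.coef]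
    split_ifs
    · exact hb1 j
    · rw [norm_zero]
      exact hy0 j
  have h5 : ‖ψ (∑ j ∈ S', b j • e j)‖ ≤ DN c s C ψ := le_csSup (H.DN_bdd ψ) ⟨_, h4, rfl⟩
  rw [h3, RCLike.norm_ofReal,
    abs_of_nonneg (Finset.sum_nonneg fun j _ => mul_nonneg (norm_nonneg _) (hy0 j))] at h5
  refine le_trans ?_ (hle.trans h5)
  rw [map_sum]
  refine (norm_sum_le _ _).trans (Finset.sum_le_sum fun j hj => ?_)
  rw [map_smul, smul_eq_mul, norm_mul, mul_comm, hx]
  dsimp only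
  rw [if_pos hj]
  exact le_rfl

/-- the greedy inequality for the dual norm -/
theorem GB.dual_greedy (H : GB e c s K C) (φ φA φB : X →L[𝕜] 𝕜) (A B : Finset ℕ) (hcard : B.card ≤ A.card)
    (hgr : ∀ i ∈ A, ∀ j, j ∉ A → ‖φ (e j)‖ ≤ ‖φ (e i)‖)
    (hA : ∀ j, φA (e j) = if j ∈ A then 0 else φ (e j)) (hB : ∀ j, j ∉ B → φB (e j) = φ (e j)) :
    DN c s C φA ≤ DN c s C φB := by
  apply H.DN_dom
  refine greedy_rel (x := fun j => ‖φ (e j)‖) (fun _ _ _ h h' => h.trans h') (fun u' u _ h => ddom_mono h)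
    H.par.dmoves (fun _ => norm_nonneg _) (fun _ => norm_nonneg _) hcard hgr ?_ ?_
  · intro j hj
    rw [hB j hj]
  · intro j
    rw [hA]
    split_ifs
    · rw [norm_zero]
    · rfl

end Q80.DG
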