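import Pool.Agent.Q98.SN.Real
import Pool.Agent.Q80.DG.Norm

/-!
The Haar system satisfies the hypotheses.
-/

set_option autoImplicit false

namespace Q80.DG

open Finset H75R3 MeasureTheory Filter Topology Q98.SN
open scoped ENNReal
open Pool.Agent.Q98.SNDefs (leb haarFun IsHaar IsEquivalent Expands IsBasis IsOneGreedy)

theorem gb_complex (p : ℝ≥0∞) [hp : Fact (1 ≤ p)] (h1 : 1 < p) (hpt : p ≠ ∞) (h2 : p ≠ 2) :
    ∃ K C : ℝ, GB (hC p) (cC p) (1 - 1 / p.toReal) K C := by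
  obtain ⟨K, C, G⟩ := gd_complex p h1 hpt h2
  have hP1 : 1 < p.toReal := P_gt p h1 hpt
  have hP0 : 0 < p.toReal := zero_lt_one.trans hP1
  have hpq := Real.HolderConjugate.conjExponent hP1
  obtain ⟨P, hP⟩ : ∃ P, P = p.toReal := ⟨_, rfl⟩
  obtain ⟨Q, hQ⟩ : ∃ Q, Q = Real.conjExponent p.toReal := ⟨_, rfl⟩
  rw [← hQ, ← hP] at hpq
  rw [← hP] at hP1 hP0 ⊢
  have hGP := GG_ge hP0
  have hGQ := GG_ge hpq.symm.pos
  have hPinv : 1 / P < 1 := by rw [div_lt_one hP0]; exact hP1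
  have hPinv0 : 0 < 1 / P := by positivity
  have hgp : 0 < (GG P + 1) * (GG Q + 1) := by nlinarith
  have hle1 : GG P + 1 ≤ (GG P + 1) * (GG Q + 1) := by nlinarith
  have hle2 : GG Q + 1 ≤ (GG P + 1) * (GG Q + 1) := by nlinarith
  have hbig : ∀ A : Finset ℕ, ∃ n : ℕ, A ⊆ range (2 ^ n) := by
    intro A
    refine ⟨A.sup id + 1, fun j hj => ?_⟩
    rw [Finset.mem_range]
    have h3 : j ≤ A.sup id := Finset.le_sup (f := id) hj
    calc j ≤ A.sup id := h3
      _ < A.sup id + 1 := Nat.lt_succ_self _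
      _ ≤ 2 ^ (A.sup id + 1) := Nat.lt_two_pow_self.le
  have hext : ∀ (n : ℕ) (D : Finset ℕ), D ⊆ range (2 ^ n) → ∀ β : ℕ → ℂ, ∑ j ∈ D, β j • hC p j =
      ∑ m ∈ range (2 ^ n), (if m ∈ D then β m * (ww P m : ℂ) else 0) •
        eh leb p mp_id.measurable m := by
    intro n D hD β
    rw [← Finset.sum_subset hD]
    · refine Finset.sum_congr rfl fun j hj => ?_
      rw [if_pos hj]
      unfold hC e0
      rw [smul_smul, hP]
    · intro j _ hj
      rw [if_neg hj, zero_smul]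
  refine ⟨K, (GG P + 1) * (GG Q + 1), by linarith, by linarith, cC_hC p, G.exp, G.K1, ?_, G.unc, ?_, ?_⟩
  · nlinarith
  · intro B b hb
    obtain ⟨n, hBn⟩ := hbig B
    rw [sub_sub_cancel]
    rw [hext n B hBn b, norm_fin mp_id hpt, ← hP]
    have h3 := NP_bound hP0 B (fun m => if m ∈ B then b m * (ww P m : ℂ) else 0)
      (fun m hm => by
        rw [if_pos hm, norm_mul, Complex.norm_real, Real.norm_of_nonneg (ww_pos P m).le]
        calc ‖b m‖ * ww P m ≤ 1 * ww P m :=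
              mul_le_mul_of_nonneg_right (hb m hm) (ww_pos P m).le
          _ = ww P m := one_mul _)
      (fun m hm => if_neg hm) n
    rw [Finset.inter_eq_left.mpr hBn] at h3
    refine (Real.rpow_le_rpow (NP_nonneg _ _ _) h3 (by positivity)).trans ?_
    rw [Real.mul_rpow (by positivity) (by positivity), ← Real.rpow_mul (by linarith), one_div,
      mul_inv_cancel₀ hP0.ne', Real.rpow_one]
    exact mul_le_mul_of_nonneg_right hle1 (by positivity)
  · intro A
    obtain ⟨n, hAn⟩ := hbig A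
    rw [sub_sub_cancel]
    have h3 := NP_lower hpq A n hAn
    have h4 : ∑ j ∈ A, hC p j = ∑ m ∈ range (2 ^ n), (if m ∈ A then (ww P m : ℂ) else 0) •
        eh leb p mp_id.measurable m := by
      have h5 := hext n A hAn (fun _ => 1)
      simp only [one_smul, one_mul] at h5
      exact h5
    rw [h4, norm_fin mp_id hpt, ← hP]
    refine h3.trans (mul_le_mul_of_nonneg_right hle2 (Real.rpow_nonneg (NP_nonneg _ _ _) _))

/-- transfer of the basis data along an isometric embedding of the real space -/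
theorem gb_transfer {V W : Type} [NormedAddCommGroup V] [NormedSpace ℝ V] [NormedAddCommGroup W]
    [NormedSpace ℂ W] {e : ℕ → W} {c : ℕ → W →L[ℂ] ℂ} {s K C : ℝ}
    (H : GB e c s K C) (ι : V →+ W) (R : W →+ V)
    (hι : ∀ v, ‖ι v‖ = ‖v‖) (hιs : ∀ (t : ℝ) v, ι (t • v) = (t : ℂ) • ι v)
    (hRι : ∀ v, R (ι v) = v) (hRc : Continuous R)
    (h : ℕ → V) (hh : ∀ j, ι (h j) = e j) (hR : ∀ (z : ℂ) j, R (z • e j) = z.re • h j) :
    ∃ c' : ℕ → V →L[ℝ] ℝ, GB h c' s K C := by
  have hlip : ∀ m, ∀ v : V, ‖(c m (ι v)).re‖ ≤ ‖c m‖ * ‖v‖ := by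
    intro m v
    rw [Real.norm_eq_abs]
    refine (Complex.abs_re_le_norm _).trans (((c m).le_opNorm _).trans ?_)
    rw [hι]
  set c' : ℕ → V →L[ℝ] ℝ := fun m => LinearMap.mkContinuous
    { toFun := fun v => (c m (ι v)).re
      map_add' := fun v w => by rw [map_add, map_add, Complex.add_re]
      map_smul' := fun t v => by
        rw [hιs, map_smul, smul_eq_mul, Complex.re_ofReal_mul, RingHom.id_apply, smul_eq_mul] }
    ‖c m‖ (hlip m) with hc'
  have hc'a : ∀ m v, c' m v = (c m (ι v)).re := fun m v => rfl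
  have hsum : ∀ (S : Finset ℕ) (b : ℕ → ℝ), ‖∑ j ∈ S, b j • h j‖ =
      ‖∑ j ∈ S, (b j : ℂ) • e j‖ := by
    intro S b
    rw [← hι, map_sum]
    congr 1
    refine Finset.sum_congr rfl fun j _ => ?_
    rw [hιs, hh]
  refine ⟨c', H.s0, H.s1, ?_, ?_, H.K1, H.C1, ?_, ?_, ?_⟩
  · intro i j
    have h1 : c i (e j) = if i = j then 1 else 0 := H.bi i j
    rw [hc'a, hh, h1]
    split_ifs <;> simp
  · intro v
    have h1 : HasSum (fun j => c j (ι v) • e j) (ι v) := H.exp (ι v)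
    have h2 := h1.map R hRc
    rw [hRι] at h2
    refine h2.congr_fun ?_
    intro j
    rw [Function.comp_apply, hR]
    rfl
  · intro x S b hb
    have hb' : ∀ j ∈ S, ‖b j‖ ≤ ‖(c j (ι x)).re‖ := hb
    rw [hsum, ← hι x]
    apply H.unc (ι x) S (fun j => (b j : ℂ))
    intro j hj
    rw [Complex.norm_real]
    refine (hb' j hj).trans ?_
    rw [Real.norm_eq_abs]
    exact Complex.abs_re_le_norm _
  · intro B b hb
    rw [hsum]
    apply H.up B (fun j => (b j : ℂ))
    intro j hj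
    rw [Complex.norm_real]
    exact hb j hj
  · intro A
    have h1 := hsum A (fun _ => 1)
    simp only [one_smul, Complex.ofReal_one] at h1
    rw [h1]
    exact H.lo A

theorem gb_real (p : ℝ≥0∞) [hp : Fact (1 ≤ p)] (h1 : 1 < p) (hpt : p ≠ ∞) (h2 : p ≠ 2) :
    ∃ (c' : ℕ → Lp ℝ p leb →L[ℝ] ℝ) (K C : ℝ), GB (hR p) c' (1 - 1 / p.toReal) K C := by
  obtain ⟨K, C, H⟩ := gb_complex p h1 hpt h2
  obtain ⟨c', H'⟩ := gb_transfer H (io p : Lp ℝ p leb →+ Lp ℂ p leb) (ro p : Lp ℂ p leb →+ Lp ℝ p leb)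
    (io_norm p) (io_smul p) (ro_io p) (ro p).continuous (hR p) (io_hR p) (ro_smul p)
  exact ⟨c', K, C, H'⟩

/-- the Haar functions for conjugate exponents are biorthogonal -/
lemma biorth_real (p q : ℝ≥0∞) [hp : Fact (1 ≤ p)] [hq : Fact (1 ≤ q)]
    (hpq : p.toReal.HolderConjugate q.toReal) (i j : ℕ) :
    ∫ t, haarFun p.toReal i t * haarFun q.toReal j t ∂leb = if i = j then 1 else 0 := by
  have h1 : ∫ t, ((haarFun p.toReal i t * haarFun q.toReal j t : ℝ) : ℂ) ∂leb = if i = j then 1 else 0 := by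
    have h2 := cC_hC p j i
    have h3 : cC p j (hC p i) = ∫ t, ((haarFun p.toReal i t * haarFun q.toReal j t : ℝ) : ℂ) ∂leb := by
      unfold cC
      rw [_root_.smul_apply, ph_apply, smul_eq_mul, ← mul_assoc, ← integral_const_mul]
      apply integral_congr_ae
      filter_upwards [hC_ae p i, mem_ae] with t ht ht2
      rw [ht]
      push_cast
      have h4 : (ww p.toReal j : ℂ) * (ww q.toReal j : ℂ) = (wt j : ℂ) := by
        rw [← Complex.ofReal_mul, ww_mul hpq]
      rw [haar_eq (P := q.toReal) ht2 j, ← h4]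
      have h5 := ww_ne p j
      have h6 : ((ww p.toReal j : ℂ))⁻¹ * ((ww p.toReal j : ℂ) * (ww q.toReal j : ℂ)) = (ww q.toReal j : ℂ) := by
        field_simp
      rw [h6, id_eq]
      ring
    rw [← h3, h2]
    by_cases h : i = j
    · rw [if_pos h, if_pos h.symm]
    · rw [if_neg h, if_neg (Ne.symm h)]
  have h7 := integral_ofReal (μ := leb) (𝕜 := ℂ) (f := fun t => haarFun p.toReal i t * haarFun q.toReal j t)
  have h8 : (((∫ t, haarFun p.toReal i t * haarFun q.toReal j t ∂leb : ℝ)) : ℂ) = if i = j then 1 else 0 := by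
    rw [← h1]
    exact h7.symm
  split_ifs at h8 ⊢ with h
  · exact_mod_cast h8
  · exact_mod_cast h8

end Q80.DG
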