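import Pool.Agent.Q80.DG.Core2

/-!
The parameters for a logarithmic fundamental function.
-/

set_option autoImplicit false

namespace Q80.DG

open Finset

/-- binary logarithm -/
noncomputable def lb (x : ℝ) : ℝ := Real.logb 2 x

lemma ln2_pos : 0 < Real.log 2 := Real.log_pos (by norm_num)

lemma lb_eq (x : ℝ) : lb x = Real.log x / Real.log 2 := rfl

lemma lb_mono {x y : ℝ} (hx : 0 < x) (h : x ≤ y) : lb x ≤ lb y := by
  rw [lb_eq, lb_eq]
  exact div_le_div_of_nonneg_right (Real.log_le_log hx h) ln2_pos.le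

lemma lb_natmono {m n : ℕ} (h : m ≤ n) : lb (m : ℝ) ≤ lb (n : ℝ) := by
  rcases Nat.eq_zero_or_pos m with h0 | h0
  · subst h0
    rcases Nat.eq_zero_or_pos n with h1 | h1
    · subst h1
      exact le_rfl
    · rw [lb_eq, lb_eq, Nat.cast_zero, Real.log_zero, zero_div]
      exact div_nonneg (Real.log_natCast_nonneg n) ln2_pos.le
  · exact lb_mono (by exact_mod_cast h0) (by exact_mod_cast h)

lemma lb_nat_nonneg (n : ℕ) : 0 ≤ lb (n : ℝ) := by
  rw [lb_eq]
  exact div_nonneg (Real.log_natCast_nonneg n) ln2_pos.le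

/-- `log₂(1 + x) ≥ x` on `[0, 1]` -/
lemma lb_one_add {x : ℝ} (h0 : 0 ≤ x) (h1 : x ≤ 1) : x ≤ lb (1 + x) := by
  have h2 : (2:ℝ) ^ x ≤ 1 + x := by
    have h3 := rpow_one_add_le_one_add_mul_self (s := 1) (p := x) (by norm_num) h0 h1
    have h4 : (1:ℝ) + 1 = 2 := by norm_num
    rw [h4, mul_one] at h3
    exact h3
  have h3 : Real.log ((2:ℝ) ^ x) ≤ Real.log (1 + x) := Real.log_le_log (by positivity) h2
  rw [Real.log_rpow (by norm_num)] at h3
  rw [lb_eq, le_div_iff₀ ln2_pos]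
  exact h3

/-- level weights -/
noncomputable def th2 (n : ℕ) : ℝ := if n = 0 then 1 else lb ((n : ℝ) + 1) / n

lemma th2_mul {n : ℕ} (hn : 1 ≤ n) : n * th2 n = lb ((n : ℝ) + 1) := by
  unfold th2
  rw [if_neg (by omega)]
  have : (n : ℝ) ≠ 0 := by exact_mod_cast (by omega : n ≠ 0)
  field_simp

lemma th2_pos (n : ℕ) : 0 < th2 n := by
  unfold th2
  split_ifs with h
  · exact one_pos
  · have hn : (0:ℝ) < n := by exact_mod_cast Nat.pos_of_ne_zero h
    apply div_pos _ hn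
    rw [lb_eq]
    exact div_pos (Real.log_pos (by linarith)) ln2_pos

lemma lb_two : lb 2 = 1 := by
  rw [lb_eq]
  exact div_self ln2_pos.ne'

lemma th2_one : th2 1 = 1 := by
  unfold th2
  rw [if_neg one_ne_zero, Nat.cast_one, div_one]
  have : (1:ℝ) + 1 = 2 := by norm_num
  rw [this, lb_two]

/-- the increments -/
lemma th2_step {n : ℕ} (hn : 1 ≤ n) : 1 / ((n : ℝ) + 1) ≤ th2 (n + 1) - n * (th2 n - th2 (n + 1)) := by
  have h1 := th2_mul hn
  have h2 := th2_mul (by omega : 1 ≤ n + 1)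
  push_cast at h2
  have hn0 : (0:ℝ) < (n:ℝ) + 1 := by positivity
  have h3 : lb ((n:ℝ) + 1 + 1) = lb ((n:ℝ) + 1) + lb (1 + 1 / ((n:ℝ) + 1)) := by
    have h4 : (n:ℝ) + 1 + 1 = ((n:ℝ) + 1) * (1 + 1 / ((n:ℝ) + 1)) := by field_simp
    rw [lb_eq, lb_eq, lb_eq, ← add_div, ← Real.log_mul (by positivity) (by positivity), ← h4]
  have h5 : 1 / ((n:ℝ) + 1) ≤ lb (1 + 1 / ((n:ℝ) + 1)) := by
    apply lb_one_add (by positivity)
    rw [div_le_one hn0]
    have : (0:ℝ) ≤ n := Nat.cast_nonneg n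
    linarith
  have h6 : th2 (n + 1) - n * (th2 n - th2 (n + 1)) = ((n:ℝ) + 1) * th2 (n + 1) - n * th2 n := by ring
  rw [h6, h1, h2, h3]
  linarith

lemma th2_anti : Antitone th2 := by
  apply antitone_nat_of_succ_le
  intro n
  rcases Nat.eq_zero_or_pos n with h0 | hn
  · subst h0
    rw [zero_add, th2_one]
    unfold th2
    rw [if_pos rfl]
  · have h1 := th2_mul hn
    have h2 := th2_mul (by omega : 1 ≤ n + 1)
    push_cast at h2
    have hn0 : (0:ℝ) < (n:ℝ) + 1 := by positivity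
    have hn1 : (0:ℝ) < n := by exact_mod_cast hn
    have hn2 : (1:ℝ) ≤ n := by exact_mod_cast hn
    have h4 : (n:ℝ) + 1 + 1 = ((n:ℝ) + 1) * (1 + 1 / ((n:ℝ) + 1)) := by field_simp
    have h3 : lb ((n:ℝ) + 1 + 1) = lb ((n:ℝ) + 1) + lb (1 + 1 / ((n:ℝ) + 1)) := by
      rw [lb_eq, lb_eq, lb_eq, ← add_div, ← Real.log_mul (by positivity) (by positivity), ← h4]
    have h5 : ((n:ℝ) + 1) * lb (1 + 1 / ((n:ℝ) + 1)) ≤ lb ((n:ℝ) + 1 + 1) := by
      have h6 : Real.log (1 + 1 / ((n:ℝ) + 1)) ≤ 1 / ((n:ℝ) + 1) := by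
        have := Real.log_le_sub_one_of_pos (x := 1 + 1 / ((n:ℝ) + 1)) (by positivity)
        linarith
      have h7 : (1:ℝ) ≤ Real.log ((n:ℝ) + 1 + 1) := by
        rw [Real.le_log_iff_exp_le (by positivity)]
        have := Real.exp_one_lt_d9
        linarith
      rw [lb_eq, lb_eq, mul_div_assoc']
      apply div_le_div_of_nonneg_right _ ln2_pos.le
      calc ((n:ℝ) + 1) * Real.log (1 + 1 / ((n:ℝ) + 1)) ≤ ((n:ℝ) + 1) * (1 / ((n:ℝ) + 1)) :=
            mul_le_mul_of_nonneg_left h6 hn0.le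
        _ = 1 := by field_simp
        _ ≤ _ := h7
    -- n (θ n - θ (n+1)) = θ (n+1) - (L(n+1) - L(n)) ≥ 0
    have h8 : ((n:ℝ) + 1) * (n * (th2 n - th2 (n + 1))) =
        lb ((n:ℝ) + 1 + 1) - ((n:ℝ) + 1) * lb (1 + 1 / ((n:ℝ) + 1)) := by
      have h9 : (n:ℝ) * (th2 n - th2 (n + 1)) = lb ((n:ℝ) + 1) - (((n:ℝ) + 1) * th2 (n + 1) - th2 (n + 1)) := by
        rw [← h1]
        ring
      rw [h9, h2]
      have h10 : ((n:ℝ) + 1) * (lb ((n:ℝ) + 1) - (lb ((n:ℝ) + 1 + 1) - th2 (n + 1))) =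
          ((n:ℝ) + 1) * lb ((n:ℝ) + 1) - ((n:ℝ) + 1) * lb ((n:ℝ) + 1 + 1) + ((n:ℝ) + 1) * th2 (n + 1) := by ring
      rw [h10, h2, h3]
      ring
    have h9 : 0 ≤ ((n:ℝ) + 1) * (n * (th2 n - th2 (n + 1))) := by
      rw [h8]
      linarith
    have h10 : 0 ≤ n * (th2 n - th2 (n + 1)) := by
      by_contra h
      rw [not_le] at h
      have := mul_neg_of_pos_of_neg hn0 h
      linarith
    have h11 : 0 ≤ th2 n - th2 (n + 1) := by
      by_contra h
      rw [not_le] at h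
      have := mul_neg_of_pos_of_neg hn1 h
      linarith
    linarith

/-- the level of a weight -/
noncomputable def lev (v : ℝ) : ℕ := ⌈- lb v⌉₊

/-- lower weights -/
noncomputable def Psi (n : ℕ) (v : ℝ) : ℝ := 1 / 100 * v * max 0 (1 - (lb (n : ℝ) / lev v) ^ 2)

lemma two_pow_lb {x : ℝ} (hx : 0 < x) : (2:ℝ) ^ lb x = x := by
  unfold lb
  exact Real.rpow_logb (by norm_num) (by norm_num) hx

lemma lev_pos {v : ℝ} (hv : 0 < v) (hv1 : v ≤ 1 / 2) : 1 ≤ lev v := by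
  unfold lev
  rw [Nat.one_le_ceil_iff]
  have h1 : lb v ≤ lb (1 / 2) := lb_mono hv hv1
  have h2 : lb (1 / 2) = -1 := by
    rw [lb_eq, one_div, Real.log_inv, neg_div, div_self ln2_pos.ne']
  linarith

lemma lev_le {v : ℝ} (hv : 0 < v) : (2:ℝ) ^ (-(lev v : ℝ)) ≤ v := by
  have h1 : - lb v ≤ lev v := Nat.le_ceil _
  calc (2:ℝ) ^ (-(lev v : ℝ)) ≤ (2:ℝ) ^ lb v :=
        Real.rpow_le_rpow_of_exponent_le (by norm_num) (by linarith)
    _ = v := two_pow_lb hv

lemma lt_lev {v : ℝ} (hv : 0 < v) (hv1 : v ≤ 1 / 2) : v < 2 * (2:ℝ) ^ (-(lev v : ℝ)) := by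
  have h0 : 0 < - lb v := by
    have h1 : lb v ≤ lb (1 / 2) := lb_mono hv hv1
    have h2 : lb (1 / 2) = -1 := by
      rw [lb_eq, one_div, Real.log_inv, neg_div, div_self ln2_pos.ne']
    linarith
  have h1 : (lev v : ℝ) < - lb v + 1 := Nat.ceil_lt_add_one h0.le
  calc v = (2:ℝ) ^ lb v := (two_pow_lb hv).symm
    _ < (2:ℝ) ^ (1 + -(lev v : ℝ)) := Real.rpow_lt_rpow_of_exponent_lt (by norm_num) (by linarith)
    _ = 2 * (2:ℝ) ^ (-(lev v : ℝ)) := by rw [Real.rpow_add (by norm_num), Real.rpow_one]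

lemma Psi_nonneg (n : ℕ) {v : ℝ} (hv : 0 ≤ v) : 0 ≤ Psi n v := by
  unfold Psi
  have := le_max_left 0 (1 - (lb (n : ℝ) / lev v) ^ 2)
  positivity

lemma Psi_anti {m n : ℕ} (h : m ≤ n) {v : ℝ} (hv : 0 ≤ v) : Psi n v ≤ Psi m v := by
  unfold Psi
  apply mul_le_mul_of_nonneg_left _ (by positivity)
  apply max_le_max le_rfl
  have h1 : (lb (m : ℝ) / lev v) ^ 2 ≤ (lb (n : ℝ) / lev v) ^ 2 := by
    have h2 := lb_natmono h
    have h3 := lb_nat_nonneg m
    gcongr
  linarith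

lemma Psi_zero (v : ℝ) : Psi 0 v = 1 / 100 * v := by
  unfold Psi
  rw [Nat.cast_zero, lb_eq, Real.log_zero, zero_div, zero_div]
  norm_num

lemma Psi_one (v : ℝ) : Psi 1 v = 1 / 100 * v := by
  unfold Psi
  rw [Nat.cast_one, lb_eq, Real.log_one, zero_div, zero_div]
  norm_num

lemma Psi_small {n : ℕ} (hn : 1 ≤ n) {v : ℝ} (hv : 0 ≤ v) (hv1 : v ≤ 1 / 2) : Psi n v ≤ 2 / 100 / n := by
  have hn0 : (0:ℝ) < n := by exact_mod_cast hn
  rcases eq_or_lt_of_le hv with h0 | h0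
  · unfold Psi
    rw [← h0, mul_zero, zero_mul]
    positivity
  · have hl := lev_pos h0 hv1
    have hl0 : (0:ℝ) < lev v := by exact_mod_cast hl
    rcases le_or_gt (lev v : ℝ) (lb (n : ℝ)) with h1 | h1
    · have h2 : 1 ≤ (lb (n : ℝ) / lev v) ^ 2 := by
        have h3 : 1 ≤ lb (n : ℝ) / lev v := by rwa [le_div_iff₀ hl0, one_mul]
        nlinarith
      unfold Psi
      rw [max_eq_left (by linarith), mul_zero]
      positivity
    · have h2 : v < 2 * (2:ℝ) ^ (-lb (n:ℝ)) := by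
        refine (lt_lev h0 hv1).trans ?_
        apply mul_lt_mul_of_pos_left _ (by norm_num)
        exact Real.rpow_lt_rpow_of_exponent_lt (by norm_num) (by linarith)
      rw [Real.rpow_neg (by norm_num), two_pow_lb hn0] at h2
      have h3 : max 0 (1 - (lb (n : ℝ) / lev v) ^ 2) ≤ 1 := by
        apply max_le zero_le_one
        have := sq_nonneg (lb (n : ℝ) / lev v)
        linarith
      unfold Psi
      calc 1 / 100 * v * max 0 (1 - (lb (n : ℝ) / lev v) ^ 2) ≤ 1 / 100 * v * 1 :=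
            mul_le_mul_of_nonneg_left h3 (by positivity)
        _ ≤ 1 / 100 * (2 * (n:ℝ)⁻¹) * 1 := by
            apply mul_le_mul_of_nonneg_right _ zero_le_one
            exact mul_le_mul_of_nonneg_left h2.le (by norm_num)
        _ = 2 / 100 / n := by
            field_simp

lemma Psi_diff (n : ℕ) {v : ℝ} (hv : 0 ≤ v) (hv1 : v ≤ 1 / 2) :
    Psi n v - Psi (n + 1) v ≤ if lb (n:ℝ) < lev v then
      1 / 100 * (lb ((n + 1 : ℕ) : ℝ) ^ 2 - lb (n:ℝ) ^ 2) * (v / (lev v : ℝ) ^ 2) else 0 := by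
  rcases eq_or_lt_of_le hv with h0 | h0
  · unfold Psi
    rw [← h0, mul_zero, zero_mul, zero_mul, sub_zero, zero_div, mul_zero]
    split_ifs <;> exact le_rfl
  · have hl := lev_pos h0 hv1
    have hl0 : (0:ℝ) < lev v := by exact_mod_cast hl
    obtain ⟨a, ha⟩ : ∃ a, a = lb (n:ℝ) / lev v := ⟨_, rfl⟩
    obtain ⟨b, hb⟩ : ∃ b, b = lb ((n + 1 : ℕ):ℝ) / lev v := ⟨_, rfl⟩
    have hab : a ^ 2 ≤ b ^ 2 := by
      rw [ha, hb]
      have h2 := lb_natmono (Nat.le_succ n)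
      have h3 := lb_nat_nonneg n
      rw [Nat.succ_eq_add_one] at h2
      gcongr
    unfold Psi
    rw [← ha, ← hb]
    split_ifs with h1
    · have h2 : max 0 (1 - a ^ 2) - max 0 (1 - b ^ 2) ≤ b ^ 2 - a ^ 2 := by
        have h3 : 1 - b ^ 2 ≤ max 0 (1 - b ^ 2) := le_max_right _ _
        have h4 : 0 ≤ max 0 (1 - b ^ 2) := le_max_left _ _
        rcases max_cases 0 (1 - a ^ 2) with ⟨h5, h6⟩ | ⟨h5, h6⟩ <;> rw [h5] <;> linarith
      have h3 : 1 / 100 * (lb ((n + 1 : ℕ) : ℝ) ^ 2 - lb (n:ℝ) ^ 2) * (v / (lev v : ℝ) ^ 2) =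
          1 / 100 * v * (b ^ 2 - a ^ 2) := by
        rw [ha, hb]
        field_simp
      rw [h3, ← mul_sub]
      exact mul_le_mul_of_nonneg_left h2 (by positivity)
    · rw [not_lt] at h1
      have h2 : 1 ≤ a := by rwa [ha, le_div_iff₀ hl0, one_mul]
      have h3 : 1 ≤ a ^ 2 := by nlinarith
      rw [max_eq_left (by linarith), max_eq_left (by linarith)]
      simp

/-- sums of the weights of level at most `s` -/
lemma level_sum {v : ℕ → ℝ} (hv : ∀ j, 0 ≤ v j) (hV : ∀ D : Finset ℕ, ∑ j ∈ D, v j ≤ lb (D.card + 1))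
    (s : ℕ) (D : Finset ℕ) (hD : ∀ j ∈ D, lev (v j) ≤ s) : ∑ j ∈ D, v j ≤ 2 * s + 2 := by
  classical
  have h1 : ∑ j ∈ D, v j = ∑ j ∈ D.filter (fun j => 0 < v j), v j := by
    rw [Finset.sum_filter]
    refine Finset.sum_congr rfl fun j _ => ?_
    split_ifs with h
    · rfl
    · exact le_antisymm (not_lt.mp h) (hv j)
  rw [h1]
  obtain ⟨E, hE⟩ : ∃ E, E = D.filter (fun j => 0 < v j) := ⟨_, rfl⟩
  rw [← hE]
  have hE1 : ∀ j ∈ E, (2:ℝ) ^ (-(s:ℝ)) ≤ v j := by
    intro j hj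
    rw [hE, Finset.mem_filter] at hj
    refine le_trans ?_ (lev_le hj.2)
    apply Real.rpow_le_rpow_of_exponent_le (by norm_num)
    have : (lev (v j) : ℝ) ≤ s := by exact_mod_cast hD j hj.1
    linarith
  have h2 := hV E
  obtain ⟨y, hy⟩ : ∃ y, y = lb ((E.card : ℝ) + 1) := ⟨_, rfl⟩
  rw [← hy] at h2
  have hd0 : (0:ℝ) ≤ E.card := Nat.cast_nonneg _
  have hy2 : (2:ℝ) ^ y = E.card + 1 := by rw [hy]; exact two_pow_lb (by positivity)
  have h3 : (E.card : ℝ) * (2:ℝ) ^ (-(s:ℝ)) ≤ ∑ j ∈ E, v j := by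
    rw [← nsmul_eq_mul, ← Finset.sum_const]
    exact Finset.sum_le_sum hE1
  have h4 : (E.card : ℝ) * (2:ℝ) ^ (-(s:ℝ)) ≤ y := h3.trans h2
  have hy0 : 0 ≤ y := le_trans (by positivity) h4
  have hs0 : (0:ℝ) < (2:ℝ) ^ (s:ℝ) := by positivity
  have hs1 : (1:ℝ) ≤ (2:ℝ) ^ (s:ℝ) := Real.one_le_rpow (by norm_num) (Nat.cast_nonneg s)
  have h5 : (E.card : ℝ) ≤ (2:ℝ) ^ (s:ℝ) * y := by
    rw [Real.rpow_neg (by norm_num), ← div_eq_mul_inv, div_le_iff₀ hs0] at h4
    linarith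
  have h6 : (2:ℝ) ^ y ≤ (2:ℝ) ^ (s:ℝ) * (y + 1) := by
    rw [hy2]
    nlinarith
  have h7 : y + 1 ≤ 2 * (2:ℝ) ^ (y / 2) := by
    have h8 : (2:ℝ) ^ (y / 2) = Real.exp (Real.log 2 * (y / 2)) := Real.rpow_def_of_pos (by norm_num) _
    have h9 := Real.quadratic_le_exp_of_nonneg (x := Real.log 2 * (y / 2)) (by have := ln2_pos; positivity)
    have h10 := Real.log_two_gt_d9
    rw [h8]
    have h11 : 0.34 * y ≤ Real.log 2 * (y / 2) := by nlinarith
    nlinarith [sq_nonneg (y - 3), mul_self_nonneg (Real.log 2 * (y / 2) - 0.34 * y), h11]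
  have h8 : (2:ℝ) ^ (y / 2) * (2:ℝ) ^ (y / 2) = (2:ℝ) ^ y := by
    rw [← Real.rpow_add (by norm_num)]
    congr 1
    ring
  have hp : (0:ℝ) < (2:ℝ) ^ (y / 2) := by positivity
  have h9 : (2:ℝ) ^ (y / 2) ≤ (2:ℝ) ^ ((s:ℝ) + 1) := by
    rw [Real.rpow_add (by norm_num), Real.rpow_one]
    have h10 : (2:ℝ) ^ (y / 2) * (2:ℝ) ^ (y / 2) ≤ ((2:ℝ) ^ (s:ℝ) * 2) * (2:ℝ) ^ (y / 2) := by
      rw [h8]
      calc (2:ℝ) ^ y ≤ (2:ℝ) ^ (s:ℝ) * (y + 1) := h6
        _ ≤ (2:ℝ) ^ (s:ℝ) * (2 * (2:ℝ) ^ (y / 2)) := mul_le_mul_of_nonneg_left h7 hs0.le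
        _ = _ := by ring
    exact le_of_mul_le_mul_right h10 hp
  have h10 : y / 2 ≤ (s:ℝ) + 1 := (Real.rpow_le_rpow_left_iff (by norm_num)).mp h9
  linarith

/-- weighted sums over the high levels -/
lemma level_tail {v : ℕ → ℝ} (hv : ∀ j, 0 ≤ v j) (hV : ∀ D : Finset ℕ, ∑ j ∈ D, v j ≤ lb (D.card + 1))
    (D : Finset ℕ) (q : ℕ) (hq : 1 ≤ q) :
    ∑ j ∈ D.filter (fun j => q ≤ lev (v j)), v j / (lev (v j) : ℝ) ^ 2 ≤ 8 / q := by
  classical
  have hq0 : (0:ℝ) < q := by exact_mod_cast hq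
  -- sums up to a level
  have hmain : ∀ k : ℕ, ∑ j ∈ D.filter (fun j => q ≤ lev (v j) ∧ lev (v j) ≤ q + k), v j / (lev (v j) : ℝ) ^ 2 ≤
      (∑ j ∈ D.filter (fun j => q ≤ lev (v j) ∧ lev (v j) ≤ q + k), v j) / ((q:ℝ) + k) ^ 2 +
        8 * (1 / q - 1 / ((q:ℝ) + k)) := by
    intro k
    induction k with
    | zero =>
      simp only [Nat.cast_zero, add_zero, sub_self, mul_zero]
      rw [Finset.sum_div]
      apply le_of_eq
      refine Finset.sum_congr rfl fun j hj => ?_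
      rw [Finset.mem_filter] at hj
      have : lev (v j) = q := by omega
      rw [this]
    | succ k ih =>
      have hsplit : D.filter (fun j => q ≤ lev (v j) ∧ lev (v j) ≤ q + (k + 1)) =
          D.filter (fun j => q ≤ lev (v j) ∧ lev (v j) ≤ q + k) ∪ D.filter (fun j => lev (v j) = q + (k + 1)) := by
        ext j
        simp only [Finset.mem_filter, Finset.mem_union]
        constructor
        · rintro ⟨h1, h2, h3⟩
          by_cases h4 : lev (v j) = q + (k + 1)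
          · exact Or.inr ⟨h1, h4⟩
          · exact Or.inl ⟨h1, h2, by omega⟩
        · rintro (⟨h1, h2, h3⟩ | ⟨h1, h2⟩)
          · exact ⟨h1, h2, by omega⟩
          · exact ⟨h1, by omega, by omega⟩
      have hdisj : Disjoint (D.filter (fun j => q ≤ lev (v j) ∧ lev (v j) ≤ q + k))
          (D.filter (fun j => lev (v j) = q + (k + 1))) := by
        rw [Finset.disjoint_left]
        intro j h1 h2
        rw [Finset.mem_filter] at h1 h2
        omega
      rw [hsplit, Finset.sum_union hdisj, Finset.sum_union hdisj]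
      obtain ⟨T, hT⟩ : ∃ T, T = ∑ j ∈ D.filter (fun j => q ≤ lev (v j) ∧ lev (v j) ≤ q + k), v j := ⟨_, rfl⟩
      obtain ⟨a, ha⟩ : ∃ a, a = ∑ j ∈ D.filter (fun j => lev (v j) = q + (k + 1)), v j := ⟨_, rfl⟩
      obtain ⟨x, hx⟩ : ∃ x : ℝ, x = (q:ℝ) + k := ⟨_, rfl⟩
      have hx0 : 1 ≤ x := by
        rw [hx]
        have : (1:ℝ) ≤ q := by exact_mod_cast hq
        have : (0:ℝ) ≤ k := Nat.cast_nonneg k
        linarith
      rw [← hx, ← hT] at ih
      rw [← hT, ← ha]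
      have e1 : ∑ j ∈ D.filter (fun j => lev (v j) = q + (k + 1)), v j / (lev (v j) : ℝ) ^ 2 = a / (x + 1) ^ 2 := by
        rw [ha, Finset.sum_div]
        refine Finset.sum_congr rfl fun j hj => ?_
        rw [Finset.mem_filter] at hj
        rw [hj.2, hx]
        push_cast
        ring
      have e2 : ((q:ℝ) + ((k + 1 : ℕ) : ℝ)) = x + 1 := by
        rw [hx]
        push_cast
        ring
      rw [e1, e2]
      have hTb : T ≤ 4 * x := by
        have h1 := level_sum hv hV (q + k) (D.filter (fun j => q ≤ lev (v j) ∧ lev (v j) ≤ q + k)) (by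
          intro j hj
          rw [Finset.mem_filter] at hj
          exact hj.2.2)
        rw [← hT] at h1
        push_cast at h1
        rw [← hx] at h1
        linarith
      have h1 : T / x ^ 2 ≤ T / (x + 1) ^ 2 + 8 * (1 / x - 1 / (x + 1)) := by
        have h2 : T / x ^ 2 - T / (x + 1) ^ 2 = T * ((2 * x + 1) / (x ^ 2 * (x + 1) ^ 2)) := by
          have : x ≠ 0 := by linarith
          have : x + 1 ≠ 0 := by linarith
          field_simp
          ring
        have h3 : T * ((2 * x + 1) / (x ^ 2 * (x + 1) ^ 2)) ≤ 4 * x * ((2 * x + 1) / (x ^ 2 * (x + 1) ^ 2)) :=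
          mul_le_mul_of_nonneg_right hTb (by positivity)
        have h4 : 4 * x * ((2 * x + 1) / (x ^ 2 * (x + 1) ^ 2)) ≤ 4 * x * ((2 * x + 2) / (x ^ 2 * (x + 1) ^ 2)) := by
          apply mul_le_mul_of_nonneg_left _ (by linarith)
          apply div_le_div_of_nonneg_right _ (by positivity)
          linarith
        have h5 : 4 * x * ((2 * x + 2) / (x ^ 2 * (x + 1) ^ 2)) = 8 * (1 / x - 1 / (x + 1)) := by
          have : x ≠ 0 := by linarith
          have : x + 1 ≠ 0 := by linarith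
          field_simp
          ring
        linarith
      have h2 : (T + a) / (x + 1) ^ 2 = T / (x + 1) ^ 2 + a / (x + 1) ^ 2 := add_div _ _ _
      rw [h2]
      linarith
  obtain ⟨k, hk⟩ : ∃ k : ℕ, k = D.sup (fun j => lev (v j)) := ⟨_, rfl⟩
  have heq : D.filter (fun j => q ≤ lev (v j)) = D.filter (fun j => q ≤ lev (v j) ∧ lev (v j) ≤ q + k) := by
    apply Finset.filter_congr
    intro j hj
    have h1 : lev (v j) ≤ k := by
      rw [hk]
      exact Finset.le_sup (f := fun j => lev (v j)) hj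
    omega
  rw [heq]
  refine (hmain k).trans ?_
  have hT := level_sum hv hV (q + k) (D.filter (fun j => q ≤ lev (v j) ∧ lev (v j) ≤ q + k)) (by
    intro j hj
    rw [Finset.mem_filter] at hj
    exact hj.2.2)
  push_cast at hT
  obtain ⟨x, hx⟩ : ∃ x : ℝ, x = (q:ℝ) + k := ⟨_, rfl⟩
  rw [← hx] at hT ⊢
  have hx0 : 1 ≤ x := by
    rw [hx]
    have : (1:ℝ) ≤ q := by exact_mod_cast hq
    have : (0:ℝ) ≤ k := Nat.cast_nonneg k
    linarith
  have h1 : (∑ j ∈ D.filter (fun j => q ≤ lev (v j) ∧ lev (v j) ≤ q + k), v j) / x ^ 2 ≤ 4 / x := by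
    rw [div_le_div_iff₀ (by positivity) (by linarith)]
    nlinarith
  have h2 : (4:ℝ) / x = 4 * (1 / x) := by ring
  have h3 : (8:ℝ) / q = 8 * (1 / q) := by ring
  have h4 : 0 ≤ 1 / x := by positivity
  rw [h2] at h1
  rw [h3]
  linarith

theorem par2_log {V : Set (ℕ → ℝ)} (hne : V.Nonempty) (h0 : ∀ v ∈ V, ∀ j, 0 ≤ v j) (h1 : ∀ v ∈ V, ∀ j, v j ≤ 1 / 2)
    (hV : ∀ v ∈ V, ∀ D : Finset ℕ, ∑ j ∈ D, v j ≤ lb (D.card + 1)) : Par2 th2 Psi V where
  θpos := th2_pos
  θanti := th2_anti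
  vne := hne
  Ψnn := fun n v hv j => Psi_nonneg n (h0 v hv j)
  Ψanti := fun _ _ h v hv j => Psi_anti h (h0 v hv j)
  key := by
    classical
    intro n v hv i D
    rcases Nat.eq_zero_or_pos n with hn0 | hn
    · subst hn0
      rw [Nat.cast_zero, zero_mul, zero_add, zero_add, th2_one, Psi_zero]
      have e1 : ∑ j ∈ D, (Psi 0 (v j) - Psi 1 (v j)) = 0 := by
        apply Finset.sum_eq_zero
        intro j _
        rw [Psi_zero, Psi_one, sub_self]
      rw [e1]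
      have := h1 v hv i
      linarith
    · have hnr : (0:ℝ) < n := by exact_mod_cast hn
      have hn1 : (1:ℝ) ≤ n := by exact_mod_cast hn
      have hstep := th2_step hn
      have hsm := Psi_small hn (h0 v hv i) (h1 v hv i)
      obtain ⟨q, hq⟩ : ∃ q : ℕ, q = ⌊lb (n:ℝ)⌋₊ + 1 := ⟨_, rfl⟩
      have hq1 : 1 ≤ q := by omega
      have hlq : lb (n:ℝ) < q := by
        rw [hq]
        push_cast
        exact Nat.lt_floor_add_one _
      have hqr : (1:ℝ) ≤ q := by exact_mod_cast hq1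
      have htail := level_tail (h0 v hv) (hV v hv) D q hq1
      obtain ⟨δ, hδ⟩ : ∃ δ, δ = lb ((n + 1 : ℕ) : ℝ) ^ 2 - lb (n:ℝ) ^ 2 := ⟨_, rfl⟩
      have hln := lb_nat_nonneg n
      have hl1 : lb ((n + 1 : ℕ) : ℝ) ≤ lb (n:ℝ) + 2 / n := by
        have h2 : ((n + 1 : ℕ) : ℝ) = n * (1 + 1 / (n:ℝ)) := by
          push_cast
          field_simp
        rw [h2, lb_eq, Real.log_mul (by positivity) (by positivity), add_div, ← lb_eq]
        have h3 : Real.log (1 + 1 / (n:ℝ)) ≤ 1 / n := by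
          have := Real.log_le_sub_one_of_pos (x := 1 + 1 / (n:ℝ)) (by positivity)
          linarith
        have h4 : Real.log (1 + 1 / (n:ℝ)) / Real.log 2 ≤ 2 / n := by
          rw [div_le_iff₀ ln2_pos]
          have h5 := Real.log_two_gt_d9
          have h6 : 0 < 1 / (n:ℝ) := by positivity
          have h7 : 2 / (n:ℝ) = 2 * (1 / n) := by ring
          rw [h7]
          nlinarith
        linarith
      have hl2 : lb ((n + 1 : ℕ) : ℝ) ≤ lb (n:ℝ) + 1 := by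
        have h2 : ((n + 1 : ℕ) : ℝ) ≤ n * 2 := by
          push_cast
          linarith
        have h3 := lb_mono (by positivity) h2
        rw [lb_eq (n * 2), Real.log_mul (by positivity) (by norm_num), add_div, div_self ln2_pos.ne', ← lb_eq] at h3
        exact h3
      have hl0 : lb (n:ℝ) ≤ lb ((n + 1 : ℕ) : ℝ) := lb_natmono (Nat.le_succ n)
      have hδ0 : 0 ≤ δ := by rw [hδ]; nlinarith
      have hδ1 : δ ≤ 6 * q / n := by
        have e1 : δ = (lb ((n + 1 : ℕ) : ℝ) - lb (n:ℝ)) * (lb ((n + 1 : ℕ) : ℝ) + lb (n:ℝ)) := by rw [hδ]; ring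
        have h2 : lb ((n + 1 : ℕ) : ℝ) + lb (n:ℝ) ≤ 3 * q := by linarith
        rw [e1]
        calc (lb ((n + 1 : ℕ) : ℝ) - lb (n:ℝ)) * (lb ((n + 1 : ℕ) : ℝ) + lb (n:ℝ)) ≤ 2 / n * (3 * q) := by
              apply mul_le_mul (by linarith) h2 (by linarith) (by positivity)
          _ = 6 * q / n := by ring
      have hsum : ∑ j ∈ D, (Psi n (v j) - Psi (n + 1) (v j)) ≤ 48 / 100 / n := by
        calc ∑ j ∈ D, (Psi n (v j) - Psi (n + 1) (v j)) ≤
            ∑ j ∈ D, (if lb (n:ℝ) < lev (v j) then 1 / 100 * δ * (v j / (lev (v j) : ℝ) ^ 2) else 0) := by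
              refine Finset.sum_le_sum fun j _ => ?_
              rw [hδ]
              exact Psi_diff n (h0 v hv j) (h1 v hv j)
          _ = 1 / 100 * δ * ∑ j ∈ D.filter (fun j => q ≤ lev (v j)), v j / (lev (v j) : ℝ) ^ 2 := by
              rw [← Finset.sum_filter, Finset.mul_sum]
              apply Finset.sum_congr _ (fun _ _ => rfl)
              apply Finset.filter_congr
              intro j _
              rw [hq, Nat.succ_le_iff, Nat.floor_lt hln]
          _ ≤ 1 / 100 * δ * (8 / q) := mul_le_mul_of_nonneg_left htail (by positivity)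
          _ ≤ 1 / 100 * (6 * q / n) * (8 / q) := by
              apply mul_le_mul_of_nonneg_right _ (by positivity)
              exact mul_le_mul_of_nonneg_left hδ1 (by norm_num)
          _ = 48 / 100 / n := by
              have : (q:ℝ) ≠ 0 := by linarith
              field_simp
              norm_num
      have hfin : 2 / 100 / (n:ℝ) + 48 / 100 / n ≤ 1 / ((n:ℝ) + 1) := by
        rw [← add_div, div_le_div_iff₀ hnr (by linarith)]
        linarith
      linarith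

end Q80.DG
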