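import Pool.Agent.Q80.DG.Haar

/-!
The norm on `L_p` and its dual norm on `L_q`.
-/

set_option autoImplicit false

namespace Q80.DG

open Finset MeasureTheory Filter Topology Q98.SN
open scoped ENNReal
open Pool.Agent.Q98.SNDefs (leb haarFun IsHaar IsEquivalent Expands IsBasis IsOneGreedy)

section

variable {𝕜 : Type} [RCLike 𝕜]

/-- pairing with a function -/
noncomputable def pr (p q : ℝ≥0∞) [Fact (1 ≤ p)] [Fact (1 ≤ q)] [p.HolderConjugate q] :
    Lp 𝕜 p leb →L[𝕜] Lp 𝕜 q leb →L[𝕜] 𝕜 := (ContinuousLinearMap.mul 𝕜 𝕜).lpPairing leb p q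

lemma pr_apply (p q : ℝ≥0∞) [Fact (1 ≤ p)] [Fact (1 ≤ q)] [p.HolderConjugate q] (f : Lp 𝕜 p leb) (g : Lp 𝕜 q leb) :
    pr p q f g = ∫ t, f t * g t ∂leb := by
  unfold pr
  rw [ContinuousLinearMap.lpPairing_eq_integral]
  rfl

lemma pr_haar (p q : ℝ≥0∞) [Fact (1 ≤ p)] [Fact (1 ≤ q)] [p.HolderConjugate q]
    (hpq : p.toReal.HolderConjugate q.toReal) {h : ℕ → Lp 𝕜 p leb} {h' : ℕ → Lp 𝕜 q leb} (hh : IsHaar 𝕜 p h)
    (hh' : IsHaar 𝕜 q h') (i j : ℕ) : pr p q (h i) (h' j) = if i = j then 1 else 0 := by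
  rw [pr_apply]
  have h1 : ∫ t, h i t * h' j t ∂leb = ∫ t, ((haarFun p.toReal i t * haarFun q.toReal j t : ℝ) : 𝕜) ∂leb := by
    apply integral_congr_ae
    filter_upwards [hh i, hh' j] with t ht ht'
    rw [ht, ht']
    push_cast
    rfl
  rw [h1, integral_ofReal, biorth_real p q hpq]
  split_ifs <;> simp

lemma pr_coef (p q : ℝ≥0∞) [Fact (1 ≤ p)] [Fact (1 ≤ q)] [p.HolderConjugate q]
    (hpq : p.toReal.HolderConjugate q.toReal) {h : ℕ → Lp 𝕜 p leb} {h' : ℕ → Lp 𝕜 q leb} (hh : IsHaar 𝕜 p h)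
    (hh' : IsHaar 𝕜 q h') {a : ℕ → 𝕜} {g : Lp 𝕜 q leb} (hg : Expands h' a g) (i : ℕ) :
    pr p q (h i) g = a i := by
  have h1 : Tendsto (fun n => pr p q (h i) (∑ j ∈ range n, a j • h' j)) atTop (𝓝 (pr p q (h i) g)) :=
    ((pr p q (h i)).continuous.tendsto g).comp hg
  have h2 : Tendsto (fun n => pr p q (h i) (∑ j ∈ range n, a j • h' j)) atTop (𝓝 (a i)) := by
    apply tendsto_const_nhds.congr'
    filter_upwards [eventually_gt_atTop i] with n hn
    rw [map_sum]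
    simp only [map_smul, pr_haar p q hpq hh hh', smul_eq_mul, mul_ite, mul_one, mul_zero]
    rw [Finset.sum_ite_eq, if_pos (Finset.mem_range.mpr hn)]
  exact tendsto_nhds_unique h1 h2

theorem main_of (p q : ℝ≥0∞) [Fact (1 ≤ p)] [Fact (1 ≤ q)] [p.HolderConjugate q]
    (hpq : p.toReal.HolderConjugate q.toReal) {e : ℕ → Lp 𝕜 p leb} {c : ℕ → Lp 𝕜 p leb →L[𝕜] 𝕜} {s K C : ℝ}
    (H : GB e c s K C) (he : IsHaar 𝕜 p e) {h' : ℕ → Lp 𝕜 q leb} (hh' : IsHaar 𝕜 q h') :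
    IsBasis 𝕜 e ∧ ∃ N : Lp 𝕜 p leb → ℝ, ((∀ f, 0 ≤ N f) ∧ (∀ f, N f = 0 ↔ f = 0) ∧
      (∀ (t : 𝕜) (f : Lp 𝕜 p leb), N (t • f) = ‖t‖ * N f) ∧ ∀ f g, N (f + g) ≤ N f + N g) ∧
      IsEquivalent N ∧ IsOneGreedy 𝕜 e N ∧
      IsOneGreedy 𝕜 h' (fun g : Lp 𝕜 q leb =>
        sSup {r : ℝ | ∃ f : Lp 𝕜 p leb, N f ≤ 1 ∧ r = ‖∫ t, f t * g t ∂leb‖}) := by
  have hK := H.K1
  have hC := H.C1
  have hs := H.s0
  have hf := H.par.c0
  refine ⟨?_, NN c s C, ⟨H.NN_nonneg, H.NN_zero_iff, H.NN_smul, H.NN_add⟩,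
    ⟨fc s C / (K * C), C * K / s + 1, by positivity, by positivity, fun f => ⟨H.norm_le f, H.NN_le f⟩⟩, ?_, ?_⟩
  · intro f
    refine ⟨fun j => c j f, (H.exp f).tendsto_sum_nat, ?_⟩
    intro a ha
    funext j
    exact (expands_unique H.bi ha j).symm
  · intro f a ha A hA B b hBA
    have e1 : ∀ j, a j = c j f := fun j => (expands_unique H.bi ha j).symm
    have h1 := H.greedy f A B hBA (fun i hi j hj => by
      have := hA i hi j hj
      rw [e1 i, e1 j] at this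
      exact this) b
    have e2 : ∑ j ∈ A, a j • e j = ∑ j ∈ A, c j f • e j :=
      Finset.sum_congr rfl fun j _ => by rw [e1 j]
    rw [e2]
    exact h1
  · intro g a ha A hA B b hBA
    have hDN : ∀ g : Lp 𝕜 q leb, sSup {r : ℝ | ∃ f : Lp 𝕜 p leb, NN c s C f ≤ 1 ∧ r = ‖∫ t, f t * g t ∂leb‖} =
        DN c s C ((pr (𝕜 := 𝕜) p q).flip g) := by
      intro g
      unfold DN
      congr 1
      ext r
      simp only [Set.mem_ofPred_eq, ContinuousLinearMap.flip_apply, pr_apply]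
    dsimp only
    rw [hDN, hDN]
    have hco : ∀ j, (pr (𝕜 := 𝕜) p q).flip g (e j) = a j := by
      intro j
      rw [ContinuousLinearMap.flip_apply]
      exact pr_coef p q hpq he hh' ha j
    have hsum : ∀ (S : Finset ℕ) (b : ℕ → 𝕜) (j : ℕ), (pr (𝕜 := 𝕜) p q).flip (g - ∑ i ∈ S, b i • h' i) (e j) =
        a j - if j ∈ S then b j else 0 := by
      intro S b j
      rw [ContinuousLinearMap.flip_apply, map_sub, map_sum]
      have h1 := hco j
      rw [ContinuousLinearMap.flip_apply] at h1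
      rw [h1]
      simp only [map_smul, pr_haar p q hpq he hh', smul_eq_mul, mul_ite, mul_one, mul_zero]
      rw [Finset.sum_ite_eq]
    apply H.dual_greedy ((pr (𝕜 := 𝕜) p q).flip g) _ _ A B hBA
    · intro i hi j hj
      rw [hco, hco]
      exact hA i hi j hj
    · intro j
      rw [hsum, hco]
      split_ifs
      · exact sub_self _
      · exact sub_zero _
    · intro j hj
      rw [hsum, hco, if_neg hj, sub_zero]

end

theorem conj_real {p q : ℝ≥0∞} (h1 : 1 < p) (hpt : p ≠ ∞) (hpq : p⁻¹ + q⁻¹ = 1) :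
    p.toReal.HolderConjugate q.toReal := by
  haveI : p.HolderConjugate q := ENNReal.holderConjugate_iff.mpr hpq
  exact ENNReal.HolderConjugate.toReal (H75R3.P_gt p h1 hpt)

/-- the conjugate exponent is in the same range -/
theorem conj_range {p q : ℝ≥0∞} (h1 : 1 < p) (hpt : p ≠ ∞) (h2 : p ≠ 2) (hpq : p⁻¹ + q⁻¹ = 1) :
    1 < q ∧ q ≠ ∞ ∧ q ≠ 2 := by
  have h := conj_real h1 hpt hpq
  have hq := h.symm.lt
  have hqt : q ≠ ∞ := by
    rintro rfl
    rw [ENNReal.toReal_top] at hq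
    linarith
  have hq0 : 1 < q := by
    rw [← ENNReal.ofReal_toReal hqt, ← ENNReal.ofReal_one]
    exact (ENNReal.ofReal_lt_ofReal_iff (by linarith)).mpr hq
  refine ⟨hq0, hqt, ?_⟩
  rintro rfl
  apply h2
  have h3 := h.inv_add_inv_eq_one
  rw [ENNReal.toReal_ofNat] at h3
  have h4 : p.toReal = 2 := by
    have h5 : (p.toReal)⁻¹ = 2⁻¹ := by linarith [h3, (by norm_num : (1:ℝ) - 2⁻¹ = 2⁻¹)]
    exact inv_injective h5
  rw [← ENNReal.ofReal_toReal hpt, h4]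
  simp

end Q80.DG
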