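import Pool.Agent.Q80.DG.Core

/-!
The power weights.
-/

set_option autoImplicit false

namespace Q80.DG

open Finset

/-- `θ n = max(n, 1) ^ (-s)` -/
noncomputable def th (s : ℝ) (n : ℕ) : ℝ := ((max n 1 : ℕ) : ℝ) ^ (-s)

lemma th_base_pos (n : ℕ) : (0:ℝ) < ((max n 1 : ℕ) : ℝ) := by
  exact_mod_cast lt_of_lt_of_le Nat.one_pos (le_max_right n 1)

lemma th_pos (s : ℝ) (n : ℕ) : 0 < th s n := Real.rpow_pos_of_pos (th_base_pos n) _

lemma th_one (s : ℝ) : th s 1 = 1 := by
  unfold th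
  rw [max_self, Nat.cast_one, Real.one_rpow]

lemma th_zero (s : ℝ) : th s 0 = 1 := by
  unfold th
  rw [max_eq_right (Nat.zero_le 1), Nat.cast_one, Real.one_rpow]

lemma th_anti {s : ℝ} (hs : 0 ≤ s) : Antitone (th s) := by
  intro m n hmn
  unfold th
  apply Real.rpow_le_rpow_of_nonpos (th_base_pos m) _ (by linarith)
  exact_mod_cast max_le_max hmn le_rfl

lemma th_eq (s : ℝ) {n : ℕ} (hn : 1 ≤ n) : th s n = (n : ℝ) ^ (-s) := by
  unfold th
  rw [max_eq_left hn]

lemma th_step {s : ℝ} (hs : 0 < s) (hs1 : s ≤ 1) {n : ℕ} (hn : 1 ≤ n) :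
    n * (th s n - th s (n + 1)) ≤ s * th s (n + 1) := by
  have hn0 : (0:ℝ) < n := by exact_mod_cast hn
  have h1 : th s n = th s (n + 1) * (1 + 1 / (n:ℝ)) ^ s := by
    rw [th_eq s hn, th_eq s (by omega : 1 ≤ n + 1)]
    have h2 : (1 + 1 / (n:ℝ)) = ((n + 1 : ℕ) : ℝ) / n := by
      push_cast
      field_simp
    rw [h2, Real.div_rpow (by positivity) hn0.le, Real.rpow_neg hn0.le,
      Real.rpow_neg (Nat.cast_nonneg (n + 1))]
    have h3 : (0:ℝ) < ((n + 1 : ℕ) : ℝ) ^ s := by positivity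
    have h4 : (0:ℝ) < (n:ℝ) ^ s := by positivity
    field_simp
  have h2 : (1 + 1 / (n:ℝ)) ^ s ≤ 1 + s * (1 / n) := by
    apply rpow_one_add_le_one_add_mul_self _ hs.le hs1
    have : 0 < 1 / (n:ℝ) := by positivity
    linarith
  have h3 := th_pos s (n + 1)
  have h4 : th s n ≤ th s (n + 1) * (1 + s * (1 / n)) := by
    rw [h1]
    exact mul_le_mul_of_nonneg_left h2 h3.le
  calc n * (th s n - th s (n + 1)) ≤ n * (th s (n + 1) * (1 + s * (1 / n)) - th s (n + 1)) :=
        mul_le_mul_of_nonneg_left (by linarith) hn0.le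
    _ = s * th s (n + 1) := by
        field_simp
        ring

/-- the factor `c` -/
noncomputable def cc (s M : ℝ) : ℝ := (1 - s) / (2 * (2 * s * M + 1 + s))

lemma cc_pos {s M : ℝ} (hs : 0 < s) (hs1 : s < 1) (hM : 0 ≤ M) : 0 < cc s M := by
  unfold cc
  apply div_pos (by linarith)
  have : 0 ≤ 2 * s * M := by positivity
  linarith

lemma cc_le {s M : ℝ} (hs : 0 < s) (hs1 : s < 1) (hM : 0 ≤ M) : cc s M ≤ 1 := by
  unfold cc
  have : 0 ≤ 2 * s * M := by positivity
  rw [div_le_one (by linarith)]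
  linarith

lemma cc_eq {s M : ℝ} (hs : 0 < s) (hM : 0 ≤ M) : cc s M * (2 * s * M + 1 + s) = (1 - s) / 2 := by
  unfold cc
  have : 0 ≤ 2 * s * M := by positivity
  have h2 : 2 * s * M + 1 + s ≠ 0 := by linarith
  field_simp

theorem par_of {s M : ℝ} (hs : 0 < s) (hs1 : s < 1) (hM : 0 ≤ M) {V : Set (ℕ → ℝ)} (hV : V.Nonempty)
    (hVn : ∀ v ∈ V, ∀ j, 0 ≤ v j)
    (hVM : ∀ v ∈ V, ∀ (n : ℕ) (D : Finset ℕ), (∀ j ∈ D, th s (n + 1) < v j) → (D.card : ℝ) ≤ M * (n + 1)) :
    Par (th s) V (cc s M) ((1 + s) / 2) where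
  θpos := th_pos s
  θanti := th_anti hs.le
  θone := th_one s
  c0 := cc_pos hs hs1 hM
  c1 := cc_le hs hs1 hM
  κ0 := by linarith
  κ1 := by linarith
  vne := hV
  vnn := hVn
  key := by
    intro n v hv D hD
    have hc0 := cc_pos hs hs1 hM
    have hc1 := cc_le hs hs1 hM
    have hc := cc_eq hs hM
    obtain ⟨c, hcdef⟩ : ∃ c, c = cc s M := ⟨_, rfl⟩
    rw [← hcdef] at hc0 hc1 hc ⊢
    rcases Nat.eq_zero_or_pos n with h0 | hn
    · subst h0
      rw [zero_add, th_zero, th_one, sub_self, zero_mul, mul_one]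
      apply mul_nonneg (by linarith)
      linarith
    · obtain ⟨a, ha⟩ : ∃ a, a = th s n := ⟨_, rfl⟩
      obtain ⟨b, hb⟩ : ∃ b, b = th s (n + 1) := ⟨_, rfl⟩
      have hstep := th_step hs hs1.le hn
      have hb0 := th_pos s (n + 1)
      have hab := th_anti hs.le (Nat.le_succ n)
      have hD' := hVM v hv n D hD
      rw [Nat.succ_eq_add_one] at hab
      rw [← ha, ← hb] at hstep hab ⊢
      rw [← hb] at hb0
      have hn1 : (1:ℝ) ≤ n := by exact_mod_cast hn
      have hd : 0 ≤ a - b := by linarith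
      have h1 : a - b ≤ s * b := by
        calc a - b = 1 * (a - b) := (one_mul _).symm
          _ ≤ n * (a - b) := mul_le_mul_of_nonneg_right hn1 hd
          _ ≤ s * b := hstep
      have h2 : (a - b) * (n + 1) ≤ 2 * (s * b) := by
        calc (a - b) * (n + 1) = n * (a - b) + (a - b) := by ring
          _ ≤ 2 * (s * b) := by linarith
      have h3 : (a - b) * (c * D.card) ≤ c * (M * (2 * (s * b))) := by
        calc (a - b) * (c * D.card) ≤ (a - b) * (c * (M * (n + 1))) :=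
              mul_le_mul_of_nonneg_left (mul_le_mul_of_nonneg_left hD' hc0.le) hd
          _ = c * (M * ((a - b) * (n + 1))) := by ring
          _ ≤ c * (M * (2 * (s * b))) :=
              mul_le_mul_of_nonneg_left (mul_le_mul_of_nonneg_left h2 hM) hc0.le
      have h4 : a ≤ 2 * b := by nlinarith
      have h5 : (1 + s) / 2 * (b - c * (2 * b)) ≤ (1 + s) / 2 * (b - c * a) := by
        apply mul_le_mul_of_nonneg_left _ (by linarith)
        have := mul_le_mul_of_nonneg_left h4 hc0.le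
        linarith
      have h6 : s * b + c * (M * (2 * (s * b))) ≤ (1 + s) / 2 * (b - c * (2 * b)) := by
        have h7 : (1 + s) / 2 * (b - c * (2 * b)) - (s * b + c * (M * (2 * (s * b)))) =
            b * ((1 - s) / 2 - c * (2 * s * M + 1 + s)) := by ring
        rw [hc, sub_self, mul_zero] at h7
        linarith
      calc (a - b) * (n + c * D.card) = n * (a - b) + (a - b) * (c * D.card) := by ring
        _ ≤ s * b + c * (M * (2 * (s * b))) := add_le_add hstep h3
        _ ≤ _ := h6.trans h5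

/-- the sum of a finite family with a weak bound -/
lemma sum_weak {s M : ℝ} (hs : 0 < s) (hs1 : s < 1) (hM : 0 ≤ M) (u : ℕ → ℝ) (hu : ∀ j, 0 ≤ u j)
    (hw : ∀ (A : Finset ℕ) (t : ℝ), 0 < t → (∀ j ∈ A, t ≤ u j) → t * (A.card : ℝ) ^ (1 - s) ≤ M) :
    ∀ (n : ℕ) (B : Finset ℕ), B.card = n → ∑ j ∈ B, u j ≤ M / s * (n : ℝ) ^ s := by
  classical
  intro n
  induction n with
  | zero =>
    intro B hB
    rw [Finset.card_eq_zero.mp hB, Finset.sum_empty, Nat.cast_zero, Real.zero_rpow hs.ne', mul_zero]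
  | succ n ih =>
    intro B hB
    have hne : B.Nonempty := Finset.card_pos.mp (by omega)
    obtain ⟨i, hi, hmin⟩ := B.exists_min_image u hne
    have h1 : ∑ j ∈ B, u j = ∑ j ∈ B.erase i, u j + u i := (Finset.sum_erase_add _ _ hi).symm
    have h2 := ih (B.erase i) (by rw [Finset.card_erase_of_mem hi, hB]; rfl)
    have hn1 : (0:ℝ) < (n:ℝ) + 1 := by positivity
    have hpow : (0:ℝ) < ((n:ℝ) + 1) ^ (1 - s) := by positivity
    have h3 : u i ≤ M * ((n:ℝ) + 1) ^ (s - 1) := by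
      rcases eq_or_lt_of_le (hu i) with h0 | h0
      · rw [← h0]
        positivity
      · have h4 := hw B (u i) h0 hmin
        rw [hB] at h4
        push_cast at h4
        have h5 : ((n:ℝ) + 1) ^ (s - 1) = (((n:ℝ) + 1) ^ (1 - s))⁻¹ := by
          rw [← Real.rpow_neg hn1.le]
          congr 1
          ring
        rw [h5, ← div_eq_mul_inv, le_div_iff₀ hpow]
        exact h4
    have h4 : ((n:ℝ)) ^ s + s * ((n:ℝ) + 1) ^ (s - 1) ≤ ((n:ℝ) + 1) ^ s := by
      have h5 : (1 + (-1 / ((n:ℝ) + 1))) ^ s ≤ 1 + s * (-1 / ((n:ℝ) + 1)) := by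
        apply rpow_one_add_le_one_add_mul_self _ hs.le hs1.le
        rw [le_div_iff₀ hn1]
        have : (0:ℝ) ≤ n := Nat.cast_nonneg n
        linarith
      have h6 : (1 + (-1 / ((n:ℝ) + 1))) = (n:ℝ) / (n + 1) := by
        field_simp
        ring
      rw [h6, Real.div_rpow (Nat.cast_nonneg n) hn1.le, div_le_iff₀ (by positivity)] at h5
      have h7 : ((n:ℝ) + 1) ^ (s - 1) = ((n:ℝ) + 1) ^ s / (n + 1) := by
        rw [Real.rpow_sub hn1, Real.rpow_one]
      rw [h7]
      have h8 : (1 + s * (-1 / ((n:ℝ) + 1))) * ((n:ℝ) + 1) ^ s =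
          ((n:ℝ) + 1) ^ s - s * (((n:ℝ) + 1) ^ s / (n + 1)) := by
        field_simp
        ring
      rw [h8] at h5
      linarith
    rw [h1]
    push_cast
    calc ∑ j ∈ B.erase i, u j + u i ≤ M / s * (n:ℝ) ^ s + M * ((n:ℝ) + 1) ^ (s - 1) := add_le_add h2 h3
      _ = M / s * ((n:ℝ) ^ s + s * ((n:ℝ) + 1) ^ (s - 1)) := by field_simp
      _ ≤ M / s * ((n:ℝ) + 1) ^ s := mul_le_mul_of_nonneg_left h4 (by positivity)

end Q80.DG
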