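import Pool.Agent.Q80.DG.SchlDefs
import Pool.Agent.Q80.DG.LogKey

/-!
Schlumprecht's norm: existence, uniqueness and the estimates which are needed.
-/

set_option autoImplicit false

namespace Q80.DG

open Finset Pool.Agent.Q80.SchlDefs

/-- the norming functionals -/
inductive KF : (ℕ → ℝ) → Prop
  | zero : KF (fun _ => 0)
  | unit (j : ℕ) (ε : ℝ) (hε : ε = 1 ∨ ε = -1) : KF (fun k => if k = j then ε else 0)
  | comb (n : ℕ) (hn : 2 ≤ n) (a b : Fin n → ℕ) (hab : ∀ i, a i ≤ b i) (hlt : ∀ i j, i < j → b i < a j)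
      (f : Fin n → ℕ → ℝ) (hsup : ∀ i k, ¬ (a i ≤ k ∧ k ≤ b i) → f i k = 0) (hf : ∀ i, KF (f i)) :
      KF (fun k => (∑ i, f i k) / Real.logb 2 ((n : ℝ) + 1))

/-- pairing -/
noncomputable def pa (f : ℕ → ℝ) (x : ℕ →₀ ℝ) : ℝ := ∑ j ∈ x.support, f j * x j

lemma pa_eq (f : ℕ → ℝ) (x : ℕ →₀ ℝ) (F : Finset ℕ) (hF : x.support ⊆ F) : pa f x = ∑ j ∈ F, f j * x j := by
  unfold pa
  apply Finset.sum_subset hF
  intro j _ hj
  rw [Finsupp.notMem_support_iff.mp hj, mul_zero]

lemma L_pos' {n : ℕ} (hn : 2 ≤ n) : 1 < Real.logb 2 ((n : ℝ) + 1) := by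
  rw [Real.lt_logb_iff_rpow_lt (by norm_num) (by positivity), Real.rpow_one]
  have : (2:ℝ) ≤ n := by exact_mod_cast hn
  linarith

lemma L_ge {n : ℕ} (hn : 2 ≤ n) : Real.logb 2 3 ≤ Real.logb 2 ((n : ℝ) + 1) := by
  apply Real.logb_le_logb_of_le (by norm_num) (by norm_num)
  have : (2:ℝ) ≤ n := by exact_mod_cast hn
  linarith

lemma disj_int {n : ℕ} {a b : Fin n → ℕ} (hlt : ∀ i j, i < j → b i < a j) {i j : Fin n} {k : ℕ}
    (hi : a i ≤ k ∧ k ≤ b i) (hj : a j ≤ k ∧ k ≤ b j) : i = j := by
  by_contra h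
  rcases lt_or_gt_of_ne h with h1 | h1
  · have := hlt i j h1
    omega
  · have := hlt j i h1
    omega

lemma sum_single {n : ℕ} {a b : Fin n → ℕ} (hlt : ∀ i j, i < j → b i < a j) {f : Fin n → ℕ → ℝ}
    (hsup : ∀ i k, ¬ (a i ≤ k ∧ k ≤ b i) → f i k = 0) {i : Fin n} {k : ℕ} (hi : a i ≤ k ∧ k ≤ b i) :
    ∑ i, f i k = f i k := by
  apply Finset.sum_eq_single i
  · intro j _ hj
    apply hsup
    intro h
    exact hj (disj_int hlt h hi)
  · intro h
    exact absurd (Finset.mem_univ i) h

lemma KF.abs_le {f : ℕ → ℝ} (h : KF f) : ∀ k, |f k| ≤ 1 := by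
  induction h with
  | zero =>
    intro k
    rw [abs_zero]
    exact zero_le_one
  | unit j ε hε =>
    intro k
    dsimp only
    split_ifs
    · rcases hε with h | h <;> rw [h] <;> simp
    · rw [abs_zero]
      exact zero_le_one
  | comb n hn a b hab hlt f hsup hf ih =>
    intro k
    have hL := L_pos' hn
    dsimp only
    rw [abs_div, abs_of_pos (by linarith : 0 < Real.logb 2 ((n:ℝ) + 1)), div_le_one (by linarith)]
    by_cases h : ∃ i, a i ≤ k ∧ k ≤ b i
    · obtain ⟨i, hi⟩ := h
      rw [sum_single hlt hsup hi]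
      exact (ih i k).trans hL.le
    · have h1 : ∑ i, f i k = 0 := Finset.sum_eq_zero fun i _ => hsup i k fun h2 => h ⟨i, h2⟩
      rw [h1, abs_zero]
      linarith

lemma KF.mul {f : ℕ → ℝ} (h : KF f) : ∀ η : ℕ → ℝ, (∀ k, η k = 0 ∨ η k = 1 ∨ η k = -1) → KF (fun k => η k * f k) := by
  induction h with
  | zero =>
    intro η _
    simp only [mul_zero]
    exact KF.zero
  | unit j ε hε =>
    intro η hη
    have e1 : (fun k => η k * if k = j then ε else 0) = fun k => if k = j then η j * ε else 0 := by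
      funext k
      split_ifs with h
      · rw [h]
      · exact mul_zero _
    rw [e1]
    rcases hη j with h1 | h1 | h1
    · rw [h1, zero_mul]
      simp only [ite_self]
      exact KF.zero
    · rw [h1, one_mul]
      exact KF.unit j ε hε
    · rw [h1]
      apply KF.unit
      rcases hε with h | h <;> rw [h] <;> simp
  | comb n hn a b hab hlt f hsup hf ih =>
    intro η hη
    have e1 : (fun k => η k * ((∑ i, f i k) / Real.logb 2 ((n : ℝ) + 1))) =
        fun k => (∑ i, (fun k => η k * f i k) k) / Real.logb 2 ((n : ℝ) + 1) := by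
      funext k
      rw [← mul_div_assoc, Finset.mul_sum]
    rw [e1]
    exact KF.comb n hn a b hab hlt (fun i k => η k * f i k) (fun i k h => by
      rw [hsup i k h, mul_zero]) (fun i => ih i η hη)

/-- the norm -/
noncomputable def sg (x : ℕ →₀ ℝ) : ℝ := sSup {r | ∃ f, KF f ∧ r = pa f x}

lemma pa_le {f : ℕ → ℝ} (h : KF f) (x : ℕ →₀ ℝ) : pa f x ≤ ∑ j ∈ x.support, |x j| := by
  unfold pa
  refine Finset.sum_le_sum fun j _ => ?_
  calc f j * x j ≤ |f j * x j| := le_abs_self _
    _ = |f j| * |x j| := abs_mul _ _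
    _ ≤ 1 * |x j| := mul_le_mul_of_nonneg_right (h.abs_le j) (abs_nonneg _)
    _ = |x j| := one_mul _

lemma sg_bdd (x : ℕ →₀ ℝ) : BddAbove {r | ∃ f, KF f ∧ r = pa f x} := by
  refine ⟨∑ j ∈ x.support, |x j|, ?_⟩
  rintro r ⟨f, hf, rfl⟩
  exact pa_le hf x

lemma sg_ne (x : ℕ →₀ ℝ) : {r | ∃ f, KF f ∧ r = pa f x}.Nonempty := ⟨_, _, KF.zero, rfl⟩

lemma le_sg {f : ℕ → ℝ} (h : KF f) (x : ℕ →₀ ℝ) : pa f x ≤ sg x := le_csSup (sg_bdd x) ⟨f, h, rfl⟩

lemma sg_le {x : ℕ →₀ ℝ} {M : ℝ} (h : ∀ f, KF f → pa f x ≤ M) : sg x ≤ M := by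
  apply csSup_le (sg_ne x)
  rintro r ⟨f, hf, rfl⟩
  exact h f hf

lemma sg_nonneg (x : ℕ →₀ ℝ) : 0 ≤ sg x := by
  refine le_trans (le_of_eq ?_) (le_sg KF.zero x)
  unfold pa
  simp

/-- sign function with values `0, 1, -1` -/
noncomputable def sn (t : ℝ) : ℝ := if t = 0 then 0 else if 0 < t then 1 else -1

lemma sn_cases (t : ℝ) : sn t = 0 ∨ sn t = 1 ∨ sn t = -1 := by
  unfold sn
  split_ifs <;> simp

lemma sn_mul (t : ℝ) : sn t * t = |t| := by
  unfold sn
  split_ifs with h1 h2
  · rw [h1, mul_zero, abs_zero]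
  · rw [one_mul, abs_of_pos h2]
  · have : t < 0 := lt_of_le_of_ne (not_lt.mp h2) h1
    rw [abs_of_neg this]
    ring

/-- lattice property -/
lemma sg_mono {x y : ℕ →₀ ℝ} (h : ∀ j, |x j| ≤ |y j|) : sg x ≤ sg y := by
  classical
  refine sg_le fun f hf => ?_
  refine le_trans ?_ (le_sg (hf.mul (fun k => sn (f k * y k)) (fun k => sn_cases _)) y)
  rw [pa_eq _ x (x.support ∪ y.support) Finset.subset_union_left,
    pa_eq _ y (x.support ∪ y.support) Finset.subset_union_right]
  refine Finset.sum_le_sum fun j _ => ?_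
  have h1 : sn (f j * y j) * f j * y j = |f j| * |y j| := by
    rw [mul_assoc, sn_mul, abs_mul]
  rw [h1]
  calc f j * x j ≤ |f j * x j| := le_abs_self _
    _ = |f j| * |x j| := abs_mul _ _
    _ ≤ |f j| * |y j| := mul_le_mul_of_nonneg_left (h j) (abs_nonneg _)

lemma abs_le_sg (x : ℕ →₀ ℝ) (j : ℕ) : |x j| ≤ sg x := by
  classical
  rcases eq_or_ne (x j) 0 with h0 | h0
  · rw [h0, abs_zero]
    exact sg_nonneg x
  · have h1 : KF (fun k => if k = j then sn (x j) else 0) := by
      apply KF.unit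
      rcases sn_cases (x j) with h | h
      · exfalso
        unfold sn at h
        rw [if_neg h0] at h
        split_ifs at h <;> norm_num at h
      · exact h
    refine le_trans (le_of_eq ?_) (le_sg h1 x)
    unfold pa
    rw [← sn_mul, Finset.sum_eq_single j]
    · dsimp only
      rw [if_pos rfl]
    · intro i _ hi
      dsimp only
      rw [if_neg hi, zero_mul]
    · intro h
      rw [Finsupp.notMem_support_iff.mp h, mul_zero]

lemma pa_add (f : ℕ → ℝ) (x y : ℕ →₀ ℝ) : pa f (x + y) = pa f x + pa f y := by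
  classical
  rw [pa_eq f (x + y) (x.support ∪ y.support) Finsupp.support_add,
    pa_eq f x (x.support ∪ y.support) Finset.subset_union_left,
    pa_eq f y (x.support ∪ y.support) Finset.subset_union_right, ← Finset.sum_add_distrib]
  refine Finset.sum_congr rfl fun j _ => ?_
  rw [Finsupp.add_apply]
  ring

lemma pa_smul (f : ℕ → ℝ) (t : ℝ) (x : ℕ →₀ ℝ) : pa f (t • x) = t * pa f x := by
  rw [pa_eq f (t • x) x.support Finsupp.support_smul, pa, Finset.mul_sum]
  refine Finset.sum_congr rfl fun j _ => ?_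
  rw [Finsupp.smul_apply, smul_eq_mul]
  ring

lemma sg_add (x y : ℕ →₀ ℝ) : sg (x + y) ≤ sg x + sg y := by
  refine sg_le fun f hf => ?_
  rw [pa_add]
  exact add_le_add (le_sg hf x) (le_sg hf y)

lemma sg_smul_le (t : ℝ) (x : ℕ →₀ ℝ) : sg (t • x) ≤ |t| * sg x := by
  refine sg_le fun f hf => ?_
  rw [pa_smul]
  rcases le_total 0 t with h | h
  · rw [abs_of_nonneg h]
    exact mul_le_mul_of_nonneg_left (le_sg hf x) h
  · rw [abs_of_nonpos h]
    have h1 := le_sg (hf.mul (fun _ => -1) (fun _ => Or.inr (Or.inr rfl))) x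
    have h2 : pa (fun k => -1 * f k) x = - pa f x := by
      unfold pa
      rw [← Finset.sum_neg_distrib]
      exact Finset.sum_congr rfl fun j _ => by ring
    rw [h2] at h1
    nlinarith

lemma sg_smul (t : ℝ) (x : ℕ →₀ ℝ) : sg (t • x) = |t| * sg x := by
  apply le_antisymm (sg_smul_le t x)
  rcases eq_or_ne t 0 with h | h
  · rw [h, abs_zero, zero_mul]
    exact sg_nonneg _
  · have h1 := sg_smul_le t⁻¹ (t • x)
    rw [smul_smul, inv_mul_cancel₀ h, one_smul, abs_inv, inv_mul_eq_div, le_div_iff₀ (abs_pos.mpr h)] at h1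
    linarith

lemma sg_zero_iff (x : ℕ →₀ ℝ) : sg x = 0 ↔ x = 0 := by
  constructor
  · intro h
    ext j
    have := abs_le_sg x j
    rw [h] at this
    exact abs_nonpos_iff.mp this
  · rintro rfl
    have := sg_smul 0 (0 : ℕ →₀ ℝ)
    rwa [smul_zero, abs_zero, zero_mul] at this

lemma restr_apply (a b : ℕ) (x : ℕ →₀ ℝ) (k : ℕ) : restr a b x k = if a ≤ k ∧ k ≤ b then x k else 0 := by
  unfold restr
  rw [Finsupp.filter_apply]

lemma restr_support (a b : ℕ) (x : ℕ →₀ ℝ) : (restr a b x).support ⊆ x.support := by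
  intro k hk
  rw [Finsupp.mem_support_iff, restr_apply] at hk
  rw [Finsupp.mem_support_iff]
  intro h
  apply hk
  rw [h, ite_self]

lemma pa_restr (f : ℕ → ℝ) (a b : ℕ) (x : ℕ →₀ ℝ) (hf : ∀ k, ¬ (a ≤ k ∧ k ≤ b) → f k = 0) :
    pa f (restr a b x) = pa f x := by
  rw [pa_eq f _ x.support (restr_support a b x)]
  unfold pa
  refine Finset.sum_congr rfl fun k _ => ?_
  rw [restr_apply]
  split_ifs with h
  · rfl
  · rw [hf k h, zero_mul, zero_mul]

lemma pa_comb {n : ℕ} (f : Fin n → ℕ → ℝ) (L : ℝ) (x : ℕ →₀ ℝ) :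
    pa (fun k => (∑ i, f i k) / L) x = (∑ i, pa (f i) x) / L := by
  unfold pa
  rw [Finset.sum_comm, Finset.sum_div]
  refine Finset.sum_congr rfl fun k _ => ?_
  rw [div_mul_eq_mul_div, Finset.sum_mul]

theorem sg_lub (x : ℕ →₀ ℝ) : IsLUB (values sg x) (sg x) := by
  constructor
  · rintro r (⟨j, rfl⟩ | ⟨n, a, b, hn, hab, hlt, rfl⟩)
    · exact abs_le_sg x j
    · have hL := L_pos' hn
      rw [div_le_iff₀ (by linarith)]
      apply le_of_forall_pos_le_add
      intro ε hε
      have hn0 : (0:ℝ) < n := by exact_mod_cast (by omega : 0 < n)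
      have h1 : ∀ i : Fin n, ∃ f, KF f ∧ sg (restr (a i) (b i) x) - ε / n < pa f (restr (a i) (b i) x) := by
        intro i
        have h2 : sg (restr (a i) (b i) x) - ε / n < sSup {r | ∃ f, KF f ∧ r = pa f (restr (a i) (b i) x)} := by
          have : 0 < ε / n := by positivity
          show sg (restr (a i) (b i) x) - ε / n < sg (restr (a i) (b i) x)
          linarith
        obtain ⟨r, ⟨f, hf, rfl⟩, hr⟩ := exists_lt_of_lt_csSup (sg_ne _) h2
        exact ⟨f, hf, hr⟩
      choose f hf1 hf2 using h1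
      have h2 : ∀ i, KF (fun k => (if a i ≤ k ∧ k ≤ b i then 1 else 0) * f i k) := by
        intro i
        apply (hf1 i).mul
        intro k
        split_ifs <;> simp
      have h3 := le_sg (KF.comb n hn a b hab hlt (fun i k => (if a i ≤ k ∧ k ≤ b i then 1 else 0) * f i k)
        (fun i k h => by
          rw [if_neg h, zero_mul]) h2) x
      rw [pa_comb] at h3
      have h4 : ∀ i, pa (fun k => (if a i ≤ k ∧ k ≤ b i then 1 else 0) * f i k) x =
          pa (f i) (restr (a i) (b i) x) := by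
        intro i
        rw [pa_eq (f i) _ x.support (restr_support _ _ x)]
        unfold pa
        refine Finset.sum_congr rfl fun k _ => ?_
        rw [restr_apply]
        dsimp only
        by_cases hk : a i ≤ k ∧ k ≤ b i
        · rw [if_pos hk, if_pos hk, one_mul]
        · rw [if_neg hk, if_neg hk]
          ring
      rw [div_le_iff₀ (by linarith)] at h3
      simp only [h4] at h3
      have h5 : ∑ i, sg (restr (a i) (b i) x) ≤ ∑ i, (pa (f i) (restr (a i) (b i) x) + ε / n) :=
        Finset.sum_le_sum fun i _ => by linarith [hf2 i]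
      rw [Finset.sum_add_distrib, Finset.sum_const, Finset.card_univ, Fintype.card_fin, nsmul_eq_mul] at h5
      have h6 : (n:ℝ) * (ε / n) = ε := by field_simp
      rw [h6] at h5
      linarith
  · intro M hM
    refine sg_le fun f hf => ?_
    cases hf with
    | zero =>
      refine le_trans ?_ (hM (Or.inl ⟨0, rfl⟩))
      unfold pa
      simp
    | unit j ε hε =>
      refine le_trans ?_ (hM (Or.inl ⟨j, rfl⟩))
      unfold pa
      have h1 : ∑ k ∈ x.support, (if k = j then ε else 0) * x k = ε * x j := by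
        rw [Finset.sum_eq_single j]
        · rw [if_pos rfl]
        · intro i _ hi
          rw [if_neg hi, zero_mul]
        · intro h
          rw [Finsupp.notMem_support_iff.mp h, mul_zero]
      rw [h1]
      rcases hε with h | h
      · rw [h, one_mul]
        exact le_abs_self _
      · rw [h, neg_one_mul]
        exact neg_le_abs _
    | comb n hn a b hab hlt f hsup hf =>
      have hL := L_pos' hn
      refine le_trans ?_ (hM (Or.inr ⟨n, a, b, hn, hab, hlt, rfl⟩))
      rw [pa_comb]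
      apply div_le_div_of_nonneg_right _ (by linarith)
      refine Finset.sum_le_sum fun i _ => ?_
      rw [← pa_restr (f i) (a i) (b i) x (hsup i)]
      exact le_sg (hf i) _

theorem sg_schl : IsSchlumprecht sg := ⟨sg_nonneg, sg_zero_iff, sg_smul, sg_add, sg_lub⟩

lemma schl_step {σ τ : (ℕ →₀ ℝ) → ℝ} (hσ : IsSchlumprecht σ) (hτ : IsSchlumprecht τ) (x : ℕ →₀ ℝ)
    (h : ∀ y : ℕ →₀ ℝ, y.support.card < x.support.card → σ y = τ y) : σ x ≤ τ x := by
  classical
  obtain ⟨s1, s2, s3, s4, s5⟩ := hσ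
  obtain ⟨t1, t2, t3, t4, t5⟩ := hτ
  by_contra hcon
  rw [not_le] at hcon
  have hx0 : 0 < σ x := (t1 x).trans_lt hcon
  have hl3 : 1 < Real.logb 2 3 := by
    have := L_pos' (le_refl 2)
    norm_num at this
    exact this
  have hlt : σ x / Real.logb 2 3 < σ x := by
    rw [div_lt_iff₀ (by linarith)]
    nlinarith
  have hM : max (τ x) (σ x / Real.logb 2 3) < σ x := max_lt hcon hlt
  apply absurd hM
  rw [not_lt]
  apply (s5 x).2
  rintro r (⟨j, rfl⟩ | ⟨n, a, b, hn, hab, hord, rfl⟩)
  · exact le_max_of_le_left ((t5 x).1 (Or.inl ⟨j, rfl⟩))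
  · have hL := L_pos' hn
    by_cases hall : ∀ i, restr (a i) (b i) x ≠ x
    · apply le_max_of_le_left
      apply (t5 x).1
      right
      refine ⟨n, a, b, hn, hab, hord, ?_⟩
      congr 1
      refine Finset.sum_congr rfl fun i _ => h _ ?_
      apply Finset.card_lt_card
      refine Finset.ssubset_iff_subset_ne.mpr ⟨restr_support _ _ x, fun heq => hall i ?_⟩
      ext k
      rw [restr_apply]
      split_ifs with hk
      · rfl
      · have h1 : k ∉ (restr (a i) (b i) x).support := by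
          rw [Finsupp.mem_support_iff, restr_apply, if_neg hk, not_not]
        rw [heq] at h1
        exact (Finsupp.notMem_support_iff.mp h1).symm
    · simp only [not_forall, not_not] at hall
      obtain ⟨i, hi⟩ := hall
      apply le_max_of_le_right
      have h1 : ∑ j, σ (restr (a j) (b j) x) = σ x := by
        rw [Finset.sum_eq_single i]
        · rw [hi]
        · intro j _ hj
          rw [s2]
          ext k
          rw [restr_apply, Finsupp.zero_apply]
          split_ifs with hk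
          · by_contra hxk
            have h2 : restr (a i) (b i) x k ≠ 0 := by rw [hi]; exact hxk
            rw [restr_apply] at h2
            have h3 : a i ≤ k ∧ k ≤ b i := by
              by_contra h4
              rw [if_neg h4] at h2
              exact h2 rfl
            exact hj (disj_int hord hk h3)
          · rfl
        · intro h2
          exact absurd (Finset.mem_univ i) h2
      rw [h1]
      exact div_le_div_of_nonneg_left hx0.le (by linarith) (L_ge hn)

theorem schl_unique {σ τ : (ℕ →₀ ℝ) → ℝ} (hσ : IsSchlumprecht σ) (hτ : IsSchlumprecht τ) : σ = τ := by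
  have h : ∀ n : ℕ, ∀ x : ℕ →₀ ℝ, x.support.card = n → σ x = τ x := by
    intro n
    induction n using Nat.strong_induction_on with
    | _ n ih =>
      intro x hx
      apply le_antisymm
      · exact schl_step hσ hτ x fun y hy => ih _ (hx ▸ hy) y rfl
      · exact schl_step hτ hσ x fun y hy => (ih _ (hx ▸ hy) y rfl).symm
  funext x
  exact h _ x rfl

/-- the sum over a finite set -/
lemma sum_le_sg (x : ℕ →₀ ℝ) (D : Finset ℕ) : ∑ j ∈ D, |x j| ≤ lb (D.card + 1) * sg x := by
  classical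
  rcases Nat.lt_or_ge D.card 2 with h | h
  · rcases Nat.lt_or_ge D.card 1 with h1 | h1
    · have h0 : D = ∅ := Finset.card_eq_zero.mp (by omega)
      rw [h0, Finset.sum_empty, Finset.card_empty, Nat.cast_zero, zero_add, lb_eq, Real.log_one, zero_div, zero_mul]
    · obtain ⟨d, hd⟩ := Finset.card_eq_one.mp (by omega : D.card = 1)
      rw [hd, Finset.sum_singleton, Finset.card_singleton, Nat.cast_one]
      have : (1:ℝ) + 1 = 2 := by norm_num
      rw [this, lb_two, one_mul]
      exact abs_le_sg x d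
  · have hL := L_pos' h
    obtain ⟨g, hg⟩ : ∃ g : Fin D.card → ℕ, g = fun i => D.orderEmbOfFin rfl i := ⟨_, rfl⟩
    have h1 := (sg_lub x).1 (Or.inr ⟨D.card, g, g, h, fun i => le_rfl, fun i j hij => by
      rw [hg]
      exact (D.orderEmbOfFin rfl).strictMono hij, rfl⟩)
    rw [div_le_iff₀ (by linarith)] at h1
    have h2 : ∀ i, |x (g i)| ≤ sg (restr (g i) (g i) x) := by
      intro i
      have h3 := abs_le_sg (restr (g i) (g i) x) (g i)
      rwa [restr_apply, if_pos ⟨le_rfl, le_rfl⟩] at h3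
    have h3 : ∑ j ∈ D, |x j| = ∑ i, |x (g i)| := by
      have h4 : D = Finset.univ.map (D.orderEmbOfFin rfl).toEmbedding := by
        ext j
        rw [Finset.mem_map]
        constructor
        · intro hj
          have h5 : j ∈ Set.range (D.orderEmbOfFin rfl) := by
            rw [Finset.range_orderEmbOfFin]
            exact hj
          obtain ⟨i, hi⟩ := h5
          exact ⟨i, Finset.mem_univ _, hi⟩
        · rintro ⟨i, _, rfl⟩
          exact Finset.orderEmbOfFin_mem D rfl i
      conv_lhs => rw [h4]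
      rw [Finset.sum_map, hg]
      rfl
    rw [h3]
    calc ∑ i, |x (g i)| ≤ ∑ i, sg (restr (g i) (g i) x) := Finset.sum_le_sum fun i _ => h2 i
      _ ≤ sg x * Real.logb 2 ((D.card : ℝ) + 1) := h1
      _ = lb (D.card + 1) * sg x := by
          rw [mul_comm]
          rfl

/-- comparison function -/
noncomputable def gg (n : ℕ) : ℝ := n / (1 + lb n / 2)

lemma gg_den (n : ℕ) : 1 ≤ 1 + lb (n:ℝ) / 2 := by
  have := lb_nat_nonneg n
  linarith

lemma lb_div_le {x y : ℝ} (hx : 0 < x) (hy : 0 < y) : lb (y / x) ≤ (y / x - 1) / Real.log 2 := by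
  rw [lb_eq]
  apply div_le_div_of_nonneg_right _ ln2_pos.le
  exact Real.log_le_sub_one_of_pos (by positivity)

lemma lb_div {x y : ℝ} (hx : 0 < x) (hy : 0 < y) : lb y = lb x + lb (y / x) := by
  rw [lb_eq, lb_eq, lb_eq, Real.log_div hy.ne' hx.ne']
  ring

lemma gg_mono {m n : ℕ} (h : m ≤ n) : gg m ≤ gg n := by
  unfold gg
  have h1 := gg_den m
  have h2 := gg_den n
  rw [div_le_div_iff₀ (by linarith) (by linarith)]
  rcases Nat.eq_zero_or_pos m with h0 | h0
  · subst h0
    rw [Nat.cast_zero, zero_mul]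
    exact mul_nonneg (Nat.cast_nonneg n) (by linarith)
  · have hm : (0:ℝ) < m := by exact_mod_cast h0
    have hn : (0:ℝ) < n := by exact_mod_cast (by omega : 0 < n)
    have hmn : (m:ℝ) ≤ n := by exact_mod_cast h
    have h3 := lb_div_le hm hn
    rw [lb_div hm hn]
    have h4 : (m:ℝ) * ((n / m - 1) / Real.log 2) = (n - m) / Real.log 2 := by
      field_simp
    have h5 : ((n:ℝ) - m) / Real.log 2 ≤ 2 * (n - m) := by
      rw [div_le_iff₀ ln2_pos]
      have := Real.log_two_gt_d9
      nlinarith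
    have h6 := mul_le_mul_of_nonneg_left h3 hm.le
    have h7 : ((n:ℝ) - m) * 1 ≤ (n - m) * (1 + lb (m:ℝ) / 2) := mul_le_mul_of_nonneg_left h1 (by linarith)
    nlinarith

lemma gg_one {n : ℕ} (hn : 1 ≤ n) : 1 ≤ gg n := by
  have h := gg_mono hn
  have h1 : gg 1 = 1 := by
    unfold gg
    rw [Nat.cast_one, lb_eq, Real.log_one, zero_div, zero_div, add_zero, div_one]
  linarith

lemma gg_nonneg (n : ℕ) : 0 ≤ gg n := by
  unfold gg
  have := gg_den n
  positivity

lemma half_lb {k : ℕ} (hk : 1 ≤ k) : 1 + lb (k:ℝ) / 2 ≤ lb ((k:ℝ) + 1) := by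
  have hk0 : (0:ℝ) < k := by exact_mod_cast hk
  have h1 : 4 * (k:ℝ) ≤ ((k:ℝ) + 1) * ((k:ℝ) + 1) := by nlinarith [sq_nonneg ((k:ℝ) - 1)]
  have h2 := lb_mono (by positivity) h1
  rw [lb_eq, lb_eq, Real.log_mul (by norm_num) hk0.ne', Real.log_mul (by positivity) (by positivity)] at h2
  have h3 : Real.log 4 = 2 * Real.log 2 := by
    have : (4:ℝ) = 2 ^ 2 := by norm_num
    rw [this, Real.log_pow]
    norm_num
  rw [h3, add_div, mul_div_assoc, div_self ln2_pos.ne', mul_one, ← two_mul, mul_div_assoc] at h2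
  rw [lb_eq, lb_eq]
  linarith

/-- the numerical inequality -/
lemma gg_sum {k : ℕ} (hk : 2 ≤ k) (c : Fin k → ℕ) (N : ℕ) (hc : ∑ i, c i ≤ N) :
    ∑ i, gg (c i) ≤ lb ((k:ℝ) + 1) * gg N := by
  obtain ⟨m, hm⟩ : ∃ m, m = ∑ i, c i := ⟨_, rfl⟩
  have hlk := half_lb (by omega : 1 ≤ k)
  have hlk0 : 0 ≤ lb ((k:ℝ) + 1) := by
    have := lb_nat_nonneg k
    linarith
  rcases Nat.eq_zero_or_pos m with h0 | h0
  · have h1 : ∀ i, gg (c i) = 0 := by
      intro i
      have h2 : c i ≤ m := by
        rw [hm]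
        exact Finset.single_le_sum (fun j _ => Nat.zero_le _) (Finset.mem_univ i)
      have h3 : c i = 0 := by omega
      unfold gg
      rw [h3, Nat.cast_zero, zero_div]
    rw [Finset.sum_eq_zero fun i _ => h1 i]
    exact mul_nonneg hlk0 (gg_nonneg N)
  · have hm0 : (0:ℝ) < m := by exact_mod_cast h0
    have hk0 : (0:ℝ) < k := by exact_mod_cast (by omega : 0 < k)
    have hdm := gg_den m
    have h1 : ∀ i, gg (c i) ≤ ((c i : ℝ) + ((c i : ℝ) * lb (k:ℝ) + (m / k - c i) / Real.log 2) / 2) / (1 + lb (m:ℝ) / 2) := by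
      intro i
      have hci : c i ≤ m := by
        rw [hm]
        exact Finset.single_le_sum (fun j _ => Nat.zero_le _) (Finset.mem_univ i)
      rcases Nat.eq_zero_or_pos (c i) with h2 | h2
      · unfold gg
        rw [h2, Nat.cast_zero, zero_div]
        apply div_nonneg _ (by linarith)
        have := ln2_pos
        have h3 : 0 ≤ ((m:ℝ) / k - 0) / Real.log 2 := by
          rw [sub_zero]
          positivity
        linarith
      · have hc0 : (0:ℝ) < c i := by exact_mod_cast h2
        have hcm : (c i : ℝ) ≤ m := by exact_mod_cast hci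
        have hdc := gg_den (c i)
        have hb : 0 ≤ lb ((m:ℝ) / c i) := by
          rw [lb_eq]
          apply div_nonneg _ ln2_pos.le
          apply Real.log_nonneg
          rw [le_div_iff₀ hc0]
          linarith
        have hlc := lb_nat_nonneg (c i)
        have e1 : lb (m:ℝ) = lb (c i : ℝ) + lb ((m:ℝ) / c i) := lb_div hc0 hm0
        -- g(c) ≤ c (1 + lb(m/c)/2) / (1 + lb m / 2)
        have h3 : gg (c i) ≤ ((c i : ℝ) + (c i : ℝ) * lb ((m:ℝ) / c i) / 2) / (1 + lb (m:ℝ) / 2) := by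
          unfold gg
          rw [div_le_div_iff₀ (by linarith) (by linarith), e1]
          have h4 : 0 ≤ (c i : ℝ) * (lb (c i : ℝ) * lb ((m:ℝ) / c i)) := by positivity
          nlinarith
        refine h3.trans ?_
        apply div_le_div_of_nonneg_right _ (by linarith)
        have h4 : (c i : ℝ) * lb ((m:ℝ) / c i) ≤ (c i : ℝ) * lb (k:ℝ) + (m / k - c i) / Real.log 2 := by
          have h5 : lb ((m:ℝ) / c i) = lb (k:ℝ) + lb (((m:ℝ) / c i) / k) := lb_div hk0 (by positivity)
          have h6 : lb (((m:ℝ) / c i) / k) ≤ (((m:ℝ) / c i) / k - 1) / Real.log 2 := lb_div_le hk0 (by positivity)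
          have h7 := mul_le_mul_of_nonneg_left h6 hc0.le
          have h8 : (c i : ℝ) * ((((m:ℝ) / c i) / k - 1) / Real.log 2) = (m / k - c i) / Real.log 2 := by
            field_simp
          rw [h5, mul_add]
          linarith
        linarith
    have h2 : ∑ i, ((c i : ℝ) + ((c i : ℝ) * lb (k:ℝ) + (m / k - c i) / Real.log 2) / 2) / (1 + lb (m:ℝ) / 2) =
        gg m * (1 + lb (k:ℝ) / 2) := by
      have hms : (m:ℝ) = ∑ i, (c i : ℝ) := by
        rw [hm]
        push_cast
        rfl
      rw [← Finset.sum_div, Finset.sum_add_distrib, ← Finset.sum_div, Finset.sum_add_distrib, ← Finset.sum_mul,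
        ← Finset.sum_div, Finset.sum_sub_distrib, ← hms, Finset.sum_const, Finset.card_univ, Fintype.card_fin,
        nsmul_eq_mul]
      have h3 : (k:ℝ) * (m / k) = m := by field_simp
      rw [h3, sub_self, zero_div, add_zero]
      unfold gg
      field_simp
    calc ∑ i, gg (c i) ≤ _ := Finset.sum_le_sum fun i _ => h1 i
      _ = gg m * (1 + lb (k:ℝ) / 2) := h2
      _ ≤ gg m * lb ((k:ℝ) + 1) := mul_le_mul_of_nonneg_left hlk (gg_nonneg m)
      _ ≤ gg N * lb ((k:ℝ) + 1) := mul_le_mul_of_nonneg_right (gg_mono (by rw [hm]; exact hc)) hlk0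
      _ = _ := mul_comm _ _

lemma KF.sum_le {f : ℕ → ℝ} (h : KF f) : ∀ B : Finset ℕ, ∑ k ∈ B, |f k| ≤ gg B.card := by
  classical
  induction h with
  | zero =>
    intro B
    simp only [abs_zero, Finset.sum_const_zero]
    exact gg_nonneg _
  | unit j ε hε =>
    intro B
    have hε1 : |ε| = 1 := by rcases hε with h | h <;> rw [h] <;> simp
    have e1 : ∀ k, |if k = j then ε else 0| = if k = j then 1 else 0 := by
      intro k
      split_ifs
      · exact hε1
      · exact abs_zero
    simp only [e1]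
    rw [Finset.sum_ite_eq']
    split_ifs with h
    · exact gg_one (Finset.card_pos.mpr ⟨j, h⟩)
    · exact gg_nonneg _
  | comb n hn a b hab hlt f hsup hf ih =>
    intro B
    have hL := L_pos' hn
    have hL0 : 0 < Real.logb 2 ((n:ℝ) + 1) := by linarith
    have e1 : ∀ k, |(∑ i, f i k) / Real.logb 2 ((n:ℝ) + 1)| = |∑ i, f i k| / Real.logb 2 ((n:ℝ) + 1) := by
      intro k
      rw [abs_div, abs_of_pos hL0]
    simp only [e1]
    rw [← Finset.sum_div, div_le_iff₀ hL0]
    have h1 : ∑ k ∈ B, |∑ i, f i k| ≤ ∑ i, ∑ k ∈ B.filter (fun k => a i ≤ k ∧ k ≤ b i), |f i k| := by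
      have h2 : ∀ i, ∑ k ∈ B.filter (fun k => a i ≤ k ∧ k ≤ b i), |f i k| = ∑ k ∈ B, |f i k| := by
        intro i
        apply Finset.sum_subset (Finset.filter_subset _ _)
        intro k hk hk'
        have h3 : ¬ (a i ≤ k ∧ k ≤ b i) := fun h4 => hk' (Finset.mem_filter.mpr ⟨hk, h4⟩)
        rw [hsup i k h3, abs_zero]
      simp only [h2]
      rw [Finset.sum_comm]
      exact Finset.sum_le_sum fun k _ => Finset.abs_sum_le_sum_abs _ _
    refine h1.trans ?_
    have h2 : ∑ i, ∑ k ∈ B.filter (fun k => a i ≤ k ∧ k ≤ b i), |f i k| ≤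
        ∑ i, gg (B.filter (fun k => a i ≤ k ∧ k ≤ b i)).card := Finset.sum_le_sum fun i _ => ih i _
    refine h2.trans ?_
    have h3 := gg_sum hn (fun i => (B.filter (fun k => a i ≤ k ∧ k ≤ b i)).card) B.card (by
      rw [← Finset.card_biUnion]
      · apply Finset.card_le_card
        intro k hk
        rw [Finset.mem_biUnion] at hk
        obtain ⟨i, _, hi⟩ := hk
        exact (Finset.mem_filter.mp hi).1
      · intro i _ j _ hij
        rw [Function.onFun, Finset.disjoint_left]
        intro k hk hk'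
        exact hij (disj_int hlt (Finset.mem_filter.mp hk).2 (Finset.mem_filter.mp hk').2))
    rw [mul_comm] at h3
    exact h3

end Q80.DG
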