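import Mathlib

/-!
Definitions for the statement: Schlumprecht's norm on `c₀₀`, the completion, and its dual basis.
-/

set_option autoImplicit false

namespace Pool.Agent.Q80.SchlDefs

/-- The restriction `E x` of `x` to the interval `E = [a, b]` of `ℕ`. -/
noncomputable def restr (a b : ℕ) (x : ℕ →₀ ℝ) : ℕ →₀ ℝ := x.filter (fun k => a ≤ k ∧ k ≤ b)

/-- The numbers whose supremum is the right hand side of the implicit equation for `σ x`: all `|x_j|`, and all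
`(1 / log₂ (n + 1)) ∑ σ (E_i x)` for `n ≥ 2` and intervals `E_1 < ⋯ < E_n`. -/
def values (σ : (ℕ →₀ ℝ) → ℝ) (x : ℕ →₀ ℝ) : Set ℝ :=
  {r | (∃ j, r = |x j|) ∨ ∃ (n : ℕ) (a b : Fin n → ℕ), 2 ≤ n ∧ (∀ i, a i ≤ b i) ∧ (∀ i j, i < j → b i < a j) ∧
    r = (∑ i, σ (restr (a i) (b i) x)) / Real.logb 2 ((n : ℝ) + 1)}

/-- `σ` is Schlumprecht's norm on `c₀₀`: a norm which satisfies the implicit equation. -/
def IsSchlumprecht (σ : (ℕ →₀ ℝ) → ℝ) : Prop :=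
  (∀ x, 0 ≤ σ x) ∧ (∀ x, σ x = 0 ↔ x = 0) ∧ (∀ (t : ℝ) (x : ℕ →₀ ℝ), σ (t • x) = |t| * σ x) ∧
    (∀ x y, σ (x + y) ≤ σ x + σ y) ∧ ∀ x, IsLUB (values σ x) (σ x)

/-- `S` is the completion of `c₀₀` with the norm `σ`, and `e` is its unit vector basis. -/
def IsCompletion (σ : (ℕ →₀ ℝ) → ℝ) (S : Type) [NormedAddCommGroup S] [NormedSpace ℝ S] (e : ℕ → S) : Prop :=
  CompleteSpace S ∧ (∀ x : ℕ →₀ ℝ, ‖x.sum fun j a => a • e j‖ = σ x) ∧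
    DenseRange fun x : ℕ →₀ ℝ => x.sum fun j a => a • e j

/-- `N` is a norm on `V` which is equivalent to the given norm. -/
def IsRenorming {V : Type} [NormedAddCommGroup V] [NormedSpace ℝ V] (N : V → ℝ) : Prop :=
  (∀ f, 0 ≤ N f) ∧ (∀ f, N f = 0 ↔ f = 0) ∧ (∀ (t : ℝ) (f : V), N (t • f) = |t| * N f) ∧
    (∀ f g, N (f + g) ≤ N f + N g) ∧ ∃ c C : ℝ, 0 < c ∧ 0 < C ∧ ∀ f, c * ‖f‖ ≤ N f ∧ N f ≤ C * ‖f‖

end Pool.Agent.Q80.SchlDefs
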