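import Pool.Agent.Q80.DG.Schl
import Pool.Agent.Q80.DG.Norm

/-!
The renorming of the dual of Schlumprecht's space.
-/

set_option autoImplicit false

namespace Q80.DG

open Finset Filter Topology Pool.Agent.Q80.SchlDefs

section

variable {S : Type} [NormedAddCommGroup S] [NormedSpace ℝ S] {e : ℕ → S}

/-- finitely supported vector -/
noncomputable def ofB (B : Finset ℕ) (u : ℕ → ℝ) : ℕ →₀ ℝ :=
  Finsupp.onFinset B (fun j => if j ∈ B then u j else 0) (by
    intro j hj
    by_contra h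
    exact hj (if_neg h))

lemma ofB_apply (B : Finset ℕ) (u : ℕ → ℝ) (j : ℕ) : ofB B u j = if j ∈ B then u j else 0 := rfl

lemma ofB_sum (B : Finset ℕ) (u : ℕ → ℝ) : ((ofB B u).sum fun j a => a • e j) = ∑ j ∈ B, u j • e j := by
  unfold ofB
  rw [Finsupp.onFinset_sum _ (fun j => zero_smul ℝ (e j))]
  refine Finset.sum_congr rfl fun j hj => ?_
  rw [if_pos hj]

/-- the class of weights -/
def VD (e : ℕ → S) : Set (ℕ → ℝ) :=
  {v | (∀ j, 0 ≤ v j) ∧ (∀ j, v j ≤ 1 / 2) ∧ (∀ D : Finset ℕ, ∑ j ∈ D, v j ≤ lb (D.card + 1)) ∧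
    ∀ (f : StrongDual ℝ S) (D : Finset ℕ), ∑ j ∈ D, v j * |f (e j)| ≤ ‖f‖}

lemma lb_card_nonneg (D : Finset ℕ) : 0 ≤ lb ((D.card : ℝ) + 1) := by
  have := lb_nat_nonneg (D.card + 1)
  push_cast at this
  exact this

lemma VD_zero : (fun _ => 0 : ℕ → ℝ) ∈ VD e := by
  refine ⟨fun _ => le_rfl, fun _ => by norm_num, fun D => ?_, fun f D => ?_⟩
  · rw [Finset.sum_const_zero]
    exact lb_card_nonneg D
  · simp

lemma par_VD : Par2 th2 Psi (VD e) :=
  par2_log ⟨_, VD_zero⟩ (fun _ h => h.1) (fun _ h => h.2.1) (fun _ h => h.2.2.1)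

/-- coefficients -/
noncomputable def cd (e : ℕ → S) (f : StrongDual ℝ S) : ℕ → ℝ := fun j => |f (e j)|

lemma cd_nonneg (f : StrongDual ℝ S) (j : ℕ) : 0 ≤ cd e f j := abs_nonneg _

/-- the values -/
def VS2 (e : ℕ → S) (u : ℕ → ℝ) : Set ℝ := {r | ∃ B D : Finset ℕ, ∃ v ∈ VD e, r = Val2 th2 Psi B D v u}

/-- the norm -/
noncomputable def ND (e : ℕ → S) (f : StrongDual ℝ S) : ℝ := sSup (VS2 e (cd e f))

lemma VS2_nonempty (u : ℕ → ℝ) : (VS2 e u).Nonempty := ⟨_, ∅, ∅, _, VD_zero, rfl⟩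

lemma sg_sign {B : Finset ℕ} {u : ℕ → ℝ} (hu : ∀ j, |u j| ≤ 1) : sg (ofB B u) ≤ gg B.card := by
  classical
  refine sg_le fun f hf => ?_
  refine le_trans ?_ (hf.sum_le B)
  rw [pa_eq f (ofB B u) B Finsupp.support_onFinset_subset]
  refine Finset.sum_le_sum fun j hj => ?_
  rw [ofB_apply, if_pos hj]
  calc f j * u j ≤ |f j * u j| := le_abs_self _
    _ = |f j| * |u j| := abs_mul _ _
    _ ≤ |f j| * 1 := mul_le_mul_of_nonneg_left (hu j) (abs_nonneg _)
    _ = |f j| := mul_one _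

lemma th2_gg (n : ℕ) : th2 n * gg n ≤ 2 := by
  rcases Nat.eq_zero_or_pos n with h | h
  · unfold gg
    rw [h, Nat.cast_zero, zero_div, mul_zero]
    norm_num
  · have hn : (0:ℝ) < n := by exact_mod_cast h
    have hn1 : (1:ℝ) ≤ n := by exact_mod_cast h
    have hd := gg_den n
    have hl := lb_nat_nonneg n
    have h1 : th2 n * gg n = lb ((n:ℝ) + 1) / (1 + lb (n:ℝ) / 2) := by
      unfold gg
      rw [← th2_mul h]
      ring
    rw [h1, div_le_iff₀ (by linarith)]
    have h2 : lb ((n:ℝ) + 1) ≤ lb (n * 2) := lb_mono (by positivity) (by linarith)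
    rw [lb_eq (n * 2), Real.log_mul (by positivity) (by norm_num), add_div, div_self ln2_pos.ne', ← lb_eq] at h2
    linarith

variable (hn : ∀ x : ℕ →₀ ℝ, ‖x.sum fun j a => a • e j‖ = sg x)

include hn

lemma l1_bound (f : StrongDual ℝ S) (x : ℕ →₀ ℝ) (D : Finset ℕ) : ∑ j ∈ D, |x j| * |f (e j)| ≤ ‖f‖ * sg x := by
  classical
  have h1 : f ((ofB D (fun j => sn (x j * f (e j)) * x j)).sum fun j a => a • e j) = ∑ j ∈ D, |x j| * |f (e j)| := by
    rw [ofB_sum, map_sum]
    refine Finset.sum_congr rfl fun j _ => ?_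
    rw [map_smul, smul_eq_mul, ← abs_mul, ← sn_mul]
    ring
  rw [← h1]
  refine (le_abs_self _).trans ?_
  have h2 := f.le_opNorm ((ofB D (fun j => sn (x j * f (e j)) * x j)).sum fun j a => a • e j)
  rw [Real.norm_eq_abs, hn] at h2
  refine h2.trans (mul_le_mul_of_nonneg_left (sg_mono fun j => ?_) (norm_nonneg _))
  rw [ofB_apply]
  split_ifs
  · rw [abs_mul]
    have h3 : |sn (x j * f (e j))| ≤ 1 := by
      rcases sn_cases (x j * f (e j)) with h | h | h <;> rw [h] <;> simp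
    calc |sn (x j * f (e j))| * |x j| ≤ 1 * |x j| := mul_le_mul_of_nonneg_right h3 (abs_nonneg _)
      _ = |x j| := one_mul _
  · rw [abs_zero]
    exact abs_nonneg _

lemma flat_bound (f : StrongDual ℝ S) (B : Finset ℕ) : ∑ j ∈ B, |f (e j)| ≤ ‖f‖ * gg B.card := by
  classical
  have h1 : f ((ofB B (fun j => sn (f (e j)))).sum fun j a => a • e j) = ∑ j ∈ B, |f (e j)| := by
    rw [ofB_sum, map_sum]
    refine Finset.sum_congr rfl fun j _ => ?_
    rw [map_smul, smul_eq_mul, sn_mul]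
  rw [← h1]
  refine (le_abs_self _).trans ?_
  have h2 := f.le_opNorm ((ofB B (fun j => sn (f (e j)))).sum fun j a => a • e j)
  rw [Real.norm_eq_abs, hn] at h2
  refine h2.trans (mul_le_mul_of_nonneg_left (sg_sign fun j => ?_) (norm_nonneg _))
  rcases sn_cases (f (e j)) with h | h | h <;> rw [h] <;> simp

lemma val2_le (f : StrongDual ℝ S) (B D : Finset ℕ) {v : ℕ → ℝ} (hv : v ∈ VD e) :
    Val2 th2 Psi B D v (cd e f) ≤ 3 * ‖f‖ := by
  unfold Val2
  have h1 : th2 B.card * ∑ j ∈ B, cd e f j ≤ 2 * ‖f‖ := by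
    calc th2 B.card * ∑ j ∈ B, cd e f j ≤ th2 B.card * (‖f‖ * gg B.card) :=
          mul_le_mul_of_nonneg_left (flat_bound hn f B) (th2_pos _).le
      _ = (th2 B.card * gg B.card) * ‖f‖ := by ring
      _ ≤ 2 * ‖f‖ := mul_le_mul_of_nonneg_right (th2_gg _) (norm_nonneg _)
  have h2 : ∑ j ∈ D \ B, Psi B.card (v j) * cd e f j ≤ ‖f‖ := by
    refine le_trans (Finset.sum_le_sum fun j _ => ?_) (hv.2.2.2 f (D \ B))
    apply mul_le_mul_of_nonneg_right _ (abs_nonneg _)
    have h3 := Psi_anti (Nat.zero_le B.card) (hv.1 j)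
    rw [Psi_zero] at h3
    have := hv.1 j
    linarith
  linarith

lemma ND_bdd (f : StrongDual ℝ S) : BddAbove (VS2 e (cd e f)) := by
  refine ⟨3 * ‖f‖, ?_⟩
  rintro r ⟨B, D, v, hv, rfl⟩
  exact val2_le hn f B D hv

lemma ND_le (f : StrongDual ℝ S) : ND e f ≤ 3 * ‖f‖ := by
  apply csSup_le (VS2_nonempty _)
  rintro r ⟨B, D, v, hv, rfl⟩
  exact val2_le hn f B D hv

lemma le_ND (f : StrongDual ℝ S) (B D : Finset ℕ) {v : ℕ → ℝ} (hv : v ∈ VD e) :
    Val2 th2 Psi B D v (cd e f) ≤ ND e f := le_csSup (ND_bdd hn f) ⟨B, D, v, hv, rfl⟩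

lemma ND_nonneg (f : StrongDual ℝ S) : 0 ≤ ND e f :=
  le_trans ((par_VD (e := e)).Val_nonneg VD_zero ∅ ∅ (cd_nonneg f)) (le_ND hn f ∅ ∅ VD_zero)

lemma ND_add (f g : StrongDual ℝ S) : ND e (f + g) ≤ ND e f + ND e g := by
  apply csSup_le (VS2_nonempty _)
  rintro r ⟨B, D, v, hv, rfl⟩
  have h1 : Val2 th2 Psi B D v (cd e (f + g)) ≤ Val2 th2 Psi B D v (fun j => cd e f j + cd e g j) := by
    apply par_VD.Val_mono hv
    intro j
    unfold cd
    rw [_root_.add_apply]
    exact abs_add_le _ _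
  have h2 : Val2 th2 Psi B D v (fun j => cd e f j + cd e g j) =
      Val2 th2 Psi B D v (cd e f) + Val2 th2 Psi B D v (cd e g) := by
    unfold Val2
    have e1 : ∀ j ∈ D \ B, Psi B.card (v j) * (cd e f j + cd e g j) =
        Psi B.card (v j) * cd e f j + Psi B.card (v j) * cd e g j := fun j _ => by ring
    rw [Finset.sum_add_distrib, Finset.sum_congr rfl e1, Finset.sum_add_distrib]
    ring
  rw [h2] at h1
  exact h1.trans (add_le_add (le_ND hn f B D hv) (le_ND hn g B D hv))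

lemma ND_smul (l : ℝ) (f : StrongDual ℝ S) : ND e (l • f) = |l| * ND e f := by
  have hcf : ∀ (l : ℝ) (f : StrongDual ℝ S) B D v, Val2 th2 Psi B D v (cd e (l • f)) =
      |l| * Val2 th2 Psi B D v (cd e f) := by
    intro l f B D v
    unfold Val2
    have e1 : ∀ j, cd e (l • f) j = |l| * cd e f j := by
      intro j
      unfold cd
      rw [_root_.smul_apply, smul_eq_mul, abs_mul]
    simp only [e1]
    have e2 : ∑ j ∈ B, |l| * cd e f j = |l| * ∑ j ∈ B, cd e f j := (Finset.mul_sum _ _ _).symm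
    have e3 : ∑ j ∈ D \ B, Psi B.card (v j) * (|l| * cd e f j) = |l| * ∑ j ∈ D \ B, Psi B.card (v j) * cd e f j := by
      rw [Finset.mul_sum]
      exact Finset.sum_congr rfl fun j _ => by ring
    rw [e2, e3]
    ring
  have hle : ∀ (l : ℝ) (f : StrongDual ℝ S), ND e (l • f) ≤ |l| * ND e f := by
    intro l f
    apply csSup_le (VS2_nonempty _)
    rintro r ⟨B, D, v, hv, rfl⟩
    rw [hcf]
    exact mul_le_mul_of_nonneg_left (le_ND hn f B D hv) (abs_nonneg _)
  apply le_antisymm (hle l f)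
  rcases eq_or_ne l 0 with rfl | hl
  · rw [abs_zero, zero_mul]
    exact ND_nonneg hn _
  · have h1 := hle l⁻¹ (l • f)
    rw [smul_smul, inv_mul_cancel₀ hl, one_smul, abs_inv, inv_mul_eq_div, le_div_iff₀ (abs_pos.mpr hl)] at h1
    linarith

lemma ND_fin (f : StrongDual ℝ S) (x : ℕ →₀ ℝ) :
    |f (x.sum fun j a => a • e j)| ≤ 200 * ND e f * sg x := by
  classical
  rcases eq_or_lt_of_le (sg_nonneg x) with h0 | h0
  · have h1 : x = 0 := (sg_zero_iff x).mp h0.symm
    rw [← h0, h1, Finsupp.sum_zero_index, map_zero, abs_zero, mul_zero]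
  · obtain ⟨v, hv⟩ : ∃ v : ℕ → ℝ, v = fun j => |x j| / (2 * sg x) := ⟨_, rfl⟩
    have hvV : v ∈ VD e := by
      rw [hv]
      refine ⟨fun j => by positivity, fun j => ?_, fun D => ?_, fun g D => ?_⟩
      · rw [div_le_div_iff₀ (by positivity) (by norm_num)]
        have := abs_le_sg x j
        linarith
      · rw [← Finset.sum_div, div_le_iff₀ (by positivity)]
        have h1 := sum_le_sg x D
        have h2 := mul_nonneg (lb_card_nonneg D) h0.le
        linarith
      · have e1 : ∑ j ∈ D, |x j| / (2 * sg x) * |g (e j)| = (∑ j ∈ D, |x j| * |g (e j)|) / (2 * sg x) := by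
          rw [Finset.sum_div]
          exact Finset.sum_congr rfl fun j _ => by ring
        rw [e1, div_le_iff₀ (by positivity)]
        have h1 := l1_bound hn g x D
        have h2 := mul_nonneg (norm_nonneg g) h0.le
        linarith
    have h1 := le_ND hn f ∅ x.support hvV
    unfold Val2 at h1
    rw [Finset.card_empty, Finset.sum_empty, mul_zero, zero_add, Finset.sdiff_empty] at h1
    have h2 : |f (x.sum fun j a => a • e j)| ≤ ∑ j ∈ x.support, |x j| * |f (e j)| := by
      rw [Finsupp.sum, map_sum]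
      refine (Finset.abs_sum_le_sum_abs _ _).trans (Finset.sum_le_sum fun j _ => ?_)
      rw [map_smul, smul_eq_mul, abs_mul]
    refine h2.trans ?_
    have h3 : ∑ j ∈ x.support, |x j| * |f (e j)| = 200 * sg x * ∑ j ∈ x.support, Psi 0 (v j) * cd e f j := by
      rw [Finset.mul_sum]
      refine Finset.sum_congr rfl fun j _ => ?_
      rw [Psi_zero, hv]
      unfold cd
      dsimp only
      field_simp
      ring
    rw [h3]
    have h4 := mul_le_mul_of_nonneg_left h1 (by positivity : 0 ≤ 200 * sg x)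
    linarith

theorem norm_le_ND (hd : DenseRange fun x : ℕ →₀ ℝ => x.sum fun j a => a • e j) (f : StrongDual ℝ S) :
    ‖f‖ ≤ 200 * ND e f := by
  have h0 := ND_nonneg hn f
  apply f.opNorm_le_bound (by positivity)
  intro s
  refine hd.induction_on (p := fun s => ‖f s‖ ≤ 200 * ND e f * ‖s‖) s ?_ ?_
  · exact isClosed_le (f.continuous.norm) (continuous_const.mul continuous_norm)
  · intro x
    rw [hn, Real.norm_eq_abs]
    exact ND_fin hn f x

theorem ND_zero_iff (hd : DenseRange fun x : ℕ →₀ ℝ => x.sum fun j a => a • e j) (f : StrongDual ℝ S) :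
    ND e f = 0 ↔ f = 0 := by
  constructor
  · intro h
    have h1 := norm_le_ND hn hd f
    rw [h, mul_zero] at h1
    exact norm_le_zero_iff.mp h1
  · rintro rfl
    apply le_antisymm _ (ND_nonneg hn _)
    have := ND_le hn (0 : StrongDual ℝ S)
    rwa [norm_zero, mul_zero] at this

theorem ND_greedy {es : ℕ → StrongDual ℝ S} (hes : ∀ i j, es i (e j) = if i = j then 1 else 0)
    (f : StrongDual ℝ S) (A B : Finset ℕ) (hcard : B.card ≤ A.card)
    (hgr : ∀ i ∈ A, ∀ j, j ∉ A → |f (e j)| ≤ |f (e i)|) (b : ℕ → ℝ) :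
    ND e (f - ∑ j ∈ A, f (e j) • es j) ≤ ND e (f - ∑ j ∈ B, b j • es j) := by
  classical
  have hco : ∀ (D : Finset ℕ) (b : ℕ → ℝ) (i : ℕ), (f - ∑ j ∈ D, b j • es j) (e i) =
      f (e i) - if i ∈ D then b i else 0 := by
    intro D b i
    rw [_root_.sub_apply, _root_.sum_apply]
    congr 1
    simp only [_root_.smul_apply, hes, smul_eq_mul, mul_ite, mul_one, mul_zero]
    rw [Finset.sum_ite_eq']
  have hdom : Dom2 th2 Psi (VD e) (cd e (f - ∑ j ∈ A, f (e j) • es j)) (cd e (f - ∑ j ∈ B, b j • es j)) := by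
    refine greedy_rel (x := cd e f) (fun _ _ _ h h' => h.trans h') (fun u' u _ h => par_VD.dom_mono h) par_VD.moves
      (cd_nonneg f) (cd_nonneg _) hcard hgr ?_ ?_
    · intro j hj
      unfold cd
      rw [hco, if_neg hj, sub_zero]
    · intro j
      unfold cd
      rw [hco]
      split_ifs
      · rw [sub_self, abs_zero]
      · rw [sub_zero]
  apply csSup_le (VS2_nonempty _)
  rintro r ⟨C, D, v, hv, rfl⟩
  obtain ⟨C', D', v', hv', h1⟩ := hdom C D v hv
  exact h1.trans (le_ND hn _ C' D' hv')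

/-- the coordinate functionals -/
theorem exists_coord : ∃ es : ℕ → StrongDual ℝ S, ∀ i j, es i (e j) = if i = j then 1 else 0 := by
  obtain ⟨T, hT⟩ : ∃ T : (ℕ →₀ ℝ) →ₗ[ℝ] S, T = Finsupp.linearCombination ℝ e := ⟨_, rfl⟩
  have hTa : ∀ x, T x = x.sum fun j a => a • e j := by
    intro x
    rw [hT]
    rfl
  have hTn : ∀ x, ‖T x‖ = sg x := fun x => by rw [hTa, hn]
  have hinj : Function.Injective T := by
    rw [← LinearMap.ker_eq_bot, LinearMap.ker_eq_bot']
    intro x hx
    rw [← sg_zero_iff, ← hTn, hx, norm_zero]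
  have h1 : ∀ i : ℕ, ∃ g : StrongDual ℝ S, ∀ x, g (T x) = x i := by
    intro i
    obtain ⟨φ, hφ⟩ : ∃ φ : LinearMap.range T →ₗ[ℝ] ℝ, φ = (Finsupp.lapply i : (ℕ →₀ ℝ) →ₗ[ℝ] ℝ) ∘ₗ
      (LinearEquiv.ofInjective T hinj).symm.toLinearMap := ⟨_, rfl⟩
    have hφa : ∀ x, φ (LinearEquiv.ofInjective T hinj x) = x i := by
      intro x
      rw [hφ, LinearMap.comp_apply, LinearEquiv.coe_coe, LinearEquiv.symm_apply_apply]
      rfl
    have hb : ∀ m, ‖φ m‖ ≤ 1 * ‖m‖ := by
      intro m
      obtain ⟨x, rfl⟩ := (LinearEquiv.ofInjective T hinj).surjective m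
      rw [hφa, one_mul, Real.norm_eq_abs]
      have h2 : ‖LinearEquiv.ofInjective T hinj x‖ = ‖T x‖ := rfl
      rw [h2, hTn]
      exact abs_le_sg x i
    obtain ⟨g, hg, _⟩ := _root_.exists_extension_norm_eq (LinearMap.range T) (φ.mkContinuous 1 hb)
    refine ⟨g, fun x => ?_⟩
    have h2 := hg (LinearEquiv.ofInjective T hinj x)
    have h3 : ((LinearEquiv.ofInjective T hinj x : LinearMap.range T) : S) = T x := rfl
    rw [h3, LinearMap.mkContinuous_apply, hφa] at h2
    exact h2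
  choose es hes using h1
  refine ⟨es, fun i j => ?_⟩
  have h2 : T (Finsupp.single j 1) = e j := by
    rw [hT, Finsupp.linearCombination_single, one_smul]
  rw [← h2, hes, Finsupp.single_apply]
  by_cases h : i = j
  · rw [if_pos h, if_pos h.symm]
  · rw [if_neg h, if_neg (fun h' => h h'.symm)]

end

/-- `c₀₀` as a normed space -/
def C00 : Type := ℕ →₀ ℝ

noncomputable instance : AddCommGroup C00 := inferInstanceAs (AddCommGroup (ℕ →₀ ℝ))

noncomputable instance : Module ℝ C00 := inferInstanceAs (Module ℝ (ℕ →₀ ℝ))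

/-- the identity -/
noncomputable def toC : (ℕ →₀ ℝ) →ₗ[ℝ] C00 := LinearMap.id

/-- the identity -/
noncomputable def ofC : C00 →ₗ[ℝ] (ℕ →₀ ℝ) := LinearMap.id

lemma ofC_toC (x : ℕ →₀ ℝ) : ofC (toC x) = x := rfl

lemma toC_ofC (x : C00) : toC (ofC x) = x := rfl

noncomputable def agn : AddGroupNorm C00 where
  toFun := fun x => sg (ofC x)
  map_zero' := by rw [map_zero]; exact (sg_zero_iff 0).mpr rfl
  add_le' := fun x y => by rw [map_add]; exact sg_add _ _
  neg' := fun x => by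
    have h := sg_smul (-1) (ofC x)
    rw [abs_neg, abs_one, one_mul, neg_one_smul] at h
    rw [map_neg]
    exact h
  eq_zero_of_map_eq_zero' := fun x h => by
    have h1 := (sg_zero_iff (ofC x)).mp h
    rw [← toC_ofC x, h1, map_zero]

noncomputable instance : NormedAddCommGroup C00 := AddGroupNorm.toNormedAddCommGroup agn

lemma C00_norm (x : C00) : ‖x‖ = sg (ofC x) := rfl

noncomputable instance : NormedSpace ℝ C00 where
  norm_smul_le := fun t x => by
    rw [C00_norm, C00_norm, map_smul, Real.norm_eq_abs]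
    exact (sg_smul t _).le

/-- the embedding in the completion -/
noncomputable def emb : (ℕ →₀ ℝ) →ₗ[ℝ] UniformSpace.Completion C00 :=
  (UniformSpace.Completion.toComplₗᵢ (𝕜 := ℝ) (E := C00)).toLinearMap ∘ₗ toC

lemma emb_eq (x : ℕ →₀ ℝ) : (x.sum fun j a => a • emb (Finsupp.single j 1)) = emb x := by
  have h : Finsupp.linearCombination ℝ (fun j => emb (Finsupp.single j 1)) = emb := by
    apply Finsupp.lhom_ext
    intro j a
    rw [Finsupp.linearCombination_single, ← map_smul, Finsupp.smul_single, smul_eq_mul, mul_one]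
  conv_rhs => rw [← h]
  rfl

theorem exists_completion : ∃ (S : Type) (_ : NormedAddCommGroup S) (_ : NormedSpace ℝ S) (e : ℕ → S),
    IsCompletion sg S e := by
  refine ⟨UniformSpace.Completion C00, inferInstance, inferInstance, fun j => emb (Finsupp.single j 1),
    inferInstance, ?_, ?_⟩
  · intro x
    rw [emb_eq]
    exact (UniformSpace.Completion.toComplₗᵢ (𝕜 := ℝ) (E := C00)).norm_map (toC x)
  · have h1 : (fun x : ℕ →₀ ℝ => x.sum fun j a => a • emb (Finsupp.single j 1)) =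
        (fun x : C00 => (x : UniformSpace.Completion C00)) ∘ toC := by
      funext x
      rw [emb_eq]
      rfl
    rw [h1]
    apply DenseRange.comp UniformSpace.Completion.denseRange_coe _ (UniformSpace.Completion.continuous_coe C00)
    exact (Function.LeftInverse.surjective toC_ofC).denseRange

end Q80.DG
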